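import Pool.Agent.Lib.MP_5c9ca0_co.Defs

/-! Shared abbreviations: boundaries and the two sets of admissible bounds. -/

namespace Pool.Agent.Lib.MP_5c9ca0_co.W

variable {n m : ℕ}

/-- Incoming sum minus outgoing sum at a vertex. -/
def bd (G : MGraph n m) (φ : Fin m → ℝ) (v : Fin n) : ℝ :=
  ∑ e ∈ Finset.univ.filter (fun e => G.tgt e = v), φ e -
    ∑ e ∈ Finset.univ.filter (fun e => G.src e = v), φ e

/-- The bounds `r` that admit a circular flow. -/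
def S1 (G : MGraph n m) : Set ℝ :=
  {r : ℝ | 2 ≤ r ∧ ∃ φ : Fin m → ℝ, G.IsFlow φ ∧ ∀ e, 1 ≤ |φ e| ∧ |φ e| ≤ r - 1}

/-- The bounds `r` that admit a Chebyshev flow. -/
def S2 (G : MGraph n m) : Set ℝ :=
  {r : ℝ | 2 ≤ r ∧ ∃ φ : Fin m → ℝ × ℝ, G.IsFlow φ ∧
    ∀ e, 1 ≤ max |(φ e).1| |(φ e).2| ∧ max |(φ e).1| |(φ e).2| ≤ r - 1}

theorem circ_eq (G : MGraph n m) : G.circ = sInf (S1 G) := rfl

theorem cheb_eq (G : MGraph n m) : G.cheb = sInf (S2 G) := rfl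

end Pool.Agent.Lib.MP_5c9ca0_co.W
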