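import Pool.Agent.Lib.MP_5c9ca0_co.W.Tune1

/-! Joining two components of a cubic graph by a ladder with two rungs. -/

namespace Pool.Agent.Lib.MP_5c9ca0_co.W

open Finset Relation

variable {V : Type}

/-- The partner of a new vertex along its second and third dart. -/
def sw : Fin 3 → Fin 4 → Fin 4 := ![![0, 1, 2, 3], ![1, 0, 3, 2], ![2, 3, 0, 1]]

open Classical in
/-- The pairing of darts after the join; `o` lists the four darts of the two cut edges. -/
noncomputable def jMu (G : CG V) (o : Fin 4 → V × Fin 3) :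
    (V ⊕ Fin 4) × Fin 3 → (V ⊕ Fin 4) × Fin 3
  | (.inl v, j) => if h : ∃ i, o i = (v, j) then (.inr h.choose, 0) else dl (G.μ (v, j))
  | (.inr i, j) => if j = 0 then dl (o i) else (.inr (sw j i), j)

variable {G : CG V} {o : Fin 4 → V × Fin 3}

theorem j1 (ho : o.Injective) (i : Fin 4) : jMu G o (dl (o i)) = (.inr i, 0) := by
  have h : ∃ k, o k = ((o i).1, (o i).2) := ⟨i, rfl⟩
  simp only [jMu, dl, dif_pos h, ho h.choose_spec]

theorem j2 {x} (h : ∀ i, o i ≠ x) : jMu G o (dl x) = dl (G.μ x) := by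
  have h : ¬ ∃ k, o k = (x.1, x.2) := not_exists.2 h
  simp only [jMu, dl, dif_neg h]

theorem j3 (i : Fin 4) : jMu G o (.inr i, 0) = dl (o i) := by simp [jMu]

theorem j4 (i : Fin 4) {j : Fin 3} (h : j ≠ 0) : jMu G o (.inr i, j) = (.inr (sw j i), j) := by
  simp [jMu, h]

theorem sw_sw : ∀ j i, sw j (sw j i) = i := by decide

theorem sw_ne : ∀ j i, j ≠ 0 → sw j i ≠ i := by decide

theorem o_mu (hm : ∀ i, G.μ (o i) = o (sw 1 i)) {x} (h : ∀ i, o i ≠ x) (i) : o i ≠ G.μ x :=
  fun c => h (sw 1 i) (by rw [← hm, c, G.inv])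

/-- The joined graph. -/
noncomputable def join (G : CG V) (o : Fin 4 → V × Fin 3) (ho : o.Injective)
    (hm : ∀ i, G.μ (o i) = o (sw 1 i)) : CG (V ⊕ Fin 4) where
  μ := jMu G o
  inv := by
    rintro ⟨v | i, j⟩
    · change jMu G o (jMu G o (dl (v, j))) = dl (v, j)
      by_cases h : ∃ i, o i = (v, j)
      · obtain ⟨i, h⟩ := h
        rw [← h, j1 ho, j3]
      · rw [j2 (not_exists.1 h), j2 (o_mu hm (not_exists.1 h)), G.inv]
    · by_cases h : j = 0
      · rw [h, j3, j1 ho]
      · rw [j4 _ h, j4 _ h, sw_sw]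
  nl := by
    rintro ⟨v | i, j⟩
    · change (jMu G o (dl (v, j))).1 ≠ _
      by_cases h : ∃ i, o i = (v, j)
      · obtain ⟨i, h⟩ := h
        rw [← h, j1 ho]
        simp
      · rw [j2 (not_exists.1 h)]
        simpa [dl] using G.nl (v, j)
    · by_cases h : j = 0
      · rw [h, j3]
        simp [dl]
      · rw [j4 _ h]
        simpa using sw_ne j i h

variable {ho : o.Injective} {hm : ∀ i, G.μ (o i) = o (sw 1 i)} {A : Type} [AddCommGroup A]
  {C : V → Prop}

theorem cl_iff (hC : ∀ x, C x.1 → C (G.μ x).1) (x) : C (G.μ x).1 ↔ C x.1 :=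
  ⟨fun h => by simpa only [G.inv] using hC _ h, hC x⟩

theorem join_down [Fintype V] (hC : ∀ x, C x.1 → C (G.μ x).1) (c0 : C (o 0).1) (c2 : ¬ C (o 2).1)
    {g : _ → A} (h : (join G o ho hm).Fl g) : G.Fl fun x => g (dl x) := by
  classical
  have a : ∀ z, g (jMu G o z) = -g z := h.1
  have m0 : G.μ (o 0) = o 1 := hm 0
  have m2 : G.μ (o 2) = o 3 := hm 2
  have b : g (dl (o 1)) = -g (dl (o 0)) := by
    have := thru (Q := G) (d := o 0) (F := fun y => if C y.1 then g (dl y) else 0)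
      (fun y p q => by
        by_cases c : C y.1
        · rw [if_pos c, if_pos (hC y c), ← a, j2]
          intro i k
          subst k
          fin_cases i
          exacts [q rfl, p m0.symm, c2 c, c2 ((cl_iff hC _).1 (m2 ▸ c))]
        · rw [if_neg c, if_neg ((cl_iff hC y).not.2 c), neg_zero])
      fun w => by
        by_cases c : C w
        · simp only [if_pos c]
          exact h.2 (.inl w)
        · simp [c]
    rwa [if_pos (hC _ c0), if_pos c0, m0] at this
  have b' : g (dl (o 3)) = -g (dl (o 2)) := by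
    have e : ∀ i, g (dl (o i)) = g (.inr i, 1) + g (.inr i, 2) := fun i => by
      rw [← j3 (G := G), a]
      exact neg_eq_of_add_eq_zero_right ((add_assoc _ _ _).symm.trans (h.2 (.inr i)))
    have e1 : ∀ i j, j ≠ 0 → g (.inr (sw j i), j) = -g (.inr i, j) := fun i j k => by
      rw [← j4 (G := G) (o := o) i k, a]
    have p1 : g (.inr 1, 1) = _ := e1 0 1 (by decide)
    have p2 : g (.inr 3, 1) = _ := e1 2 1 (by decide)
    have p3 : g (.inr 2, 2) = _ := e1 0 2 (by decide)
    have p4 : g (.inr 3, 2) = _ := e1 1 2 (by decide)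
    rw [e, e, p1, neg_add, add_right_inj] at b
    rw [e, e, p2, p3, p4, b, neg_add]
  refine ⟨fun x => ?_, fun v => h.2 (.inl v)⟩
  by_cases k : ∃ i, o i = x
  · obtain ⟨i, rfl⟩ := k
    rw [hm]
    fin_cases i
    exacts [b, neg_eq_iff_eq_neg.1 b.symm, b', neg_eq_iff_eq_neg.1 b'.symm]
  · simp only [← a, j2 (not_exists.1 k)]

theorem join_up {P : A → Prop} (hP : ∀ a, P a → P (-a)) {f : _ → A} (h : G.Fl f) (k : ∀ x, P (f x))
    {z : A} (z0 : P z) (z1 : P (f (o 0) - z)) (z2 : P (f (o 2) + z)) :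
    ∃ g, (join G o ho hm).Fl g ∧ ∀ x, P (g x) := by
  let n : Fin 4 → Fin 3 → A := ![![-f (o 0), f (o 0) - z, z], ![-f (o 1), -(f (o 0) - z), -z],
    ![-f (o 2), f (o 2) + z, -z], ![-f (o 3), -(f (o 2) + z), z]]
  have n0 : ∀ i, n i 0 = -f (o i) := fun i => by fin_cases i <;> rfl
  have e1 : f (o 1) = -f (o 0) := (congrArg f (hm 0)).symm.trans (h.1 _)
  have e3 : f (o 3) = -f (o 2) := (congrArg f (hm 2)).symm.trans (h.1 _)
  let g : (V ⊕ Fin 4) × Fin 3 → A := fun x => x.1.elim (fun v => f (v, x.2)) fun i => n i x.2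
  have a : ∀ x, g (dl x) = f x := fun _ => rfl
  refine ⟨g, ⟨?_, ?_⟩, ?_⟩
  · rintro ⟨v | i, j⟩
    · change g (jMu G o (dl (v, j))) = -f (v, j)
      by_cases c : ∃ i, o i = (v, j)
      · obtain ⟨i, c⟩ := c
        rw [← c, j1 ho]
        exact n0 i
      · rw [j2 (not_exists.1 c), a, h.1]
    · change g (jMu G o (.inr i, j)) = -n i j
      by_cases c : j = 0
      · rw [c, j3, a, n0, neg_neg]
      · rw [j4 _ c]
        change n (sw j i) j = -n i j
        fin_cases i <;> fin_cases j <;> first | exact absurd rfl c | simp [n, sw]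
  · rintro (v | i)
    · exact h.2 v
    · change n i 0 + n i 1 + n i 2 = 0
      fin_cases i <;> simp only [n, e1, e3] <;> simp
      abel
  · rintro ⟨v | i, j⟩
    · exact k _
    · change P (n i j)
      fin_cases i <;> fin_cases j <;> first | assumption | exact hP _ (k _) | exact hP _ ‹_›

/-- Adjacency. -/
def Nb (G : CG V) (u v : V) : Prop := ∃ j, (G.μ (u, j)).1 = v

theorem join_ad {u v : V} (h : Nb G u v) :
    ReflTransGen (Nb (join G o ho hm)) (.inl u) (.inl v) := by
  obtain ⟨j, rfl⟩ := h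
  by_cases c : ∃ i, o i = (u, j)
  · obtain ⟨i, c⟩ := c
    have a : Nb (join G o ho hm) (.inl u) (.inr i) :=
      ⟨j, congrArg Prod.fst (c ▸ j1 ho i : jMu G o (dl (u, j)) = (.inr i, 0))⟩
    have b : Nb (join G o ho hm) (.inr i) (.inr (sw 1 i)) :=
      ⟨1, congrArg Prod.fst (j4 (G := G) i (by decide))⟩
    refine ((ReflTransGen.single a).tail b).tail ⟨0, ?_⟩
    rw [← c, hm]
    exact congrArg Prod.fst (j3 (G := G) _)
  · exact .single ⟨j, congrArg Prod.fst (j2 (not_exists.1 c))⟩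

theorem join_new (i : Fin 4) : ReflTransGen (Nb (join G o ho hm)) (.inl (o 0).1) (.inr i) := by
  have a : ReflTransGen (Nb (join G o ho hm)) (.inl (o 0).1) (.inr 0) :=
    .single ⟨(o 0).2, congrArg Prod.fst (j1 ho 0)⟩
  have b : ∀ i j, j ≠ 0 → Nb (join G o ho hm) (.inr i) (.inr (sw j i)) := fun i j c =>
    ⟨j, congrArg Prod.fst (j4 (G := G) i c)⟩
  fin_cases i
  exacts [a, a.tail (b 0 1 (by decide)), a.tail (b 0 2 (by decide)),
    (a.tail (b 0 1 (by decide))).tail (b 1 2 (by decide))]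

/-- Any two admissible values can be brought into a position that extends over the join. -/
def Flex (P : A → Prop) : Prop :=
  ∀ v w, P v → P w → ∃ σ τ : A →+ A, (∀ a, P a → P (σ a)) ∧ (∀ a, P a → P (τ a)) ∧
    ∃ z, P z ∧ P (σ v - z) ∧ P (τ w + z)

/-- The flows of `H` and `G` correspond. -/
def Cor {U : Type} (G : CG V) (H : CG U) : Prop :=
  ∀ (A : Type) [AddCommGroup A] (P : A → Prop), (∀ a, P a → P (-a)) →
    ((∃ g, H.Fl g ∧ ∀ x, P (g x)) → ∃ f, G.Fl f ∧ ∀ x, P (f x)) ∧
      (Flex P → (∃ f, G.Fl f ∧ ∀ x, P (f x)) → ∃ g, H.Fl g ∧ ∀ x, P (g x))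

theorem join_cor [Fintype V] (hC : ∀ x, C x.1 → C (G.μ x).1) (c0 : C (o 0).1)
    (c2 : ¬ C (o 2).1) : Cor G (join G o ho hm) := by
  classical
  refine fun A _ P hP => ⟨fun ⟨g, a, b⟩ => ⟨_, join_down hC c0 c2 a, fun _ => b _⟩, ?_⟩
  rintro fl ⟨f, a, b⟩
  obtain ⟨σ, τ, s1, s2, z, z0, z1, z2⟩ := fl _ _ (b (o 0)) (b (o 2))
  refine join_up hP (f := fun x => if C x.1 then σ (f x) else τ (f x)) ⟨fun x => ?_, fun v => ?_⟩
    (fun x => ?_) z0 (by rwa [if_pos c0]) (by rwa [if_neg c2])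
  · simp only [cl_iff hC, a.1, map_neg]
    split_ifs <;> rfl
  · simp only
    split_ifs <;> rw [← map_add, ← map_add, a.2, map_zero]
  · split_ifs
    exacts [s1 _ (b x), s2 _ (b x)]

theorem exists_conn (N : ℕ) : ∀ (V : Type) [Fintype V] (G : CG V) (v : V),
    {u | ¬ ReflTransGen (Nb G) v u}.ncard ≤ N → ∃ (U : Type) (_ : Fintype U) (H : CG U) (w : U),
      (∀ u, ReflTransGen (Nb H) w u) ∧ Cor G H := by
  have base : ∀ (V : Type) [Fintype V] (G : CG V) (v : V), (∀ u, ReflTransGen (Nb G) v u) →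
      ∃ (U : Type) (_ : Fintype U) (H : CG U) (w : U), (∀ u, ReflTransGen (Nb H) w u) ∧ Cor G H :=
    fun V i G v h => ⟨V, i, G, v, h, fun _ _ _ _ => ⟨id, fun _ => id⟩⟩
  induction N with
  | zero =>
    intro V _ G v h
    have := (Set.ncard_eq_zero (Set.toFinite _)).1 (Nat.le_zero.1 h)
    exact base V G v fun u => not_not.1 fun k => (Set.ext_iff.1 this u).1 k
  | succ N ih =>
    intro V _ G v h
    by_cases c : ∀ u, ReflTransGen (Nb G) v u
    · exact base V G v c
    obtain ⟨u, c⟩ := not_forall.1 c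
    have hC : ∀ x : V × Fin 3, ReflTransGen (Nb G) v x.1 → ReflTransGen (Nb G) v (G.μ x).1 :=
      fun x k => k.tail ⟨x.2, rfl⟩
    let o : Fin 4 → V × Fin 3 := ![(v, 0), G.μ (v, 0), (u, 0), G.μ (u, 0)]
    have hm : ∀ i, G.μ (o i) = o (sw 1 i) := fun i => by
      fin_cases i
      exacts [rfl, G.inv _, rfl, G.inv _]
    have ho : o.Injective := by
      have p0 : ReflTransGen (Nb G) v (o 0).1 := .refl
      have p1 : ReflTransGen (Nb G) v (o 1).1 := hC _ p0
      have p2 : ¬ ReflTransGen (Nb G) v (o 2).1 := c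
      have p3 : ¬ ReflTransGen (Nb G) v (o 3).1 := (cl_iff hC (u, 0)).not.2 c
      have q1 : o 0 ≠ o 1 := mu_ne G _
      have q2 : o 2 ≠ o 3 := mu_ne G _
      intro i j e
      fin_cases i <;> fin_cases j <;> first
        | rfl
        | exact absurd e q1
        | exact absurd e.symm q1
        | exact absurd e q2
        | exact absurd e.symm q2
        | (exfalso; simp only [Fin.reduceFinMk] at e; grind)
    have l : ∀ x, ReflTransGen (Nb G) v x → ReflTransGen (Nb (join G o ho hm)) (.inl v) (.inl x) :=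
      fun x k => by
        induction k with
        | refl => exact .refl
        | tail _ b a => exact a.trans (join_ad b)
    obtain ⟨U, iU, H, w, h1, h2⟩ := ih _ (join G o ho hm) (.inl v) (by
      have s : {x | ¬ ReflTransGen (Nb (join G o ho hm)) (.inl v) x} ⊆
          Sum.inl '' ({x | ¬ ReflTransGen (Nb G) v x} \ {u}) := by
        rintro (x | i) k
        · refine ⟨x, ⟨fun c => k (l x c), ?_⟩, rfl⟩
          rintro rfl
          exact k ((join_new 2).tail ⟨0, congrArg Prod.fst (j3 (G := G) 2)⟩)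
        · exact absurd (join_new i) k
      have := Set.ncard_sdiff_singleton_lt_of_mem (s := {x | ¬ ReflTransGen (Nb G) v x}) (a := u) c
      have := (Set.ncard_le_ncard s (Set.toFinite _)).trans (Set.ncard_image_le (Set.toFinite _))
      omega)
    have h3 : Cor G (join G o ho hm) := join_cor hC .refl c
    exact ⟨U, iU, H, w, h1, fun A _ P hP => ⟨fun k => (h3 A P hP).1 ((h2 A P hP).1 k),
      fun fl k => (h2 A P hP).2 fl ((h3 A P hP).2 fl k)⟩⟩

end Pool.Agent.Lib.MP_5c9ca0_co.W
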