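import Pool.Agent.Lib.MP_5c9ca0_co.Defs

/-! Connected multigraphs. -/

namespace Pool.Agent.Lib.MP_5c9ca0_co

/-- Any two vertices are joined by a walk. -/
def MGraph.Conn {n m : ℕ} (G : MGraph n m) : Prop :=
  ∀ u v, Relation.ReflTransGen
    (fun a b => ∃ f, (G.src f = a ∧ G.tgt f = b) ∨ (G.src f = b ∧ G.tgt f = a)) u v

end Pool.Agent.Lib.MP_5c9ca0_co
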