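import Pool.Agent.Lib.MP_5c9ca0_co.W.ConnA
import Pool.Agent.Lib.MP_5c9ca0_co.W.ConnB
import Pool.Agent.Lib.MP_5c9ca0_co.W.ConnDef

/-! Every snark has a connected companion with the same two flow numbers. -/

namespace Pool.Agent.Lib.MP_5c9ca0_co.W

open Relation

theorem pos1 {T v : ℝ} (hT : 3 ≤ T) (h : P1 T v) :
    ∃ σ : ℝ →+ ℝ, (∀ a, P1 T a → P1 T (σ a)) ∧ P1 T (σ v - 1) := by
  obtain ⟨a, b⟩ := h
  have k : P1 T (v - 1) ∨ P1 T (-v - 1) := by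
    simp only [P1, le_abs, abs_le] at *
    rcases a with a | a
    · rcases le_total 2 v with c | c
      · exact .inl ⟨.inl (by linarith), by linarith, by linarith [b.2]⟩
      · exact .inr ⟨.inr (by linarith), by linarith, by linarith⟩
    · rcases le_total 2 (-v) with c | c
      · exact .inr ⟨.inl (by linarith), by linarith, by linarith [b.1]⟩
      · exact .inl ⟨.inr (by linarith), by linarith, by linarith⟩
  exact k.elim (fun k => ⟨AddMonoidHom.id ℝ, fun _ => id, k⟩)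
    fun k => ⟨-AddMonoidHom.id ℝ, P1.neg, k⟩

theorem pos2 {T : ℝ} {v : ℝ × ℝ} (h : P2 T v) :
    ∃ σ : ℝ × ℝ →+ ℝ × ℝ, (∀ a, P2 T a → P2 T (σ a)) ∧ P2 T (σ v - (0, 1)) := by
  have key : ∀ w : ℝ × ℝ, P2 T w → 1 ≤ |w.1| → 0 ≤ w.2 → P2 T (w - (0, 1)) := fun w a b c => by
    have t := a.1.trans a.2
    have e := (max_le_iff.1 a.2).2
    rw [abs_of_nonneg c] at e
    refine ⟨le_max_of_le_left (by simpa using b), max_le (by simpa using (max_le_iff.1 a.2).1) ?_⟩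
    rw [Prod.snd_sub, abs_le]
    constructor <;> linarith
  have k2 : ∀ w : ℝ × ℝ, P2 T w → 1 ≤ |w.1| →
      ∃ σ : ℝ × ℝ →+ ℝ × ℝ, (∀ a, P2 T a → P2 T (σ a)) ∧ P2 T (σ w - (0, 1)) := fun w a b => by
    rcases le_total 0 w.2 with c | c
    · exact ⟨AddMonoidHom.id _, fun _ => id, key w a b c⟩
    · exact ⟨-AddMonoidHom.id _, P2.neg, key (-w) (a.neg _) (by simpa using b) (by simpa using c)⟩
  rcases le_max_iff.1 h.1 with c | c
  · exact k2 v h c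
  · have s : ∀ a : ℝ × ℝ, P2 T a → P2 T a.swap := fun a k => by rwa [P2, max_comm] at k
    obtain ⟨σ, a, b⟩ := k2 v.swap (s v h) c
    exact ⟨σ.comp (AddEquiv.prodComm : ℝ × ℝ ≃+ ℝ × ℝ), fun x k => a _ (s x k), b⟩

theorem flex_of {A : Type} [AddCommGroup A] {P : A → Prop} (hP : ∀ a, P a → P (-a)) {z : A}
    (h : ∀ v, P v → P z ∧ ∃ σ : A →+ A, (∀ a, P a → P (σ a)) ∧ P (σ v - z)) : Flex P := by
  intro v w a b
  obtain ⟨z0, σ, s1, s2⟩ := h v a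
  obtain ⟨-, τ, t1, t2⟩ := h w b
  refine ⟨σ, -τ, s1, fun x k => hP _ (t1 x k), z, z0, s2, ?_⟩
  have := hP _ t2
  rwa [neg_sub, sub_eq_neg_add] at this

theorem flex1 {T : ℝ} (hT : 3 ≤ T) : Flex (P1 T) :=
  flex_of P1.neg fun _ h => ⟨⟨abs_one.ge, by rw [abs_one]; linarith⟩, pos1 hT h⟩

theorem flex2 (T : ℝ) : Flex (P2 T) :=
  flex_of P2.neg fun _ h => ⟨⟨by simp, by simpa using h.1.trans h.2⟩, pos2 h⟩

theorem conn_toM {U : Type} [Fintype U] (H : CG U) {w : U} (h : ∀ u, ReflTransGen (Nb H) w u) :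
    H.toM.Conn := by
  have s : ∀ u, ReflTransGen (fun a b => ∃ f, (H.toM.src f = a ∧ H.toM.tgt f = b) ∨
      (H.toM.src f = b ∧ H.toM.tgt f = a)) (Fintype.equivFin U w) (Fintype.equivFin U u) :=
    fun u => by
      induction h u with
      | refl => exact .refl
      | @tail b _ _ k ih =>
        obtain ⟨j, rfl⟩ := k
        refine ih.tail ⟨H.ed (b, j), (H.ed_symm (b, j)).imp (fun e => ?_) fun e => ?_⟩
        · simp only [CG.toM, e, and_self]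
        · simp only [CG.toM, e, H.inv, and_self]
  intro u v
  obtain ⟨u, rfl⟩ := (Fintype.equivFin U).surjective u
  obtain ⟨v, rfl⟩ := (Fintype.equivFin U).surjective v
  refine ReflTransGen.trans ?_ (s v)
  have := s u
  generalize Fintype.equivFin U u = x at this
  induction this with
  | refl => exact .refl
  | tail _ k ih => exact .head (k.imp fun _ => Or.symm) ih

theorem snark_conn {n m : ℕ} (G : MGraph n m) (h : G.IsSnark) : ∃ (k l : ℕ) (H : MGraph k l),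
    H.IsSnark ∧ H.Conn ∧ H.circ = G.circ ∧ H.cheb = G.cheb := by
  obtain ⟨K, hK⟩ := exists_cg h.2.1
  have n4 : (4 : ℝ) ∉ S1 G := fun c => h.2.2 (col_of_four h.2.1 c)
  have v : Fin n := by
    refine Classical.choice (not_isEmpty_iff.1 fun c => h.2.2 ⟨fun _ => 0, fun e => ?_⟩)
    exact c.elim (G.src e)
  obtain ⟨U, _, H, w, h1, h2⟩ := exists_conn _ _ K v le_rfl
  have t : ∀ (A : Type) [AddCommGroup A] (P : A → Prop), (∀ a, P a → P (-a)) →
      ((∃ φ, H.toM.IsFlow φ ∧ ∀ e, P (φ e)) → ∃ φ, G.IsFlow φ ∧ ∀ e, P (φ e)) ∧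
        (Flex P → (∃ φ, G.IsFlow φ ∧ ∀ e, P (φ e)) → ∃ φ, H.toM.IsFlow φ ∧ ∀ e, P (φ e)) :=
    fun A _ P hP => ⟨fun ⟨_, a, b⟩ => (hK A P hP).2 ((h2 A P hP).1 (H.of_flow a hP b)),
      fun fl k => by
        obtain ⟨g, a, b⟩ := (h2 A P hP).2 fl ((hK A P hP).1 k)
        exact ⟨_, (H.flow_iff a.1).2 a, fun _ => b _⟩⟩
  have e1 : S1 H.toM = S1 G := Set.ext fun r => ⟨fun k => ⟨k.1, (t ℝ (P1 (r - 1)) P1.neg).1 k.2⟩,
    fun k => ⟨k.1, (t ℝ (P1 (r - 1)) P1.neg).2 (flex1 (by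
      by_contra c
      exact n4 (S1_mono G k (by linarith)))) k.2⟩⟩
  have e2 : S2 H.toM = S2 G := Set.ext fun r => and_congr_right fun _ =>
    ⟨(t _ (P2 (r - 1)) P2.neg).1, (t _ (P2 (r - 1)) P2.neg).2 (flex2 _)⟩
  obtain ⟨r, hr⟩ := G.S1_ne h.1
  exact ⟨_, _, H.toM, ⟨bridgeless_of_S1 _ (e1.symm ▸ hr : r ∈ S1 H.toM), H.cubic,
    fun c => n4 (e1 ▸ four_of_col _ H.cubic c)⟩, conn_toM H h1, by rw [circ_eq, e1, circ_eq],
    by rw [cheb_eq, e2, cheb_eq]⟩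

end Pool.Agent.Lib.MP_5c9ca0_co.W
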