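import Pool.Agent.Lib.MP_5c9ca0_co.W.ConnDef
import Pool.Agent.Lib.MP_5c9ca0_co.Q.Gen

/-! Identifying one vertex of each component keeps all flows. -/

namespace Pool.Agent.Lib.MP_5c9ca0_co.W

open Finset

variable {n m : ℕ}

theorem dv_push {k : ℕ} (G : MGraph n m) (q : Fin n → Fin k) {A : Type} [AddCommGroup A]
    (φ : Fin m → A) (w : Fin k) :
    (⟨fun e => q (G.src e), fun e => q (G.tgt e)⟩ : MGraph k m).dv φ w =
      ∑ v, if q v = w then G.dv φ v else 0 := by
  have : ∀ v, (if q v = w then G.dv φ v else 0) = ∑ e,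
      ((if G.tgt e = v then (if q v = w then φ e else 0) else 0) -
        (if G.src e = v then (if q v = w then φ e else 0) else 0)) := fun v => by
    unfold MGraph.dv
    split_ifs <;> simp
  simp only [this]
  rw [sum_comm]
  simp [MGraph.dv, sum_sub_distrib]

theorem walk_symm {k : ℕ} {s t : Fin m → Fin k} {a b : Fin k} (h : Relation.ReflTransGen
    (fun a b => ∃ f, (s f = a ∧ t f = b) ∨ (s f = b ∧ t f = a)) a b) : Relation.ReflTransGen
    (fun a b => ∃ f, (s f = a ∧ t f = b) ∨ (s f = b ∧ t f = a)) b a := by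
  induction h with
  | refl => exact .refl
  | tail _ hf ih => exact .head (hf.imp fun _ => Or.symm) ih

theorem walk_map {k : ℕ} {s t : Fin m → Fin n} (q : Fin n → Fin k) {a b : Fin n}
    (h : Relation.ReflTransGen (fun a b => ∃ f, (s f = a ∧ t f = b) ∨ (s f = b ∧ t f = a)) a b) :
    Relation.ReflTransGen (fun a b => ∃ f, (q (s f) = a ∧ q (t f) = b) ∨
      (q (s f) = b ∧ q (t f) = a)) (q a) (q b) := by
  induction h with
  | refl => exact .refl
  | tail _ hf ih =>
    exact .tail ih (hf.imp fun _ h => h.imp (fun h => ⟨by rw [h.1], by rw [h.2]⟩)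
      fun h => ⟨by rw [h.1], by rw [h.2]⟩)

theorem exists_conn (G : MGraph n m) : ∃ (k : ℕ) (H : MGraph k m), H.Conn ∧
    ∀ (A : Type) [AddCommGroup A] (φ : Fin m → A), H.IsFlow φ ↔ G.IsFlow φ := by
  classical
  let R : Fin n → Fin n → Prop := Relation.ReflTransGen
    fun a b => ∃ f, (G.src f = a ∧ G.tgt f = b) ∨ (G.src f = b ∧ G.tgt f = a)
  let s : Setoid (Fin n) := ⟨R, fun _ => .refl, walk_symm, Relation.ReflTransGen.trans⟩
  let c : Fin n → Fin n := fun v => (Quotient.mk s v).out
  have c1 : ∀ v, R (c v) v := fun v => Quotient.mk_out (s := s) v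
  have c2 : ∀ e, c (G.src e) = c (G.tgt e) := fun e =>
    congrArg Quotient.out (Quotient.sound (s := s) (.single ⟨e, Or.inl ⟨rfl, rfl⟩⟩))
  have c3 : ∀ v, c (c v) = c v := fun v => congrArg Quotient.out (Quotient.out_eq _)
  let p : Fin n → Option {v // c v ≠ v} := fun v => if h : c v = v then none else some ⟨v, h⟩
  let q := fun v => Fintype.equivFin _ (p v)
  refine ⟨_, ⟨fun e => q (G.src e), fun e => q (G.tgt e)⟩, ?_, fun A _ φ => ?_⟩
  · have key : ∀ w, Relation.ReflTransGen (fun a b => ∃ f,
        (q (G.src f) = a ∧ q (G.tgt f) = b) ∨ (q (G.src f) = b ∧ q (G.tgt f) = a))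
        (Fintype.equivFin _ none) w := by
      intro w
      obtain ⟨_ | ⟨v, hv⟩, rfl⟩ := (Fintype.equivFin (Option {v // c v ≠ v})).surjective w
      · exact .refl
      · simpa only [q, p, dif_pos (c3 v), dif_neg hv] using walk_map q (c1 v)
    exact fun u v => (walk_symm (key u)).trans (key v)
  · rw [MGraph.flow_iff, MGraph.flow_iff]
    simp only [dv_push]
    refine ⟨fun h => ?_, fun h w => by simp [h]⟩
    have non : ∀ v, c v ≠ v → G.dv φ v = 0 := fun v hv => by
      have := h (q v)
      rw [sum_eq_single v, if_pos rfl] at this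
      · exact this
      · intro u _ hu
        refine if_neg fun k => hu ?_
        have k' : p u = p v := (Fintype.equivFin _).injective k
        simp only [p, dif_neg hv] at k'
        split_ifs at k' with z
        simpa using k'
      · simp
    intro v
    by_cases hv : c v = v
    · have := dv_push G c φ v
      rw [sum_eq_single v, if_pos hv] at this
      · rw [← this]
        simp [MGraph.dv, c2]
      · intro u _ hu
        split_ifs with z
        · exact non u fun k => hu (k.symm.trans z)
        · rfl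
      · simp
    · exact non v hv

theorem graph_conn (G : MGraph n m) (h : G.Bridgeless) : ∃ (k l : ℕ) (H : MGraph k l),
    H.Bridgeless ∧ H.Conn ∧ H.circ = G.circ ∧ H.cheb = G.cheb := by
  obtain ⟨k, H, hc, hf⟩ := exists_conn G
  obtain ⟨φ, hφ, h0⟩ := G.exists_nz h
  refine ⟨k, m, H, H.bridgeless_of_nz ((hf _ φ).2 hφ) h0, hc, ?_, ?_⟩
  · simp only [MGraph.circ, hf]
  · simp only [MGraph.cheb, hf]

end Pool.Agent.Lib.MP_5c9ca0_co.W
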