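import Pool.Agent.Lib.MP_5c9ca0_co.W.Round

/-! Both flow numbers are attained and rational; the ratio for graphs with a 5-flow. -/

namespace Pool.Agent.Lib.MP_5c9ca0_co.W

variable {n m : ℕ}

theorem least_S1 (G : MGraph n m) (h : (S1 G).Nonempty) : ∃ q : ℚ, IsLeast (S1 G) (q : ℝ) := by
  have k := G.circ_least h
  have k' := k
  rw [G.S1_eq] at k'
  obtain ⟨q, hq⟩ := Ad.rat (fun g x hx => by exact MGraph.IsFlow.map hx g) k'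
  exact ⟨q, hq ▸ k⟩

theorem least_S2 (G : MGraph n m) (h : (S2 G).Nonempty) : ∃ q : ℚ, IsLeast (S2 G) (q : ℝ) := by
  have k := G.cheb_least h
  have k' := k
  rw [G.S2_eq] at k'
  obtain ⟨q, hq⟩ := Ad.rat (fun g x hx => by exact ⟨hx.1.map g, hx.2.map g⟩) k'
  exact ⟨q, hq ▸ k⟩

theorem S1_subset (G : MGraph n m) : S1 G ⊆ S2 G :=
  G.S1_sub

theorem S1_mono (G : MGraph n m) {r s : ℝ} (h : r ∈ S1 G) (k : r ≤ s) : s ∈ S1 G := by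
  obtain ⟨h2, φ, hφ, b⟩ := h
  exact ⟨h2.trans k, φ, hφ, fun e => ⟨(b e).1, by linarith [(b e).2]⟩⟩

theorem S2_mono (G : MGraph n m) {r s : ℝ} (h : r ∈ S2 G) (k : r ≤ s) : s ∈ S2 G := by
  obtain ⟨h2, φ, hφ, b⟩ := h
  exact ⟨h2.trans k, φ, hφ, fun e => ⟨(b e).1, by linarith [(b e).2]⟩⟩

theorem ratio_five (G : MGraph n m) (h : (5 : ℝ) ∈ S1 G) :
    ∃ q : ℚ, 1 ≤ q ∧ q < 5 / 2 ∧ G.circ / G.cheb = (q : ℝ) := by
  obtain ⟨q, h0, h1, h2⟩ := G.ratio (bridgeless_of_S1 G h)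
  have := h2 5 (by norm_num) ((G.circ_least ⟨5, h⟩).2 h)
  refine ⟨q, h1, ?_, h0⟩
  have k : (q : ℝ) < ((5 / 2 : ℚ) : ℝ) := by push_cast; exact this
  exact_mod_cast k

end Pool.Agent.Lib.MP_5c9ca0_co.W
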