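import Pool.Agent.Lib.MP_5c9ca0_co.Dart
import Pool.Agent.Lib.MP_5c9ca0_co.W.Rat

/-! A cubic multigraph written on darts; a 4-flow gives a colouring. -/

namespace Pool.Agent.Lib.MP_5c9ca0_co.W

open Finset

variable {n m : ℕ} {G : MGraph n m}

theorem exists_ed (hc : G.Cubic) : ∃ (ed : Fin n → Fin 3 → Fin m) (ix : Fin n → Fin m → Fin 3),
    (∀ v j, G.src (ed v j) = v ∨ G.tgt (ed v j) = v) ∧ (∀ v j, ix v (ed v j) = j) ∧
      ∀ v e, G.src e = v ∨ G.tgt e = v → ed v (ix v e) = e := by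
  have k : ∀ v, Fintype.card {e // G.src e = v ∨ G.tgt e = v} = 3 := fun v => by
    rw [Fintype.card_subtype, hc.2]
  let κ := fun v => Fintype.equivFinOfCardEq (k v)
  refine ⟨fun v j => ((κ v).symm j).1, fun v e => if h : G.src e = v ∨ G.tgt e = v then κ v ⟨e, h⟩
    else 0, fun v j => ((κ v).symm j).2, fun v j => ?_, fun v e h => ?_⟩
  · simp only [dif_pos ((κ v).symm j).2, Subtype.coe_eta, Equiv.apply_symm_apply]
  · simp only [dif_pos h, Equiv.symm_apply_apply]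

theorem dv_ed (hc : G.Cubic) {ed : Fin n → Fin 3 → Fin m} {ix : Fin n → Fin m → Fin 3}
    (h1 : ∀ v j, G.src (ed v j) = v ∨ G.tgt (ed v j) = v) (h2 : ∀ v j, ix v (ed v j) = j)
    (h3 : ∀ v e, G.src e = v ∨ G.tgt e = v → ed v (ix v e) = e) {A : Type} [AddCommGroup A]
    (φ : Fin m → A) (v : Fin n) :
    ∑ j, (if G.src (ed v j) = v then φ (ed v j) else -φ (ed v j)) = -G.dv φ v := by
  rw [MGraph.dv, ← sum_neg_distrib]
  refine sum_of_injOn (ed v) (fun i _ j _ k => by rw [← h2 v i, k, h2]) (fun _ _ => mem_univ _)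
    (fun e _ k => ?_) fun j _ => ?_
  · have : ¬ (G.src e = v ∨ G.tgt e = v) := fun c => k ⟨_, mem_coe.2 (mem_univ _), h3 v e c⟩
    rw [not_or] at this
    simp [this.1, this.2]
  · by_cases c : G.src (ed v j) = v
    · have : G.tgt (ed v j) ≠ v := fun c' => hc.1 _ (c.trans c'.symm)
      simp [c, this]
    · simp [c, (h1 v j).resolve_left c]

theorem exists_cg (hc : G.Cubic) : ∃ K : CG (Fin n), ∀ (A : Type) [AddCommGroup A] (P : A → Prop),
    (∀ a, P a → P (-a)) → ((∃ φ, G.IsFlow φ ∧ ∀ e, P (φ e)) ↔ ∃ f, K.Fl f ∧ ∀ x, P (f x)) := by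
  obtain ⟨ed, ix, h1, h2, h3⟩ := exists_ed hc
  let μ : Fin n × Fin 3 → Fin n × Fin 3 := fun x =>
    if G.src (ed x.1 x.2) = x.1 then (G.tgt (ed x.1 x.2), ix (G.tgt (ed x.1 x.2)) (ed x.1 x.2))
    else (G.src (ed x.1 x.2), ix (G.src (ed x.1 x.2)) (ed x.1 x.2))
  have m1 : ∀ e, μ (G.src e, ix (G.src e) e) = (G.tgt e, ix (G.tgt e) e) := fun e => by
    simp only [μ, h3 _ e (.inl rfl), if_true]
  have m2 : ∀ e, μ (G.tgt e, ix (G.tgt e) e) = (G.src e, ix (G.src e) e) := fun e => by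
    simp only [μ, h3 _ e (.inr rfl), if_neg (hc.1 e)]
  have cs : ∀ x : Fin n × Fin 3, ∃ e, x = (G.src e, ix (G.src e) e) ∨
      x = (G.tgt e, ix (G.tgt e) e) := fun x =>
    ⟨ed x.1 x.2, (h1 x.1 x.2).imp (fun k => by rw [k, h2]) fun k => by rw [k, h2]⟩
  refine ⟨⟨μ, fun x => ?_, fun x => ?_⟩, fun A _ P hP => ⟨?_, ?_⟩⟩
  · obtain ⟨e, rfl | rfl⟩ := cs x
    · rw [m1, m2]
    · rw [m2, m1]
  · obtain ⟨e, rfl | rfl⟩ := cs x
    · rw [m1]
      exact (hc.1 e).symm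
    · rw [m2]
      exact hc.1 e
  · rintro ⟨φ, a, b⟩
    refine ⟨fun x => if G.src (ed x.1 x.2) = x.1 then φ (ed x.1 x.2) else -φ (ed x.1 x.2),
      ⟨fun x => ?_, fun v => ?_⟩, fun x => ?_⟩
    · obtain ⟨e, rfl | rfl⟩ := cs x
      · simp only [m1, h3 _ e (.inl rfl), h3 _ e (.inr rfl), if_true, if_neg (hc.1 e)]
      · simp only [m2, h3 _ e (.inl rfl), h3 _ e (.inr rfl), if_true, if_neg (hc.1 e), neg_neg]
    · have := dv_ed hc h1 h2 h3 φ v
      rwa [(G.flow_iff φ).1 a v, neg_zero, Fin.sum_univ_three] at this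
    · beta_reduce
      split_ifs
      exacts [b _, hP _ (b _)]
  · rintro ⟨f, a, b⟩
    refine ⟨fun e => f (G.src e, ix (G.src e) e), (G.flow_iff _).2 fun v => ?_, fun _ => b _⟩
    rw [← neg_eq_zero, ← dv_ed hc h1 h2 h3, ← a.2 v, ← Fin.sum_univ_three fun j => f (v, j)]
    refine sum_congr rfl fun j _ => ?_
    split_ifs with c
    · rw [c, h2]
    · have := a.1 (G.src (ed v j), ix (G.src (ed v j)) (ed v j))
      simp only [m1, (h1 v j).resolve_left c, h2] at this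
      exact this.symm

theorem three {x y : Fin 3 → ℤ} (hx : ∑ j, x j = 0) (hy : ∑ j, y j = 0) (bx : ∀ j, |x j| ≤ 1)
    (b : ∀ j, |y j| ≤ 1) (h : ∀ j, x j ≠ 0 ∨ y j ≠ 0) {i j : Fin 3} (k : i ≠ j)
    (e1 : x i = 0 ↔ x j = 0) (e2 : y i = 0 ↔ y j = 0) : False := by
  rw [Fin.sum_univ_three] at hx hy
  simp only [abs_le] at bx b
  have := bx 0
  have := bx 1
  have := bx 2
  have := b 0
  have := b 1
  have := b 2
  have := h 0
  have := h 1
  have := h 2
  fin_cases i <;> fin_cases j <;> simp at k e1 e2 <;> omega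

theorem col_of_four (hc : G.Cubic) (h : (4 : ℝ) ∈ S1 G) : G.ThreeEdgeColourable := by
  obtain ⟨-, φ, hφ, b⟩ := G.two_of_four h
  obtain ⟨x, x1, x2⟩ := G.round_one (x := fun e => (φ e).1) (hφ.map (AddMonoidHom.fst ℝ ℝ))
    fun e => by linarith [(b e).2, le_max_left |(φ e).1| |(φ e).2|]
  obtain ⟨y, y1, y2⟩ := G.round_one (x := fun e => (φ e).2) (hφ.map (AddMonoidHom.snd ℝ ℝ))
    fun e => by linarith [(b e).2, le_max_right |(φ e).1| |(φ e).2|]
  have big : ∀ e, x e ≠ 0 ∨ y e ≠ 0 := fun e => ((le_max_iff.1 (b e).1).imp (x2 e).2 (y2 e).2).imp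
    (fun k c => by simp [c] at k) fun k c => by simp [c] at k
  obtain ⟨ed, ix, h1, h2, h3⟩ := exists_ed hc
  have s : ∀ z : Fin m → ℤ, G.IsFlow (fun e => (z e : ℝ)) → ∀ v,
      ∑ j, (if G.src (ed v j) = v then z (ed v j) else -z (ed v j)) = 0 := fun z hz v => by
    have := dv_ed hc h1 h2 h3 (fun e => (z e : ℝ)) v
    rw [(G.flow_iff _).1 hz v, neg_zero] at this
    exact_mod_cast this
  refine ⟨fun e => if x e = 0 then 0 else if y e = 0 then 1 else 2, fun e f k v he hf c => ?_⟩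
  have c1 : (x e = 0 ↔ x f = 0) ∧ (y e = 0 ↔ y f = 0) := by
    have := big e
    have := big f
    beta_reduce at c
    split_ifs at c <;> first | exact absurd c (by decide) | tauto
  refine three (s x x1 v) (s y y1 v) (fun j => ?_) (fun j => ?_) (fun j => ?_)
    (i := ix v e) (j := ix v f) (fun c => k (by rw [← h3 v e he, c, h3 v f hf])) ?_ ?_
  · split_ifs <;> simpa using (x2 _).1
  · split_ifs <;> simpa using (y2 _).1
  · split_ifs <;> simpa using big _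
  · rw [h3 v e he, h3 v f hf]
    split_ifs <;> simpa using c1.1
  · rw [h3 v e he, h3 v f hf]
    split_ifs <;> simpa using c1.2

end Pool.Agent.Lib.MP_5c9ca0_co.W
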