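import Pool.Agent.Lib.MP_5c9ca0_co.W.Round
import Pool.Agent.Lib.MP_5c9ca0_co.Q.Low

/-! Every rational number of `[2, 4)` is a circular flow number. -/

namespace Pool.Agent.Lib.MP_5c9ca0_co.W

theorem exists_low (r : ℚ) (h2 : 2 ≤ r) (h4 : r < 4) :
    ∃ (n m : ℕ) (G : MGraph n m), IsLeast (S1 G) (r : ℝ) :=
  exists_least r h2 h4.le

end Pool.Agent.Lib.MP_5c9ca0_co.W
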