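import Pool.Agent.Lib.MP_5c9ca0_co.Dart

/-! Cubic multipoles, the replacement of vertices by triangles, and chains of multipoles. -/

namespace Pool.Agent.Lib.MP_5c9ca0_co.W

/-- A cubic multipole: `c` gives the partner dart or the port of a dart. -/
structure MP (V I : Type) where
  c : V × Fin 3 → V × Fin 3 ⊕ I
  o : I → V × Fin 3
  h1 : ∀ x y, c x = .inl y → c y = .inl x ∧ y.1 ≠ x.1
  h2 : ∀ i, c (o i) = .inr i
  h3 : ∀ x i, c x = .inr i → o i = x

variable {V U I K C A : Type}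

/-- The port values `b` extend to the darts, with the relation `R v` at the vertex `v`. -/
def MP.Ext [InvolutiveNeg A] (M : MP V I) (R : V → A → A → A → Prop) (b : I → A) : Prop :=
  ∃ f : V × Fin 3 → A, (∀ x y, M.c x = .inl y → f y = -f x) ∧
    (∀ v, R v (f (v, 0)) (f (v, 1)) (f (v, 2))) ∧ ∀ i, f (M.o i) = b i

/-- The dart that corresponds to an old dart after the replacement by triangles. -/
def up : (V ⊕ U) × Fin 3 → (V × Fin 3 ⊕ U) × Fin 3
  | (.inl a, j) => (.inl (a, j), 0)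
  | (.inr b, j) => (.inr b, j)

/-- The partner after the replacement by triangles. -/
def MP.tc (M : MP (V ⊕ U) I) : (V × Fin 3 ⊕ U) × Fin 3 → (V × Fin 3 ⊕ U) × Fin 3 ⊕ I
  | (.inl (a, i), j) => if j = 0 then (M.c (.inl a, i)).map up id
      else if j = 1 then .inl (.inl (a, i + 1), 2) else .inl (.inl (a, i + 2), 1)
  | (.inr b, j) => (M.c (.inr b, j)).map up id

theorem MP.tc_up (M : MP (V ⊕ U) I) (x : (V ⊕ U) × Fin 3) : M.tc (up x) = (M.c x).map up id := by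
  rcases x with ⟨a | b, j⟩ <;> rfl

theorem up_cases (x : (V × Fin 3 ⊕ U) × Fin 3) :
    (∃ y, x = up y) ∨ (∃ a i, x = (.inl (a, i), 1)) ∨ ∃ a i, x = (.inl (a, i), 2) := by
  rcases x with ⟨⟨a, i⟩ | b, j⟩
  · fin_cases j
    exacts [.inl ⟨(.inl a, i), rfl⟩, .inr (.inl ⟨a, i, rfl⟩), .inr (.inr ⟨a, i, rfl⟩)]
  · exact .inl ⟨(.inr b, j), rfl⟩

theorem map_inl {X Y Z : Type} {g : X → Y} {s : X ⊕ Z} {y : Y} (h : s.map g id = .inl y) :
    ∃ x, s = .inl x ∧ y = g x := by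
  rcases s with x | z
  · exact ⟨x, rfl, (Sum.inl.inj h).symm⟩
  · cases h

/-- The vertices of the first kind are replaced by triangles. -/
def MP.tr (M : MP (V ⊕ U) I) : MP (V × Fin 3 ⊕ U) I where
  c := M.tc
  o i := up (M.o i)
  h1 x y h := by
    rcases up_cases x with ⟨x, rfl⟩ | ⟨a, i, rfl⟩ | ⟨a, i, rfl⟩
    · rw [M.tc_up] at h
      obtain ⟨z, e, rfl⟩ := map_inl h
      have := M.h1 _ _ e
      refine ⟨by rw [M.tc_up, this.1]; rfl, fun k => this.2 ?_⟩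
      have := congrArg (Sum.map Prod.fst id) k
      rcases x with ⟨a | b, j⟩ <;> rcases z with ⟨a' | b', j'⟩ <;> exact this
    · obtain rfl : (Sum.inl (a, i + 1), 2) = y := Sum.inl.inj h
      fin_cases i <;> exact ⟨rfl, by simp⟩
    · obtain rfl : (Sum.inl (a, i + 2), 1) = y := Sum.inl.inj h
      fin_cases i <;> exact ⟨rfl, by simp⟩
  h2 i := by rw [M.tc_up, M.h2]; rfl
  h3 x i h := by
    rcases up_cases x with ⟨x, rfl⟩ | ⟨a, i, rfl⟩ | ⟨a, i, rfl⟩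
    · rw [M.tc_up] at h
      rw [M.h3 x i]
      rcases e : M.c x with y | j <;> rw [e] at h <;> cases h
      rfl
    · cases h
    · cases h

/-- The values `a`, `b`, `c` extend to a triangle. -/
def TE [InvolutiveNeg A] (R : A → A → A → Prop) (a b c : A) : Prop :=
  ∃ x y z, R a x (-z) ∧ R b y (-x) ∧ R c z (-y)

theorem MP.tr_ext [InvolutiveNeg A] (M : MP (V ⊕ U) I) (R : A → A → A → Prop) (b : I → A) :
    M.tr.Ext (fun _ => R) b ↔ M.Ext (Sum.elim (fun _ => TE R) fun _ => R) b := by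
  constructor
  · rintro ⟨f, h1, h2, h3⟩
    refine ⟨fun x => f (up x), fun x y h => h1 _ _ ?_, ?_, h3⟩
    · show M.tc _ = _
      rw [M.tc_up, h]
      rfl
    · rintro (a | u)
      · refine ⟨f (.inl (a, 0), 1), f (.inl (a, 1), 1), f (.inl (a, 2), 1), ?_, ?_, ?_⟩
        · exact h1 (.inl (a, 2), 1) (.inl (a, 0), 2) rfl ▸ h2 (.inl (a, 0))
        · exact h1 (.inl (a, 0), 1) (.inl (a, 1), 2) rfl ▸ h2 (.inl (a, 1))
        · exact h1 (.inl (a, 1), 1) (.inl (a, 2), 2) rfl ▸ h2 (.inl (a, 2))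
      · exact h2 (.inr u)
  · rintro ⟨f, h1, h2, h3⟩
    choose x y z h using fun a => h2 (.inl a)
    let g : (V × Fin 3 ⊕ U) × Fin 3 → A := fun d => match d with
      | (.inl (a, i), j) => ![f (.inl a, i), ![x a, y a, z a] i, -![z a, x a, y a] i] j
      | (.inr u, j) => f (.inr u, j)
    have hg : ∀ d, g (up d) = f d := by rintro ⟨a | u, j⟩ <;> rfl
    refine ⟨g, fun d e k => ?_, ?_, fun i => (hg _).trans (h3 i)⟩
    · rcases up_cases d with ⟨d, rfl⟩ | ⟨a, i, rfl⟩ | ⟨a, i, rfl⟩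
      · obtain ⟨z, k', rfl⟩ := map_inl ((M.tc_up d).symm.trans k)
        rw [hg, hg, h1 _ _ k']
      · obtain rfl : (Sum.inl (a, i + 1), 2) = e := Sum.inl.inj k
        fin_cases i <;> rfl
      · obtain rfl : (Sum.inl (a, i + 2), 1) = e := Sum.inl.inj k
        fin_cases i <;> exact (neg_neg _).symm
    · rintro (⟨a, i⟩ | u)
      · fin_cases i
        exacts [(h a).1, (h a).2.1, (h a).2.2]
      · exact h2 (.inr u)

/-- The dart of a port of a copy, or of a free vertex. -/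
def MP.pt (M : MP V I) : K × I ⊕ C × Fin 3 → (K × V ⊕ C) × Fin 3
  | .inl (k, i) => (.inl (k, (M.o i).1), (M.o i).2)
  | .inr (u, j) => (.inr u, j)

/-- The partner of a dart when the ports are paired by `ε`. -/
def MP.am (M : MP V I) (ε : K × I ⊕ C × Fin 3 → K × I ⊕ C × Fin 3) :
    (K × V ⊕ C) × Fin 3 → (K × V ⊕ C) × Fin 3
  | (.inl (k, v), j) => (M.c (v, j)).elim (fun y => (.inl (k, y.1), y.2))
      fun i => M.pt (ε (.inl (k, i)))
  | (.inr u, j) => M.pt (ε (.inr (u, j)))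

theorem MP.am_pt (M : MP V I) (ε : K × I ⊕ C × Fin 3 → K × I ⊕ C × Fin 3) (x) :
    M.am ε (M.pt x) = M.pt (ε x) := by
  rcases x with ⟨k, i⟩ | ⟨u, j⟩
  · simp only [MP.pt, MP.am, Prod.mk.eta, M.h2, Sum.elim_inr]
  · rfl

theorem MP.am_inl (M : MP V I) (ε : K × I ⊕ C × Fin 3 → K × I ⊕ C × Fin 3) (k : K) {x y}
    (h : M.c x = .inl y) : M.am ε (.inl (k, x.1), x.2) = (.inl (k, y.1), y.2) := by
  simp only [MP.am, Prod.mk.eta, h, Sum.elim_inl]

theorem MP.am_cases (M : MP V I) (x : (K × V ⊕ C) × Fin 3) :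
    (∃ y, x = M.pt y) ∨ ∃ k y z, x = (.inl (k, y.1), y.2) ∧ M.c y = .inl z := by
  rcases x with ⟨⟨k, v⟩ | u, j⟩
  · rcases e : M.c (v, j) with y | i
    · exact .inr ⟨k, (v, j), y, rfl, e⟩
    · exact .inl ⟨.inl (k, i), by simp only [MP.pt, M.h3 _ _ e]⟩
  · exact .inl ⟨.inr (u, j), rfl⟩

/-- Copies of a multipole and free vertices, with all ports paired. -/
def MP.asm (M : MP V I) (ε : K × I ⊕ C × Fin 3 → K × I ⊕ C × Fin 3) (h1 : ∀ x, ε (ε x) = x)
    (h2 : ∀ x, (M.pt (ε x)).1 ≠ (M.pt x).1) : CG (K × V ⊕ C) where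
  μ := M.am ε
  inv x := by
    rcases M.am_cases x with ⟨y, rfl⟩ | ⟨k, y, z, rfl, h⟩
    · rw [M.am_pt, M.am_pt, h1]
    · rw [M.am_inl ε k h, M.am_inl ε k (M.h1 _ _ h).1]
  nl x := by
    rcases M.am_cases x with ⟨y, rfl⟩ | ⟨k, y, z, rfl, h⟩
    · rw [M.am_pt]
      exact h2 y
    · rw [M.am_inl ε k h]
      simpa using (M.h1 _ _ h).2

/-- Antisymmetric dart values with the relation `R` at every vertex. -/
def Sat [InvolutiveNeg A] (G : CG V) (R : A → A → A → Prop) (f : V × Fin 3 → A) : Prop :=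
  (∀ x, f (G.μ x) = -f x) ∧ ∀ v, R (f (v, 0)) (f (v, 1)) (f (v, 2))

section asm

variable [InvolutiveNeg A] {M : MP V I} {ε : K × I ⊕ C × Fin 3 → K × I ⊕ C × Fin 3} {h1 h2}
  {R : A → A → A → Prop}

theorem asm_down {f} (h : Sat (M.asm ε h1 h2) R f) : (∀ x, f (M.pt (ε x)) = -f (M.pt x)) ∧
    ∀ k, M.Ext (fun _ => R) fun i => f (M.pt (.inl (k, i))) :=
  ⟨fun x => M.am_pt ε x ▸ h.1 _, fun k => ⟨fun x => f (.inl (k, x.1), x.2),
    fun x _ e => (congrArg f (M.am_inl ε k e)).symm.trans (h.1 (.inl (k, x.1), x.2)),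
    fun v => h.2 (.inl (k, v)), fun _ => rfl⟩⟩

theorem asm_up {b : K × I ⊕ C × Fin 3 → A} (e1 : ∀ x, b (ε x) = -b x)
    (e2 : ∀ k, M.Ext (fun _ => R) fun i => b (.inl (k, i)))
    (e3 : ∀ u, R (b (.inr (u, 0))) (b (.inr (u, 1))) (b (.inr (u, 2)))) :
    ∃ f, Sat (M.asm ε h1 h2) R f ∧ ∀ x, f (M.pt x) = b x := by
  choose F k1 k2 k3 using e2
  let f : (K × V ⊕ C) × Fin 3 → A := fun d => match d with
    | (.inl (k, v), j) => F k (v, j)
    | (.inr u, j) => b (.inr (u, j))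
  have hf : ∀ x, f (M.pt x) = b x := by
    rintro (⟨k, i⟩ | ⟨u, j⟩)
    exacts [k3 k i, rfl]
  refine ⟨f, ⟨fun x => ?_, ?_⟩, hf⟩
  · show f (M.am ε x) = _
    rcases M.am_cases x with ⟨y, rfl⟩ | ⟨k, y, z, rfl, h⟩
    · rw [M.am_pt, hf, hf, e1]
    · rw [M.am_inl ε k h]
      exact k1 k _ _ h
  · rintro (⟨k, v⟩ | u)
    exacts [k2 k v, e3 u]

end asm

/-- The ports of a strip: three on the left, three on the right. -/
abbrev Pt := Bool × Fin 3

/-- The free ports at the two ends of a chain. -/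
def cp (n : ℕ) : Pt ⊕ C × Fin 3 → Fin (n + 1) × Pt ⊕ C × Fin 3
  | .inl (true, j) => .inl (Fin.last n, true, j)
  | .inl (false, j) => .inl (0, false, j)
  | .inr x => .inr x

/-- The pairing of the ports in a chain closed by `κ`. -/
def ce (n : ℕ) (κ : Pt ⊕ C × Fin 3 → Pt ⊕ C × Fin 3) :
    Fin (n + 1) × Pt ⊕ C × Fin 3 → Fin (n + 1) × Pt ⊕ C × Fin 3
  | .inl (k, true, j) => if h : k.val < n then .inl (⟨k.val + 1, by omega⟩, false, j)
      else cp n (κ (.inl (true, j)))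
  | .inl (k, false, j) => if h : 0 < k.val then .inl (⟨k.val - 1, by omega⟩, true, j)
      else cp n (κ (.inl (false, j)))
  | .inr x => cp n (κ (.inr x))

variable {n : ℕ} (κ : Pt ⊕ C × Fin 3 → Pt ⊕ C × Fin 3)

theorem ce_cp (x : Pt ⊕ C × Fin 3) : ce n κ (cp n x) = cp n (κ x) := by
  rcases x with ⟨_ | _, j⟩ | x <;> simp [ce, cp]

theorem ce_step (k : ℕ) (h : k < n) (j : Fin 3) :
    ce n κ (.inl (⟨k, by omega⟩, true, j)) = .inl (⟨k + 1, by omega⟩, false, j) ∧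
    ce n κ (.inl (⟨k + 1, by omega⟩, false, j)) = .inl (⟨k, by omega⟩, true, j) := by
  simp [ce, h]

theorem ce_cases (x : Fin (n + 1) × Pt ⊕ C × Fin 3) : (∃ y, x = cp n y) ∨ ∃ k, ∃ h : k < n, ∃ j,
    x = .inl (⟨k, by omega⟩, true, j) ∨ x = .inl (⟨k + 1, by omega⟩, false, j) := by
  rcases x with ⟨⟨k, h⟩, _ | _, j⟩ | x
  · rcases k with _ | k
    · exact .inl ⟨.inl (false, j), rfl⟩
    · exact .inr ⟨k, by omega, j, .inr rfl⟩
  · rcases Nat.lt_succ_iff_lt_or_eq.1 h with e | rfl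
    · exact .inr ⟨k, e, j, .inl rfl⟩
    · exact .inl ⟨.inl (true, j), rfl⟩
  · exact .inl ⟨.inr x, rfl⟩

/-- A chain of `n + 1` strips closed by free vertices. -/
def MP.chain (M : MP V Pt) (n : ℕ) (κ : Pt ⊕ C × Fin 3 → Pt ⊕ C × Fin 3) (h1 : ∀ x, κ (κ x) = x)
    (h2 : ∀ x, (κ x).map (fun i => (M.o i).1) Prod.fst ≠ x.map (fun i => (M.o i).1) Prod.fst) :
    CG (Fin (n + 1) × V ⊕ C) :=
  M.asm (ce n κ) (fun x => by
    rcases ce_cases x with ⟨y, rfl⟩ | ⟨k, h, j, rfl | rfl⟩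
    · rw [ce_cp, ce_cp, h1]
    · rw [(ce_step κ k h j).1, (ce_step κ k h j).2]
    · rw [(ce_step κ k h j).2, (ce_step κ k h j).1]) fun x => by
    rcases ce_cases x with ⟨y, rfl⟩ | ⟨k, h, j, rfl | rfl⟩
    · have e : ∀ y : Pt ⊕ C × Fin 3, (M.pt (cp n y)).1.map Prod.snd id =
          y.map (fun i => (M.o i).1) Prod.fst := by rintro (⟨_ | _, j⟩ | x) <;> rfl
      rw [ce_cp]
      exact fun k => h2 y (by rw [← e, ← e, k])
    · rw [(ce_step κ k h j).1]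
      simp [MP.pt]
    · rw [(ce_step κ k h j).2]
      simp [MP.pt]

/-- Port values from the values that run from left to right. -/
def pv [Neg A] (l r : Fin 3 → A) : Pt → A
  | (true, j) => r j
  | (false, j) => -l j

section chain

variable [InvolutiveNeg A] {M : MP V Pt} {κ} {h1 h2} {R : A → A → A → Prop}

theorem chain_down {f} (h : Sat (M.chain n κ h1 h2) R f) : ∃ s : ℕ → Fin 3 → A,
    (∀ k ≤ n, M.Ext (fun _ => R) (pv (s k) (s (k + 1)))) ∧
    ∀ y, Sum.elim (pv (s 0) (s (n + 1))) (fun x => f (.inr x.1, x.2)) (κ y) =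
      -Sum.elim (pv (s 0) (s (n + 1))) (fun x => f (.inr x.1, x.2)) y := by
  obtain ⟨e1, e2⟩ := asm_down h
  let s : ℕ → Fin 3 → A := fun k j => if h : k ≤ n then -f (M.pt (.inl (⟨k, by omega⟩, false, j)))
    else f (M.pt (.inl (Fin.last n, true, j)))
  have e : ∀ k (h : k ≤ n), pv (s k) (s (k + 1)) =
      fun i => f (M.pt (.inl (⟨k, by omega⟩, i))) := fun k h => by
    funext ⟨t, j⟩
    cases t
    · simp only [pv, s, dif_pos h, neg_neg]
    · rcases h.lt_or_eq with c | rfl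
      · simp only [pv, s, dif_pos (Nat.succ_le_of_lt c)]
        rw [← (ce_step κ k c j).1, e1, neg_neg]
      · simp only [pv, s, dif_neg (Nat.not_succ_le_self k)]
        rfl
  refine ⟨s, fun k h => e k h ▸ e2 _, fun y => ?_⟩
  have g : ∀ y, Sum.elim (pv (s 0) (s (n + 1))) (fun x => f (.inr x.1, x.2)) y =
      f (M.pt (cp n y)) := by
    rintro (⟨_ | _, j⟩ | x)
    · exact congrFun (e 0 (Nat.zero_le n)) (false, j)
    · exact congrFun (e n le_rfl) (true, j)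
    · rfl
  rw [g, g, ← ce_cp, e1]

theorem chain_up (s : ℕ → Fin 3 → A) (u : C × Fin 3 → A)
    (e1 : ∀ k ≤ n, M.Ext (fun _ => R) (pv (s k) (s (k + 1))))
    (e2 : ∀ y, Sum.elim (pv (s 0) (s (n + 1))) u (κ y) = -Sum.elim (pv (s 0) (s (n + 1))) u y)
    (e3 : ∀ w, R (u (w, 0)) (u (w, 1)) (u (w, 2))) :
    ∃ f, Sat (M.chain n κ h1 h2) R f ∧ ∀ x : C × Fin 3, f (.inr x.1, x.2) = u x := by
  let b : Fin (n + 1) × Pt ⊕ C × Fin 3 → A :=
    Sum.elim (fun x => pv (s x.1) (s (x.1 + 1)) x.2) u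
  have g : ∀ y, b (cp n y) = Sum.elim (pv (s 0) (s (n + 1))) u y := by
    rintro (⟨_ | _, j⟩ | x) <;> rfl
  obtain ⟨f, a, c⟩ := asm_up (M := M) (ε := ce n κ) (b := b) (R := R) (fun x => by
    rcases ce_cases x with ⟨y, rfl⟩ | ⟨k, h, j, rfl | rfl⟩
    · rw [ce_cp, g, g, e2]
    · rw [(ce_step κ k h j).1]
      rfl
    · rw [(ce_step κ k h j).2]
      exact (neg_neg _).symm) (fun k => e1 k (Nat.lt_succ_iff.1 k.2)) e3
  exact ⟨f, a, fun x => c (.inr x)⟩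

end chain

end Pool.Agent.Lib.MP_5c9ca0_co.W
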