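import Pool.Agent.Lib.MP_5c9ca0_co.W.Mod

/-! Flows through the modules that leak a small amount. -/

namespace Pool.Agent.Lib.MP_5c9ca0_co.W

/-- Values `(X, y)` that are admissible in the max norm and for which `2 X + y` is admissible. -/
def Gd (τ : ℝ) (x : ℝ × ℝ) : Prop :=
  (x.1 = 1 ∧ -1 ≤ x.2 ∧ x.2 ≤ 1 + τ) ∨ (x.1 = -1 ∧ -1 - τ ≤ x.2 ∧ x.2 ≤ 1) ∨
    (x.1 = 0 ∧ 1 ≤ x.2 ∧ x.2 ≤ 1 + τ) ∨ (x.1 = 0 ∧ -1 - τ ≤ x.2 ∧ x.2 ≤ -1)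

theorem Gd.p2 {τ : ℝ} (h0 : 0 ≤ τ) {x : ℝ × ℝ} (h : Gd τ x) : P2 (1 + τ) x := by
  simp only [P2, le_max_iff, max_le_iff, le_abs, abs_le]
  rcases h with h | h | h | h <;> grind

theorem Gd.p1 {τ : ℝ} {x : ℝ × ℝ} (h : Gd τ x) : P1 (3 + τ) (2 * x.1 + x.2) := by
  simp only [P1, le_abs, abs_le]
  rcases h with h | h | h | h <;> grind

/-- The integer data `(X, Y, g)`, which stand for `(X, Y + δ g)`. -/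
def gl : List (ℤ × ℤ × ℤ) :=
  [(1, -1, 0), (1, -1, 1), (1, 0, 0), (1, 0, 1), (1, 1, 0), (1, 1, 1), (0, 1, 0), (0, 1, 1),
    (-1, 1, 0), (-1, 1, -1), (-1, 0, 0), (-1, 0, -1), (-1, -1, 0), (-1, -1, -1), (0, -1, 0),
    (0, -1, -1)]

def ev (δ : ℝ) : ℤ × ℤ × ℤ →+ ℝ × ℝ where
  toFun v := (v.1, v.2.1 + δ * v.2.2)
  map_zero' := by simp
  map_add' v w := by
    ext <;> simp
    ring

theorem gd_ev {τ δ : ℝ} (h0 : 0 ≤ δ) (h1 : δ ≤ τ) : ∀ x ∈ gl, Gd τ (ev δ x) := by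
  simp only [gl, List.forall_mem_cons, Gd, ev, AddMonoidHom.coe_mk, ZeroHom.coe_mk]
  norm_num
  grind

/-- A triangle can be filled with integer data. -/
def TZ (a b c : ℤ × ℤ × ℤ) : Prop := a + b + c = 0 ∧ a ∈ gl ∧ b ∈ gl ∧ c ∈ gl ∧
  ∃ x ∈ gl, -x ∈ gl ∧ x - b ∈ gl ∧ -(x - b) ∈ gl ∧ x + a ∈ gl ∧ -(x + a) ∈ gl

instance (a b c : ℤ × ℤ × ℤ) : Decidable (TZ a b c) := by unfold TZ; infer_instance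

theorem iso_ev {τ δ : ℝ} (h0 : 0 ≤ δ) (h1 : δ ≤ τ) {s s' h k} (e : Iso TZ s s' h k) :
    Iso (TE (RF (Gd τ))) (ev δ s) (ev δ s') (ev δ h) (ev δ k) := by
  refine e.map (ev δ) (map_neg _) fun a b c ⟨e, ha, hb, hc, x, e1, e2, e3, e4, e5, e6⟩ => ?_
  have g := gd_ev h0 h1
  refine ⟨ev δ x, ev δ (x - b), ev δ (x + a), ?_⟩
  simp only [← map_neg, RF, ← map_add]
  refine ⟨⟨?_, g _ ha, g _ e1, g _ e6⟩, ⟨?_, g _ hb, g _ e3, g _ e2⟩, ?_, g _ hc, g _ e5,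
    g _ e4⟩ <;> rw [← map_zero (ev δ)] <;> congr 1
  · abel
  · abel
  · rw [← e]
    abel

theorem isoE : Iso TZ (-1, 0, 0) (-1, 0, -1) (0, 1, 0) (0, 1, 1) :=
  ⟨(-1, -1, 0), (0, -1, 0), (-1, -1, -1), (0, 1, 0), (-1, 0, 0), (1, 0, 1), (0, -1, 0), (-1, 1, 0),
    (-1, 0, 0), (-1, 1, 0), by decide +kernel⟩

theorem isoO : Iso TZ (-1, 1, 0) (-1, 1, 0) (0, 1, 0) (0, 1, 0) :=
  ⟨(0, 1, 0), (1, 1, 0), (0, 1, 0), (-1, 0, 0), (-1, 0, 0), (1, 0, 0), (1, 0, 0), (-1, 1, 0),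
    (0, 1, 0), (-1, 1, 0), by decide +kernel⟩

theorem isoC : Iso TZ (0, 1, 0) (0, 1, 1) (0, 1, 1) (0, 1, 0) :=
  ⟨(-1, 0, 0), (0, 1, 1), (1, 0, 1), (1, 1, 0), (-1, -1, -1), (-1, 1, 0), (1, -1, 0), (-1, 0, 0),
    (0, -1, 0), (1, 0, 0), by decide +kernel⟩

theorem md_mk {A : Type} [InvolutiveNeg A] {R : A → A → A → Prop} {l0 l1 l2 r0 r1 r2 : A}
    (s h k m g : A) (e : Iso (TE R) l2 s h k)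
    (u : R (-l0) m h ∧ R (-m) r0 (-k) ∧ R (-l1) r1 g ∧ R (-s) r2 (-g)) :
    Md false R ![l0, l1, l2] ![r0, r1, r2] ∧ Md true R ![l0, l1, l2] ![r0, r2, r1] :=
  ⟨⟨s, h, k, m, g, e, u⟩, ⟨s, h, k, m, g, e, u⟩⟩

variable {τ δ w y : ℝ}

theorem mdE (h0 : 0 ≤ δ) (h1 : δ ≤ τ) (w0 : 0 ≤ w) (w1 : w + δ ≤ 1 + τ) (y0 : δ ≤ y)
    (y1 : y ≤ 1 + τ) : Md false (RF (Gd τ)) ![(1, w), (1, y), (-1, 0)]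
      ![(1, w + δ), (1, y - 1 - δ), (-1, 1)] := by
  refine (md_mk (-1, -δ) (0, 1) (0, 1 + δ) (1, w - 1) (0, 1 + δ) (by
    simpa [ev] using iso_ev h0 h1 isoE) ?_).1
  simp only [RF, Gd, Prod.neg_mk, Prod.mk_add_mk, Prod.mk_eq_zero]
  refine ⟨⟨?_, ?_, ?_, ?_⟩, ⟨?_, ?_, ?_, ?_⟩, ⟨?_, ?_, ?_, ?_⟩, ?_, ?_, ?_, ?_⟩ <;> grind

theorem mdO (h1 : 0 ≤ τ) (w0 : 0 ≤ w) (w1 : w ≤ 1 + τ) (y0 : -1 ≤ y) (y1 : y ≤ τ) :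
    Md false (RF (Gd τ)) ![(1, w), (1, y), (-1, 1)] ![(1, w), (1, y + 1), (-1, 0)] := by
  refine (md_mk (-1, 1) (0, 1) (0, 1) (1, w - 1) (0, -1) (by
    simpa [ev] using iso_ev le_rfl h1 isoO) ?_).1
  simp only [RF, Gd, Prod.neg_mk, Prod.mk_add_mk, Prod.mk_eq_zero]
  refine ⟨⟨?_, ?_, ?_, ?_⟩, ⟨?_, ?_, ?_, ?_⟩, ⟨?_, ?_, ?_, ?_⟩, ?_, ?_, ?_, ?_⟩ <;> grind

theorem mdC (h0 : 0 ≤ δ) (h1 : δ ≤ τ) (w0 : δ ≤ w) (w1 : w ≤ 1 + τ) (y0 : -τ ≤ y)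
    (y1 : y + δ ≤ 1) : Md true (RF (Gd τ)) ![(1, w), (-1, y), (0, 1)]
      ![(1, w - δ), (-1, y + δ), (0, 1)] := by
  refine (md_mk (0, 1 + δ) (0, 1 + δ) (0, 1) (1, w - 1 - δ) (-1, y - 1) (by
    simpa [ev] using iso_ev h0 h1 isoC) ?_).2
  simp only [RF, Gd, Prod.neg_mk, Prod.mk_add_mk, Prod.mk_eq_zero]
  refine ⟨⟨?_, ?_, ?_, ?_⟩, ⟨?_, ?_, ?_, ?_⟩, ⟨?_, ?_, ?_, ?_⟩, ?_, ?_, ?_, ?_⟩ <;> grind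

end Pool.Agent.Lib.MP_5c9ca0_co.W
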