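import Pool.Agent.Lib.MP_5c9ca0_co.W.PoleDef
import Pool.Agent.Lib.MP_5c9ca0_co.W.Up

/-! The never-mid edge gadget exists. -/

namespace Pool.Agent.Lib.MP_5c9ca0_co.W

/-- The closure of the chain by two vertices. -/
def cap (b : Bool) : Pt ⊕ Fin 2 × Fin 3 → Pt ⊕ Fin 2 × Fin 3
  | .inl (false, j) => .inr (![(1, 1), (0, 1), (0, 2)] j)
  | .inl (true, j) => if b then .inr (![(1, 0), (0, 0), (1, 2)] j)
      else ![.inr (1, 0), .inl (true, 2), .inl (true, 1)] j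
  | .inr (u, j) => ![![if b then .inl (true, 1) else .inr (1, 2), .inl (false, 1), .inl (false, 2)],
      ![.inl (true, 0), .inl (false, 0), if b then .inl (true, 2) else .inr (0, 0)]] u j

/-- The closed chain of `2 m + 2` modules. -/
def WG (b : Bool) (m : ℕ) : CG (Fin (2 * m + 1 + 1) × (Fin 8 × Fin 3 ⊕ Fin 4) ⊕ Fin 2) :=
  (M0 b).tr.chain (2 * m + 1) (cap b) (by revert b; decide +kernel) (by revert b; decide +kernel)

theorem wg_low (b : Bool) (m : ℕ) {T : ℝ} {f} (h3 : 3 ≤ T) (h4 : T < 4) (hf : (WG b m).Fl f)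
    (hP : ∀ x, P1 T (f x)) : |f (.inr 0, 0)| ≤ T - 2 ∨ 3 ≤ |f (.inr 0, 0)| := by
  by_contra k
  rw [not_or, not_le, not_le] at k
  have hs := sat_iff.2 ⟨hf, hP⟩
  obtain ⟨s, e1, e2⟩ := chain_down hs
  obtain ⟨c1, c2, c3⟩ := split_cls h3 (hs.2 (.inr 0)) k.1 k.2
  have l1 : f (.inr 0, 1) = s 0 1 := (e2 (.inl (false, 1))).trans (neg_neg _)
  have l2 : f (.inr 0, 2) = s 0 2 := (e2 (.inl (false, 2))).trans (neg_neg _)
  rw [l1] at c1 c2 c3
  rw [l2] at c1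
  have st : ∀ i, i ≤ m + 1 → cls T (s (2 * i) 1) = cls T (s 0 1) ∧
      cls T (s (2 * i) 2) = cls T (s 0 1) := fun i => by
    induction i with
    | zero => exact fun _ => ⟨rfl, c1⟩
    | succ i ih =>
      intro hi
      have a := ih (by omega)
      have a := ((mod_ext _ _ _ _).1 (e1 (2 * i) (by omega))).low h3 h4 c2 a.1 a.2
      have a := ((mod_ext _ _ _ _).1 (e1 (2 * i + 1) (by omega))).low h3 h4 (neg_ne_zero.2 c2)
        a.1 a.2
      rwa [neg_neg] at a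
  obtain ⟨a1, a2⟩ := st _ le_rfl
  cases b
  · have e : s (2 * (m + 1)) 2 = -s (2 * (m + 1)) 1 := e2 (.inl (true, 1))
    rw [e, cls_neg h3, a1] at a2
    revert c2 a2
    generalize cls T (s 0 1) = c
    revert c
    decide
  · have e : f (.inr 0, 0) = -s (2 * (m + 1)) 1 := e2 (.inl (true, 1))
    rw [e, cls_neg h3, a1] at c3
    exact c3 rfl

theorem wg_upB (m : ℕ) {τ θ : ℝ} (h0 : 0 ≤ θ) (h1 : θ ≤ τ) (hm : 1 ≤ m * τ) :
    ∃ f, Sat (WG false m) (RF (Gd τ)) f ∧ f (.inr 0, 0) = (0, -(1 + θ)) := by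
  obtain ⟨δ, d0, d1⟩ : ∃ δ : ℝ, 0 ≤ δ ∧ (m + 1) * δ = 1 + θ :=
    ⟨(1 + θ) / (m + 1), by positivity, by field_simp⟩
  have m0 : (0 : ℝ) ≤ m := by positivity
  have d2 : δ ≤ τ := le_of_mul_le_mul_left (by linarith) (by linarith : (0 : ℝ) < m + 1)
  let s : ℕ → Fin 3 → ℝ × ℝ := fun k => ![(1, ((k + 1) / 2 : ℕ) * δ),
    (1, 1 + θ - ((k + 1) / 2 : ℕ) * δ - (k % 2 : ℕ)), (-1, (k % 2 : ℕ))]
  have s0 : ∀ i, s (2 * i) = ![(1, i * δ), (1, 1 + θ - i * δ), (-1, 0)] := fun i => by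
    simp only [s, show (2 * i + 1) / 2 = i by omega, Nat.mul_mod_right, Nat.cast_zero, sub_zero]
  have s1 : ∀ i, s (2 * i + 1) = ![(1, i * δ + δ), (1, 1 + θ - i * δ - 1 - δ), (-1, 1)] :=
    fun i => by
      simp only [s, show (2 * i + 1 + 1) / 2 = i + 1 by omega, show (2 * i + 1) % 2 = 1 by omega]
      push_cast
      ring_nf
  obtain ⟨f, a, c⟩ := chain_up (M := (M0 false).tr) (n := 2 * m + 1) (κ := cap false)
    (R := RF (Gd τ)) s (fun x => ![![(0, -(1 + θ)), (1, 1 + θ), (-1, 0)],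
      ![(-1, -(1 + θ)), (1, 0), (0, 1 + θ)]] x.1 x.2) (fun k hk => (mod_ext _ _ _ _).2 (by
      obtain ⟨i, rfl | rfl⟩ := Nat.even_or_odd' k
      all_goals
        have i0 : 0 ≤ i * δ := by positivity
        have i1 : i * δ ≤ m * δ :=
          mul_le_mul_of_nonneg_right (by exact_mod_cast (by omega : i ≤ m)) d0
      · rw [s0, s1]
        exact mdE d0 d2 i0 (by linarith) (by linarith) (by linarith)
      · rw [s1, show 2 * i + 1 + 1 = 2 * (i + 1) by ring, s0]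
        convert mdO (τ := τ) (w := i * δ + δ) (y := 1 + θ - i * δ - 1 - δ) (by linarith)
          (by linarith) (by linarith) (by linarith) (by linarith) using 4 <;> push_cast <;> ring))
    (by
      rw [show 2 * m + 1 + 1 = 2 * (m + 1) by ring, s0, show s 0 = _ from s0 0]
      rintro (⟨_ | _, j⟩ | ⟨u, j⟩)
      · fin_cases j <;> simp [cap, pv]
      · fin_cases j <;> simp [cap, pv, d1]
      · fin_cases u <;> fin_cases j <;> simp [cap, pv, d1])
    (fun w => by fin_cases w <;> simp [RF, Gd] <;> grind)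
  exact ⟨f, a, c (0, 0)⟩

theorem wg_upC (m : ℕ) {τ θ : ℝ} (h0 : 0 ≤ θ) (h1 : θ ≤ τ) (hm : 1 ≤ m * τ) :
    ∃ f, Sat (WG true m) (RF (Gd τ)) f ∧ f (.inr 0, 0) = (1, θ - 1) := by
  obtain ⟨δ, d0, d1⟩ : ∃ δ : ℝ, 0 ≤ δ ∧ (2 * m + 1 + 1) * δ = 1 :=
    ⟨1 / (2 * m + 1 + 1), by positivity, by field_simp⟩
  have m0 : (0 : ℝ) ≤ m := by positivity
  have d2 : δ ≤ τ :=
    le_of_mul_le_mul_left (by linarith) (by linarith : (0 : ℝ) < 2 * m + 1 + 1)
  obtain ⟨f, a, c⟩ := chain_up (M := (M0 true).tr) (n := 2 * m + 1) (κ := cap true)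
    (R := RF (Gd τ)) (fun k => ![(1, 1 - k * δ), (-1, -θ + k * δ), (0, 1)])
    (fun x => ![![(1, θ - 1), (-1, -θ), (0, 1)], ![(-1, 0), (1, 1), (0, -1)]] x.1 x.2)
    (fun k hk => (mod_ext _ _ _ _).2 (by
      have i0 : 0 ≤ k * δ := by positivity
      have i1 : k * δ ≤ (2 * m + 1) * δ := mul_le_mul_of_nonneg_right (by exact_mod_cast hk) d0
      rw [Nat.cast_succ, add_one_mul, ← sub_sub, ← add_assoc]
      exact mdC d0 d2 (by linarith) (by linarith) (by linarith) (by linarith)))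
    (by
      rintro (⟨_ | _, j⟩ | ⟨u, j⟩)
      · fin_cases j <;> simp [cap, pv]
      · fin_cases j <;> simp [cap, pv, d1]
        ring
      · fin_cases u <;> fin_cases j <;> simp [cap, pv, d1]
        ring)
    (fun w => by fin_cases w <;> simp [RF, Gd] <;> grind)
  exact ⟨f, a, c (0, 0)⟩

theorem exists_W (b : Bool) {t : ℝ} (ht : 0 < t) : Nonempty (Pole b t) := by
  obtain ⟨m, hm⟩ := exists_nat_ge (1 / t)
  rw [div_le_iff₀ ht] at hm
  let g : ℝ × ℝ →+ ℝ := (2 : ℕ) • AddMonoidHom.fst ℝ ℝ + AddMonoidHom.snd ℝ ℝ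
  have hg : ∀ x, g x = 2 * x.1 + x.2 := fun x => by simp [g]
  refine ⟨⟨_, inferInstance, WG b m, (.inr 0, 0), fun _ _ => wg_low b m, fun T θ k1 k2 k3 => ?_,
    ?_⟩⟩
  · have k : 1 ≤ m * (T - 3) :=
      hm.trans (mul_le_mul_of_nonneg_left (by linarith) (Nat.cast_nonneg m))
    have p : ∀ x, Gd (T - 3) x → P1 T (g x) := fun x h => by simpa [hg] using h.p1
    cases b
    · obtain ⟨f, a, c⟩ := wg_upB m k2 k3 k
      rw [sat_iff] at a
      exact ⟨_, a.1.map (-g), fun x => (p _ (a.2 x)).neg _, by simp [c, hg]⟩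
    · obtain ⟨f, a, c⟩ := wg_upC m k2 k3 k
      rw [sat_iff] at a
      exact ⟨_, a.1.map g, fun x => p _ (a.2 x), by simp only [c, hg]; ring⟩
  · cases b
    · obtain ⟨f, a, c⟩ := wg_upB m le_rfl ht.le hm
      rw [sat_iff] at a
      refine ⟨_, a.1.map (-(AddMonoidHom.snd ℝ ℝ).prod (AddMonoidHom.fst ℝ ℝ)), fun x => ?_,
        by simp [c]⟩
      simpa [P2, max_comm] using (a.2 x).p2 ht.le
    · obtain ⟨f, a, c⟩ := wg_upC m le_rfl ht.le hm
      rw [sat_iff] at a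
      refine ⟨_, a.1.map ((AddMonoidHom.fst ℝ ℝ).prod (-AddMonoidHom.snd ℝ ℝ)), fun x => ?_,
        by simp [c]⟩
      simpa [P2] using (a.2 x).p2 ht.le

end Pool.Agent.Lib.MP_5c9ca0_co.W
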