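import Pool.Agent.Lib.MP_5c9ca0_co.Dart

/-! The interface of the never-mid edge gadget. -/

namespace Pool.Agent.Lib.MP_5c9ca0_co.W

/-- A cubic graph with a marked dart `d` (cut its edge to get a 2-pole). For bounds below 4 the
value on `d` avoids the middle range; small values are attained; and there is a Chebyshev flow
with bound `1 + t` and value `(1, 0)` or `(1, 1)` on `d`. -/
structure Pole (b : Bool) (t : ℝ) where
  V : Type
  fin : Fintype V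
  G : CG V
  d : V × Fin 3
  low : ∀ (T : ℝ) (f : V × Fin 3 → ℝ), 3 ≤ T → T < 4 → G.Fl f → (∀ x, P1 T (f x)) →
    |f d| ≤ T - 2 ∨ 3 ≤ |f d|
  up : ∀ T θ : ℝ, 3 + t ≤ T → 0 ≤ θ → θ ≤ T - 3 →
    ∃ f : V × Fin 3 → ℝ, G.Fl f ∧ (∀ x, P1 T (f x)) ∧ f d = 1 + θ
  ch : ∃ f : V × Fin 3 → ℝ × ℝ, G.Fl f ∧ (∀ x, P2 (1 + t) (f x)) ∧
    f d = (1, if b then 1 else 0)

end Pool.Agent.Lib.MP_5c9ca0_co.W
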