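import Pool.Agent.Lib.MP_5c9ca0_co.Dart

/-! Insertion of a cut cubic graph into marked edges, and disjoint unions. -/

namespace Pool.Agent.Lib.MP_5c9ca0_co.W

open Finset

variable {V W : Type}

/-- An old dart. -/
def dl {E : Type} (x : V × Fin 3) : (V ⊕ E) × Fin 3 := (.inl x.1, x.2)

/-- A dart of an inserted copy. -/
def dr {E : Type} (e : E) (y : W × Fin 3) : (V ⊕ E × W) × Fin 3 := (.inr (e, y.1), y.2)

open Classical in
/-- The pairing of darts after the insertion. -/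
noncomputable def insMu (G : CG V) (Q : CG W) (d : W × Fin 3) (mk : V × Fin 3 → Prop) :
    (V ⊕ {x // mk x} × W) × Fin 3 → (V ⊕ {x // mk x} × W) × Fin 3
  | (.inl v, j) => if h : mk (v, j) then dr ⟨(v, j), h⟩ (Q.μ d)
      else if h : mk (G.μ (v, j)) then dr ⟨G.μ (v, j), h⟩ d else dl (G.μ (v, j))
  | (.inr (e, w), j) => if (w, j) = Q.μ d then dl e.1
      else if (w, j) = d then dl (G.μ e.1) else dr e (Q.μ (w, j))

section ins

variable {G : CG V} {Q : CG W} {d : W × Fin 3} {mk : V × Fin 3 → Prop}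

theorem mu_ne (Q : CG W) (d : W × Fin 3) : d ≠ Q.μ d := fun h => Q.nl d (congrArg Prod.fst h).symm

theorem ins1 {x} (h : mk x) : insMu G Q d mk (dl x) = dr ⟨x, h⟩ (Q.μ d) := by
  simp [insMu, dl, h]

theorem ins2 {x} (h : ¬ mk x) (k : mk (G.μ x)) : insMu G Q d mk (dl x) = dr ⟨G.μ x, k⟩ d := by
  simp [insMu, dl, h, k]

theorem ins3 {x} (h : ¬ mk x) (k : ¬ mk (G.μ x)) : insMu G Q d mk (dl x) = dl (G.μ x) := by
  simp [insMu, dl, h, k]

theorem ins4 (e) : insMu G Q d mk (dr e (Q.μ d)) = dl e.1 := by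
  simp [insMu, dr]

theorem ins5 (e) : insMu G Q d mk (dr e d) = dl (G.μ e.1) := by
  simp [insMu, dr, mu_ne Q d]

theorem ins6 (e) {y} (h : y ≠ Q.μ d) (k : y ≠ d) : insMu G Q d mk (dr e y) = dr e (Q.μ y) := by
  simp [insMu, dr, h, k]

theorem dart_cases {E : Type} {P : (V ⊕ E × W) × Fin 3 → Prop} (h : ∀ x, P (dl x))
    (k : ∀ e y, P (dr e y)) : ∀ z, P z := by
  rintro ⟨v | ⟨e, w⟩, j⟩
  exacts [h (v, j), k e (w, j)]

theorem mu_inj (Q : CG W) {x y} (h : Q.μ x = Q.μ y) : x = y := by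
  rw [← Q.inv x, h, Q.inv]

/-- A copy of `Q`, cut at the edge of `d`, is inserted into every marked edge of `G`. -/
noncomputable def ins (G : CG V) (Q : CG W) (d : W × Fin 3) (mk : V × Fin 3 → Prop)
    (hm : ∀ x, mk x → ¬ mk (G.μ x)) : CG (V ⊕ {x // mk x} × W) where
  μ := insMu G Q d mk
  inv := dart_cases (fun x => by
      by_cases h : mk x
      · rw [ins1 h, ins4]
      · by_cases k : mk (G.μ x)
        · rw [ins2 h k, ins5, G.inv]
        · rw [ins3 h k, ins3 k (by rwa [G.inv]), G.inv])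
    fun e y => by
      by_cases h : y = Q.μ d
      · rw [h, ins4, ins1 e.2]
      · by_cases k : y = d
        · rw [k, ins5, ins2 (hm _ e.2) (by rw [G.inv]; exact e.2)]
          simp only [G.inv]
        · rw [ins6 e h k, ins6 e (fun c => k (mu_inj Q c)) fun c => h (by rw [← c, Q.inv]), Q.inv]
  nl := dart_cases (fun x => by
      by_cases h : mk x
      · rw [ins1 h]; simp [dl, dr]
      · by_cases k : mk (G.μ x)
        · rw [ins2 h k]; simp [dl, dr]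
        · rw [ins3 h k]; simpa [dl] using G.nl x)
    fun e y => by
      by_cases h : y = Q.μ d
      · rw [h, ins4]; simp [dl, dr]
      · by_cases k : y = d
        · rw [k, ins5]; simp [dl, dr]
        · rw [ins6 e h k]; simpa [dr] using Q.nl y

variable {hm : ∀ x, mk x → ¬ mk (G.μ x)} {A : Type} [AddCommGroup A]

/-- The value `v` on the marked dart is possible. -/
def Cp (Q : CG W) (d : W × Fin 3) (P : A → Prop) (v : A) : Prop :=
  ∃ F, Q.Fl F ∧ (∀ y, P (F y)) ∧ F d = v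

theorem thru [Fintype W] {F : W × Fin 3 → A} (h1 : ∀ y, y ≠ Q.μ d → y ≠ d → F (Q.μ y) = -F y)
    (h2 : ∀ w, F (w, 0) + F (w, 1) + F (w, 2) = 0) : F (Q.μ d) = -F d := by
  classical
  have s : ∑ y, F y = 0 := by
    rw [Fintype.sum_prod_type]
    exact sum_eq_zero fun w _ => by rw [Fin.sum_univ_three, h2]
  have t : ∑ y ∈ (univ.erase d).erase (Q.μ d), F y = 0 := by
    refine sum_involution (fun y _ => Q.μ y) (fun y hy => ?_) (fun y _ _ => (mu_ne Q y).symm)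
      (fun y hy => ?_) fun y _ => Q.inv y
    · simp only [mem_erase] at hy
      rw [h1 y hy.1 hy.2.1, add_neg_cancel]
    · simp only [mem_erase, mem_univ, and_true] at hy ⊢
      exact ⟨fun c => hy.2 (mu_inj Q c), fun c => hy.1 (by rw [← c, Q.inv])⟩
  rw [← add_sum_erase _ _ (mem_univ d),
    ← add_sum_erase _ _ (mem_erase.2 ⟨(mu_ne Q d).symm, mem_univ _⟩), t, add_zero] at s
  exact eq_neg_of_add_eq_zero_right s

theorem ins_res [Fintype W] {g : _ → A} (h : (ins G Q d mk hm).Fl g) :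
    G.Fl (fun x => g (dl x)) ∧ ∀ x (k : mk x), Q.Fl (fun y => g (dr ⟨x, k⟩ y)) ∧
      g (dr ⟨x, k⟩ d) = g (dl x) := by
  have a : ∀ z, g (insMu G Q d mk z) = -g z := h.1
  have b : ∀ e, g (dr e (Q.μ d)) = -g (dr e d) := fun e =>
    thru (F := fun y => g (dr e y)) (fun y p q => by rw [← ins6 (G := G) e p q, a])
      fun w => h.2 (.inr (e, w))
  have c : ∀ x (k : mk x), g (dr ⟨x, k⟩ d) = g (dl x) := fun x k => by
    have := a (dl x)
    rwa [ins1 k, b, neg_inj] at this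
  have c' : ∀ x, mk x → g (dl (G.μ x)) = -g (dl x) := fun x k => by
    rw [← c x k, ← a, ins5]
  refine ⟨⟨fun x => ?_, fun v => h.2 (.inl v)⟩,
    fun x k => ⟨⟨fun y => ?_, fun w => h.2 (.inr (_, w))⟩, c x k⟩⟩
  · by_cases p : mk x
    · exact c' x p
    · by_cases q : mk (G.μ x)
      · have := c' _ q
        rw [G.inv] at this
        simp only [this, neg_neg]
      · simp only [← a, ins3 p q]
  · by_cases p : y = Q.μ d
    · simp only [p, Q.inv, b, neg_neg]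
    · by_cases q : y = d
      · simp only [q, b]
      · simp only [← a, ins6 _ p q]

theorem ins_down [Fintype W] {P : A → Prop} {g} (h : (ins G Q d mk hm).Fl g) (k : ∀ z, P (g z)) :
    G.Fl (fun x => g (dl x)) ∧ ∀ x, mk x → Cp Q d P (g (dl x)) :=
  ⟨(ins_res h).1, fun x c => ⟨_, ((ins_res h).2 x c).1, fun _ => k _, ((ins_res h).2 x c).2⟩⟩

theorem ins_up {P : A → Prop} {f} (h : G.Fl f) (k : ∀ x, P (f x))
    (c : ∀ x, mk x → Cp Q d P (f x)) :
    ∃ g, (ins G Q d mk hm).Fl g ∧ (∀ z, P (g z)) ∧ ∀ x, g (dl x) = f x := by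
  choose F h1 h2 h3 using c
  let g : (V ⊕ {x // mk x} × W) × Fin 3 → A := fun z =>
    z.1.elim (fun v => f (v, z.2)) fun e => F e.1.1 e.1.2 (e.2, z.2)
  have a : ∀ x, g (dl x) = f x := fun _ => rfl
  have b : ∀ e y, g (dr e y) = F e.1 e.2 y := fun _ _ => rfl
  refine ⟨g, ⟨dart_cases (fun x => ?_) fun e y => ?_, ?_⟩,
    dart_cases (fun x => k x) fun e y => h2 _ _ y, a⟩
  · show g (insMu G Q d mk (dl x)) = _
    by_cases p : mk x
    · rw [ins1 p, a, b, (h1 _ _).1, h3]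
    · by_cases q : mk (G.μ x)
      · rw [ins2 p q, a, b, h3, h.1]
      · rw [ins3 p q, a, a, h.1]
  · show g (insMu G Q d mk (dr e y)) = _
    by_cases p : y = Q.μ d
    · rw [p, ins4, a, b, (h1 _ _).1, h3, neg_neg]
    · by_cases q : y = d
      · rw [q, ins5, a, b, h3, h.1]
      · rw [ins6 e p q, b, b, (h1 _ _).1]
  · rintro (v | ⟨e, w⟩)
    exacts [h.2 v, (h1 _ _).2 w]

end ins

section two

variable {W' : Type} (G : CG V) (Q : CG W) (d : W × Fin 3) (Q' : CG W') (d' : W' × Fin 3)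
  (mk mk' : V × Fin 3 → Prop)

/-- The second kind of marks, after the first insertion. -/
def mk2 {E : Type} (z : (V ⊕ E) × Fin 3) : Prop := ∃ x, z = dl x ∧ mk' x

theorem dl_inj {E : Type} {x y : V × Fin 3} (h : (dl x : (V ⊕ E) × Fin 3) = dl y) : x = y := by
  simp only [dl, Prod.mk.injEq, Sum.inl.injEq] at h
  exact Prod.ext h.1 h.2

/-- Two kinds of marked edges, two inserted graphs. -/
theorem exists_ins2 [Fintype V] [Fintype W] [Fintype W'] (hm : ∀ x, mk x → ¬ mk (G.μ x))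
    (hm' : ∀ x, mk' x → ¬ mk x ∧ ¬ mk (G.μ x) ∧ ¬ mk' (G.μ x)) :
    ∃ (U : Type) (_ : Fintype U) (H : CG U), ∀ (A : Type) [AddCommGroup A] (P : A → Prop),
      (∃ g, H.Fl g ∧ ∀ z, P (g z)) ↔ ∃ f, G.Fl f ∧ (∀ x, P (f x)) ∧
        (∀ x, mk x → Cp Q d P (f x)) ∧ ∀ x, mk' x → Cp Q' d' P (f x) := by
  classical
  have h2 : ∀ z, mk2 mk' z → ¬ mk2 mk' ((ins G Q d mk hm).μ z) := by
    rintro _ ⟨x, rfl, k⟩ ⟨y, e, c⟩
    obtain ⟨a, b, c'⟩ := hm' x k
    have e' : insMu G Q d mk (dl x) = dl y := e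
    rw [ins3 a b] at e'
    exact c' (dl_inj e' ▸ c)
  refine ⟨_, inferInstance, ins (ins G Q d mk hm) Q' d' (mk2 mk') h2, fun A _ P => ⟨?_, ?_⟩⟩
  · rintro ⟨g, a, b⟩
    obtain ⟨a1, a2⟩ := ins_down a b
    obtain ⟨a3, a4⟩ := ins_down (P := P) a1 fun _ => b _
    exact ⟨_, a3, fun _ => b _, a4, fun x k => a2 _ ⟨x, rfl, k⟩⟩
  · rintro ⟨f, a, b, c, e⟩
    obtain ⟨g, a1, a2, a3⟩ := ins_up (hm := hm) a b c
    obtain ⟨g', a4, a5, -⟩ := ins_up (Q := Q') (d := d') (hm := h2) a1 a2 (by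
      rintro _ ⟨x, rfl, k⟩
      exact a3 x ▸ e x k)
    exact ⟨g', a4, a5⟩

end two

/-- The disjoint union. -/
def uni (G : CG V) (H : CG W) : CG (V ⊕ W) where
  μ z := z.1.elim (fun v => (.inl (G.μ (v, z.2)).1, (G.μ (v, z.2)).2))
    fun w => (.inr (H.μ (w, z.2)).1, (H.μ (w, z.2)).2)
  inv := by rintro ⟨v | w, j⟩ <;> simp [G.inv, H.inv]
  nl := by
    rintro ⟨v | w, j⟩
    · simpa using G.nl (v, j)
    · simpa using H.nl (w, j)

theorem uni_iff (G : CG V) (H : CG W) {A : Type} [AddCommGroup A] (P : A → Prop) :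
    (∃ g, (uni G H).Fl g ∧ ∀ z, P (g z)) ↔
      (∃ f, G.Fl f ∧ ∀ x, P (f x)) ∧ ∃ f, H.Fl f ∧ ∀ x, P (f x) := by
  constructor
  · rintro ⟨g, a, b⟩
    exact ⟨⟨fun x => g (.inl x.1, x.2), ⟨fun x => a.1 (.inl x.1, x.2), fun v => a.2 (.inl v)⟩,
      fun _ => b _⟩, fun x => g (.inr x.1, x.2), ⟨fun x => a.1 (.inr x.1, x.2),
      fun v => a.2 (.inr v)⟩, fun _ => b _⟩
  · rintro ⟨⟨f, a, b⟩, f', a', b'⟩
    refine ⟨fun z => z.1.elim (fun v => f (v, z.2)) fun w => f' (w, z.2), ⟨?_, ?_⟩, ?_⟩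
    · rintro ⟨v | w, j⟩
      exacts [a.1 (v, j), a'.1 (w, j)]
    · rintro (v | w)
      exacts [a.2 v, a'.2 w]
    · rintro ⟨v | w, j⟩
      exacts [b _, b' _]

end Pool.Agent.Lib.MP_5c9ca0_co.W
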