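import Pool.Agent.Lib.MP_5c9ca0_co.W.Tune2

/-! Systems of cycles joined by links of three kinds, with marked darts in the ladders. -/

namespace Pool.Agent.Lib.MP_5c9ca0_co.W

/-- Stations `L` on cycles of `p`; link `l` joins station `l` of a first copy and station `lam l`
of a second copy. A cycle has parameters `m`, `b` and rotates the code `c`. -/
structure Sy (L : Type) (d : ℝ) where
  p : Equiv.Perm L
  lam : Equiv.Perm L
  m : L → ℕ
  b : L → ℕ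
  c : L → ℕ
  hm : ∀ l, m (p l) = m l
  hb : ∀ l, b (p l) = b l
  hc : ∀ l, c (p l) = if c l < m l then c l + b l else c l - m l
  lt : ∀ l, c l < m l + b l
  pos : ∀ l, 0 < m l
  two : ∀ l, m l ≤ b l
  le : ∀ l, (m l : ℝ) ≤ d * b l
  ho : ∀ l, c l < m l → c (lam l) < m (lam l)
  hz : ∀ l, ¬ c l < m l → m (lam l) = m l ∧ b (lam l) = b l ∧ c (lam l) = c l

variable {L : Type} {d : ℝ} (S : Sy L d)

/-- The kind of a link. -/
def Sy.s (l : L) : Fin 3 := if S.c l < S.m l then 0 else if S.b l ≤ S.c l then 1 else 2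

theorem Sy.s_zero (l : L) : S.s l = 0 ↔ S.c l < S.m l := by
  unfold Sy.s
  split_ifs <;> simp [*]

theorem Sy.s_lam (l : L) : S.s (S.lam l) = S.s l := by
  by_cases h : S.c l < S.m l
  · rw [(S.s_zero l).2 h, (S.s_zero _).2 (S.ho l h)]
  · obtain ⟨a, b, c⟩ := S.hz l h
    simp only [Sy.s, a, b, c]

theorem Sy.s_nx (l : L) : S.s l = 0 ↔ S.s (S.p l) = 1 := by
  have a := S.lt l
  have b := S.two l
  have c := S.pos l
  simp only [Sy.s, S.hm, S.hb, S.hc]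
  split_ifs <;> first | decide | omega

/-- The succession of the links along the cycles of the second copy. -/
def Sy.q : Equiv.Perm L := S.lam.trans (S.p.trans S.lam.symm)

theorem Sy.lam_q (l : L) : S.lam (S.q l) = S.p (S.lam l) := by simp [Sy.q]

/-- The links, glued along the cycles. -/
def Sy.K : Glue L (Fin 12) where
  c l := lk (S.s l)
  ε x := if x.2 = (8, 0) then (S.p.symm x.1, 9, 1) else if x.2 = (9, 1) then (S.p x.1, 8, 0)
    else if x.2 = (10, 0) then (S.q.symm x.1, 11, 1) else (S.q x.1, 10, 0)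
  h1 _ := lk_inv _
  h2 _ := lk_ne _
  h3 l y h := by
    rcases (lk_fix _ y).1 h with rfl | rfl | rfl | rfl <;> simp [lk_fix]

theorem Sy.fl_iff {A : Type} [AddCommGroup A] (F : L → Fin 12 × Fin 3 → A) :
    S.K.G.Fl (fun x => F x.1.1 (x.1.2, x.2)) ↔ (∀ l, Lc (lk (S.s l)) (F l)) ∧
      (∀ l, F (S.p l) (8, 0) = -F l (9, 1)) ∧ ∀ l, F (S.q l) (10, 0) = -F l (11, 1) := by
  rw [Glue.fl_iff]
  refine and_congr_right fun _ => ⟨fun h => ⟨fun l => ?_, fun l => ?_⟩, fun h l y k => ?_⟩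
  · simpa [Sy.K] using h l (9, 1) ((lk_fix _ _).2 (by simp))
  · simpa [Sy.K] using h l (11, 1) ((lk_fix _ _).2 (by simp))
  · rcases (lk_fix _ y).1 k with rfl | rfl | rfl | rfl
    · simpa [Sy.K, neg_eq_iff_eq_neg, eq_comm] using h.1 (S.p.symm l)
    · simpa [Sy.K] using h.1 l
    · simpa [Sy.K, neg_eq_iff_eq_neg, eq_comm] using h.2 (S.q.symm l)
    · simpa [Sy.K] using h.2 l

/-- The marked darts of the first kind. -/
def Sy.m1 (x : (L × Fin 12) × Fin 3) : Prop :=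
  S.s x.1.1 = 1 ∧ ((x.1.2, x.2) = (0, 0) ∨ (x.1.2, x.2) = (1, 2))

/-- The marked darts of the second kind. -/
def Sy.m2 (x : (L × Fin 12) × Fin 3) : Prop := S.s x.1.1 = 1 ∧ (x.1.2, x.2) = (9, 2)

theorem Sy.mu_in {l : L} (h : S.s l = 1) {y z : Fin 12 × Fin 3} (k : lk 1 y = z ∧ z ≠ y) :
    S.K.G.μ ((l, y.1), y.2) = ((l, z.1), z.2) := by
  have e : S.K.c l y = z := by rw [← k.1, ← h]; rfl
  simp only [Glue.G, Prod.mk.eta, e, if_neg k.2]

theorem Sy.hm1 (x) (h : S.m1 x) : ¬ S.m1 (S.K.G.μ x) := by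
  obtain ⟨⟨l, v⟩, j⟩ := x
  obtain ⟨a, b | b⟩ := h <;> obtain ⟨rfl, rfl⟩ := Prod.mk.inj b
  · rw [S.mu_in (y := (0, 0)) (z := (8, 2)) a (by decide)]
    simp [Sy.m1]
  · rw [S.mu_in (y := (1, 2)) (z := (0, 2)) a (by decide)]
    simp [Sy.m1]

theorem Sy.hm2 (x) (h : S.m2 x) : ¬ S.m1 x ∧ ¬ S.m1 (S.K.G.μ x) ∧ ¬ S.m2 (S.K.G.μ x) := by
  obtain ⟨⟨l, v⟩, j⟩ := x
  obtain ⟨a, b⟩ := h
  obtain ⟨rfl, rfl⟩ := Prod.mk.inj b
  rw [S.mu_in (y := (9, 2)) (z := (1, 0)) a (by decide)]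
  simp [Sy.m1, Sy.m2]

/-- A flow with values in `P`, and in `C`, `D` on the marked darts. -/
def Sy.Gd {A : Type} [AddCommGroup A] (P C D : A → Prop) : Prop :=
  ∃ f, S.K.G.Fl f ∧ (∀ x, P (f x)) ∧ (∀ x, S.m1 x → C (f x)) ∧ ∀ x, S.m2 x → D (f x)

theorem Sy.up2 {T : ℝ} (hT : 1 ≤ T) {C D : ℝ × ℝ → Prop} (c1 : C (1, 0)) (c2 : C (0, 1))
    (c3 : D (1, 1)) : S.Gd (P2 T) C D := by
  let g : ℤ × ℤ →+ ℝ × ℝ := (Int.castAddHom ℝ).prodMap (Int.castAddHom ℝ)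
  have h := (S.fl_iff fun l y => tb (S.s l) y.1 y.2).2 ⟨fun l => tb_lc _,
    fun l => (tb_nx _ _ (S.s_nx l)).1, fun l => by
      have := S.s_nx (S.lam l)
      rw [← S.lam_q, S.s_lam, S.s_lam] at this
      exact (tb_nx _ _ this).2⟩
  refine ⟨_, h.map g, fun x => ?_, ?_, ?_⟩
  · have := tb_bd (S.s x.1.1) x.1.2 x.2
    generalize tb _ _ _ = v at this
    have e : max |(v.1 : ℝ)| |(v.2 : ℝ)| = 1 := by exact_mod_cast this
    exact ⟨e.ge, e.le.trans hT⟩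
  · rintro ⟨⟨l, v⟩, j⟩ ⟨a, b | b⟩ <;> obtain ⟨rfl, rfl⟩ := Prod.mk.inj b <;>
      simp only at a ⊢ <;> rw [a]
    · simpa [g, tb] using c1
    · simpa [g, tb] using c2
  · rintro ⟨⟨l, v⟩, j⟩ ⟨a, b⟩
    obtain ⟨rfl, rfl⟩ := Prod.mk.inj b
    simp only at a ⊢
    rw [a]
    simpa [g, tb] using c3

theorem fin3 : ∀ s : Fin 3, s ≠ 0 → s ≠ 1 → s = 2 := by decide

theorem Sy.up1 {C D : ℝ → Prop} (c1 : C 1) (c2 : C (-1)) (c3 : ∀ θ, 0 ≤ θ → θ ≤ d → D (1 + θ)) :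
    S.Gd (P1 (3 + d)) C D := by
  let a : L → ℝ := fun l => 1 + S.c l / S.b l
  let θ : L → ℝ := fun l => S.m l / S.b l
  have hb : ∀ l, (0 : ℝ) < S.b l := fun l => by
    have := S.two l
    have := S.pos l
    exact_mod_cast (by omega : 0 < S.b l)
  have t0 : ∀ l, 0 ≤ θ l ∧ θ l ≤ d := fun l =>
    ⟨by positivity, (div_le_iff₀ (hb l)).2 (S.le l)⟩
  have a1 : ∀ l, S.c l < S.m l → a (S.p l) = a l + 1 ∧ 1 ≤ a l ∧ a l ≤ 1 + d := fun l h => by
    have k : (S.c l : ℝ) / S.b l ≤ θ l :=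
      div_le_div_of_nonneg_right (by exact_mod_cast h.le) (hb l).le
    have k2 : (0 : ℝ) ≤ S.c l / S.b l := by positivity
    refine ⟨?_, by simp only [a]; linarith, by simp only [a]; linarith [(t0 l).2]⟩
    simp only [a, S.hb, S.hc, if_pos h]
    rw [Nat.cast_add, add_div, div_self (hb l).ne', add_assoc]
  have a2 : ∀ l, ¬ S.c l < S.m l → a (S.p l) = a l - θ l ∧ 1 + θ l ≤ a l ∧ a l ≤ 2 + d :=
    fun l h => by
      have k : θ l ≤ (S.c l : ℝ) / S.b l :=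
        div_le_div_of_nonneg_right (by exact_mod_cast not_lt.1 h) (hb l).le
      have k2 : (S.c l : ℝ) / S.b l ≤ (S.m l + S.b l) / S.b l :=
        div_le_div_of_nonneg_right (by exact_mod_cast (S.lt l).le) (hb l).le
      rw [add_div, div_self (hb l).ne'] at k2
      refine ⟨?_, by simp only [a]; linarith, by simp only [a]; linarith [(t0 l).2]⟩
      simp only [a, θ, S.hb, S.hc, if_neg h]
      rw [Nat.cast_sub (not_lt.1 h), sub_div, add_sub_assoc]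
  have a3 : ∀ l, ¬ S.c l < S.m l → ¬ S.c (S.lam l) < S.m (S.lam l) ∧ θ (S.lam l) = θ l :=
    fun l h => by
      obtain ⟨e1, e2, e3⟩ := S.hz l h
      simp only [θ, e1, e2, e3, h, not_false_eq_true, and_self]
  let F : L → Fin 12 × Fin 3 → ℝ := fun l =>
    if S.c l < S.m l then of (a l) (a (S.lam l)) else
      if S.s l = 1 then mf (θ l) (a l) (a (S.lam l)) else zf (θ l) (a l) (a (S.lam l))
  have f1 : ∀ l, F l (8, 0) = -a l ∧ F l (10, 0) = a (S.lam l) := fun l => by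
    simp only [F]
    split_ifs <;> exact ⟨rfl, rfl⟩
  have f2 : ∀ l, F l (9, 1) = a (S.p l) ∧ F l (11, 1) = -a (S.p (S.lam l)) := fun l => by
    simp only [F]
    split_ifs with h
    · rw [(a1 l h).1, (a1 _ (S.ho l h)).1]
      exact ⟨rfl, rfl⟩
    all_goals
      rw [(a2 l h).1, (a2 _ (a3 l h).1).1, (a3 l h).2]
      exact ⟨rfl, rfl⟩
  have f3 : ∀ l y, P1 (3 + d) (F l y) := fun l => by
    simp only [F]
    split_ifs with h
    · exact (of_bd (a1 l h).2.1 (a1 l h).2.2 (a1 _ (S.ho l h)).2.1 (a1 _ (S.ho l h)).2.2).1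
    · exact mf_bd (t0 l).1 (t0 l).2 (a2 l h).2.1 (a2 l h).2.2
        ((a3 l h).2 ▸ (a2 _ (a3 l h).1).2.1) (a2 _ (a3 l h).1).2.2
    · exact (zf_bd (t0 l).1 (t0 l).2 (a2 l h).2.1 (a2 l h).2.2
        ((a3 l h).2 ▸ (a2 _ (a3 l h).1).2.1) (a2 _ (a3 l h).1).2.2).1
  have f5 : ∀ l, S.s l = 1 → F l = mf (θ l) (a l) (a (S.lam l)) := fun l h => by
    simp only [F]
    rw [if_neg ((S.s_zero l).not.1 (by rw [h]; decide)), if_pos h]
  have f4 : S.K.G.Fl fun x => F x.1.1 (x.1.2, x.2) := by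
    refine (S.fl_iff F).2 ⟨fun l => ?_, fun l => by rw [(f1 _).1, (f2 _).1],
      fun l => by rw [(f1 _).2, (f2 _).2, neg_neg, S.lam_q]⟩
    simp only [F]
    split_ifs with h k
    · rw [(S.s_zero l).2 h, lk_zero]
      exact of_lc _ _
    · rw [k]
      exact mf_lc _ _ _
    · rw [fin3 _ ((S.s_zero l).not.2 h) k, lk_two]
      exact zf_lc _ _ _
  refine ⟨_, f4, fun x => f3 _ _, ?_, ?_⟩
  · rintro ⟨⟨l, v⟩, j⟩ ⟨h, k | k⟩ <;> simp only at h k ⊢ <;> rw [k, f5 l h]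
    exacts [c1, c2]
  · rintro ⟨⟨l, v⟩, j⟩ ⟨h, k⟩
    simp only at h k ⊢
    rw [k, f5 l h]
    exact c3 _ (t0 l).1 (t0 l).2

theorem Sy.low {T : ℝ} (h3 : 3 ≤ T) (h4 : T < 4) {C D : ℝ → Prop}
    (hC : ∀ x, C x → |x| ≤ T - 2 ∨ 3 ≤ |x|) (hD : ∀ x, D x → |x| ≤ T - 2 ∨ 3 ≤ |x|)
    (h : S.Gd (P1 T) C D) : ∃ W U : L → ℝ, ∀ l,
      (¬ S.c l < S.m l → |W (S.p l) - W l| ≤ T - 3 ∧
        U (S.p (S.lam l)) - U (S.lam l) = -(W (S.p l) - W l)) ∧
      (S.c l < S.m l → 1 ≤ |W (S.p l) - W l| ∧ 1 ≤ |U (S.p (S.lam l)) - U (S.lam l)| ∧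
        (|U (S.p (S.lam l)) - U (S.lam l)| < 2 →
          U (S.p (S.lam l)) - U (S.lam l) = -(W (S.p l) - W l))) := by
  obtain ⟨f, h, k, kC, kD⟩ := h
  let F : L → Fin 12 × Fin 3 → ℝ := fun l y => f ((l, y.1), y.2)
  obtain ⟨g1, g2, g3⟩ := (S.fl_iff F).1 h
  have k' : ∀ l y, P1 T (F l y) := fun l y => k _
  have h1 : ∀ l, ¬ S.c l < S.m l → ∃ z : ℝ, ∃ n : ℤ, |z - n * (T + 1)| ≤ T - 3 ∧
      F l (8, 0) - F (S.p l) (8, 0) = -z ∧ F l (10, 0) - F (S.q l) (10, 0) = z := fun l c => by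
    have e := g1 l
    by_cases c' : S.s l = 1
    · rw [c'] at e
      obtain ⟨e1, e2, e3, e4⟩ := lm_eq e
      obtain ⟨n, hn⟩ := m_cap h4 (k' l (9, 2)) (k' l (0, 0)) (k' l (1, 2))
        (hD _ (kD ((l, 9), 2) ⟨c', rfl⟩)) (hC _ (kC ((l, 0), 0) ⟨c', .inl rfl⟩))
        (hC _ (kC ((l, 1), 2) ⟨c', .inr rfl⟩)) (e1 ▸ k' l _) (e2 ▸ k' l _)
      exact ⟨_, n, hn, by linear_combination e3 - g2 l, by linear_combination e4 - g3 l⟩
    · rw [fin3 _ ((S.s_zero l).not.2 c) c', lk_two] at e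
      obtain ⟨z, e3, e4⟩ := lz_eq e
      obtain ⟨n, hn⟩ := cap2 h3 h4 (x := fun e => F l (ze e)) z fun i => k' l _
      exact ⟨_, n, hn, by linear_combination e3 - g2 l, by linear_combination e4 - g3 l⟩
  have h2 : ∀ l, S.c l < S.m l → F l (8, 0) - F (S.p l) (8, 0) = F l (2, 0) ∧
      F l (10, 0) - F (S.q l) (10, 0) = -F l (2, 0) := fun l c => by
    have e := g1 l
    rw [(S.s_zero l).2 c, lk_zero] at e
    have := lo_eq e
    exact ⟨by linear_combination this.1 - g2 l, by linear_combination this.2 - g3 l⟩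
  choose W i hW using fun l => rep (k' l (8, 0))
  choose U j hU using fun l => rep (k' l (10, 0))
  refine ⟨W, fun l => U (S.lam.symm l), fun l => ?_⟩
  simp only [← S.lam_q, Equiv.symm_apply_apply]
  obtain ⟨w1, w2, w3⟩ := hW l
  obtain ⟨w4, w5, w6⟩ := hW (S.p l)
  obtain ⟨u1, u2, u3⟩ := hU l
  obtain ⟨u4, u5, u6⟩ := hU (S.q l)
  refine ⟨fun c => ?_, fun c => ?_⟩
  · obtain ⟨z, n, hn, e1, e2⟩ := h1 l c
    have b := abs_le.1 hn
    have x1 := zero_of_abs (e := W (S.p l) - W l + (z - n * (T + 1)))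
      (r := T + 1) (j := i (S.p l) - i l - n) (by push_cast; linarith)
      (abs_lt.2 ⟨by linarith [b.1], by linarith [b.2]⟩)
    have x2 := zero_of_abs (e := U (S.q l) - U l - (z - n * (T + 1)))
      (r := T + 1) (j := j (S.q l) - j l + n) (by push_cast; linarith)
      (abs_lt.2 ⟨by linarith [b.2], by linarith [b.1]⟩)
    exact ⟨abs_le.2 ⟨by linarith [b.2], by linarith [b.1]⟩, by linarith⟩
  · obtain ⟨e1, e2⟩ := h2 l c
    have o := k' l (2, 0)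
    have x1 : F l (2, 0) = W (S.p l) - W l + (i l - i (S.p l) : ℤ) * (T + 1) := by
      push_cast
      linarith
    have x2 : -F l (2, 0) = U (S.q l) - U l + (j l - j (S.q l) : ℤ) * (T + 1) := by
      push_cast
      linarith
    have o' := o.neg _
    refine ⟨one_le_abs (x1 ▸ o.1) (x1 ▸ o.2.trans (by linarith)),
      one_le_abs (x2 ▸ o'.1) (x2 ▸ o'.2.trans (by linarith)), fun b => ?_⟩
    rw [abs_lt] at b
    have := zero_of_abs (e := U (S.q l) - U l + (W (S.p l) - W l)) (r := T + 1)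
      (j := j (S.q l) - j l + (i (S.p l) - i l)) (by push_cast; linarith)
      (abs_lt.2 ⟨by linarith [b.1], by linarith [b.2]⟩)
    linarith

end Pool.Agent.Lib.MP_5c9ca0_co.W
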