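import Pool.Agent.Lib.MP_5c9ca0_co.Fam
import Pool.Agent.Lib.MP_5c9ca0_co.W.PoleDef
import Pool.Agent.Lib.MP_5c9ca0_co.W.Tune1
import Pool.Agent.Lib.MP_5c9ca0_co.W.Tune3

/-! Cubic graphs with prescribed circular flow number in `(4, 5]` and small Chebyshev bound. -/

namespace Pool.Agent.Lib.MP_5c9ca0_co.W

open Finset

/-- The system with `m` unit links and `b` small links on the long cycles. -/
def fm (m b k : ℕ) (d : ℝ) (h0 : 0 < m) (h1 : m ≤ b) (h2 : 0 < k) (h3 : (m : ℝ) ≤ d * b)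
    (h4 : 1 ≤ d * (k + k)) : Sy (St m b k) d where
  p := Equiv.sumCongr (pP m b) (Equiv.prodCongr (Equiv.refl _) (pU k))
  lam := ⟨lamF (finRotate m), lamF (finRotate m).symm, lamF_inv (finRotate m).symm_apply_apply,
    lamF_inv (finRotate m).apply_symm_apply⟩
  m := Sum.elim (fun _ => m) fun _ => 1
  b := Sum.elim (fun _ => b) fun _ => k + k
  c := Sum.elim (fun x => (finSumFinEquiv x).val) fun y => (eU k y.2).val
  hm := by rintro (x | y) <;> rfl
  hb := by rintro (x | y) <;> rfl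
  hc := by rintro (x | y) <;> simp [pP, pU, rot]
  lt := by rintro (x | y) <;> exact Fin.isLt _
  pos := by rintro (x | y) <;> simp [h0]
  two := by rintro (x | y) <;> simp <;> omega
  le := by rintro (x | y) <;> simpa
  ho := by rintro ((j | i) | ⟨j, i | i | i⟩) <;> simp [lamF, eU]
  hz := by rintro ((j | i) | ⟨j, i | i | i⟩) <;> simp [lamF, eU]

variable {m b k : ℕ} {d : ℝ} {h0 : 0 < m} {h1 : m ≤ b} {h2 : 0 < k} {h3 : (m : ℝ) ≤ d * b}
  {h4 : 1 ≤ d * (k + k)}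

theorem fm_low {T : ℝ} (t3 : 3 ≤ T) (t4 : T < 4) (hk : k * (T - 3) < 1) {C D : ℝ → Prop}
    (hC : ∀ x, C x → |x| ≤ T - 2 ∨ 3 ≤ |x|) (hD : ∀ x, D x → |x| ≤ T - 2 ∨ 3 ≤ |x|)
    (hf : (fm m b k d h0 h1 h2 h3 h4).Gd (P1 T) C D) : m ≤ b * (T - 3) := by
  obtain ⟨W, U, h⟩ := Sy.low _ t3 t4 hC hD hf
  let D : Fin m → Us k → ℝ := fun j y => W (.inr (j, pU k y)) - W (.inr (j, y))
  let E : Fin m → Us k → ℝ := fun j y => U (.inr (j, pU k y)) - U (.inr (j, y))
  let P : Fin m ⊕ Fin b → ℝ := fun x => W (.inl (pP m b x)) - W (.inl x)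
  have z1 : ∀ j i, |D j (.inr (.inl i))| ≤ T - 3 ∧
      E (finRotate m j) (.inr (.inl i)) = -D j (.inr (.inl i)) := fun j i =>
    (h (.inr (j, .inr (.inl i)))).1 (by simp [fm, eU])
  have z2 : ∀ j i, |D j (.inr (.inr i))| ≤ T - 3 ∧ E j (.inr (.inr i)) = -D j (.inr (.inr i)) :=
    fun j i => (h (.inr (j, .inr (.inr i)))).1 (by simp [fm, eU])
  have z3 : ∀ i, |P (.inr i)| ≤ T - 3 := fun i => ((h (.inl (.inr i))).1 (by simp [fm])).1
  have o1 : ∀ j, 1 ≤ |D j (.inl 0)| := fun j => ((h (.inr (j, .inl 0))).2 (by simp [fm, eU])).1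
  have o2 : ∀ j, 1 ≤ |E j (.inl 0)| ∧ (|E j (.inl 0)| < 2 → E j (.inl 0) = -P (.inl j)) :=
    fun j => ((h (.inl (.inl j))).2 (by simp [fm])).2
  let A : Fin m → ℝ := fun j => ∑ i, D j (.inr (.inr i))
  let B : Fin m → ℝ := fun j => ∑ i, D j (.inr (.inl i))
  have hA : ∀ j, |A j| < 1 := fun j => (abs_sum_le fun i => (z2 j i).1).trans_lt hk
  have hB : ∀ j, |B j| < 1 := fun j => (abs_sum_le fun i => (z1 j i).1).trans_lt hk
  have s1 : ∀ j, D j (.inl 0) = -(B j + A j) := fun j => by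
    have s : ∑ y, D j y = 0 := sum_perm (pU k) fun y => W (.inr (j, y))
    rw [Fintype.sum_sum_type, Fintype.sum_sum_type, Fin.sum_univ_one] at s
    exact eq_neg_of_add_eq_zero_left s
  have s2 : ∀ j, E (finRotate m j) (.inl 0) = B j + A (finRotate m j) := fun j => by
    have s : ∑ y, E (finRotate m j) y = 0 := sum_perm (pU k) fun y => U (.inr (finRotate m j, y))
    rw [Fintype.sum_sum_type, Fintype.sum_sum_type, Fin.sum_univ_one] at s
    simp only [(z1 j _).2, (z2 _ _).2, sum_neg_distrib] at s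
    linarith
  have s3 : ∑ x, P x = 0 := sum_perm (pP m b) fun x => W (.inl x)
  have s4 : ∀ j, B j + A (finRotate m j) = -P (.inl (finRotate m j)) := fun j => by
    rw [← s2]
    refine (o2 _).2 ?_
    rw [s2]
    linarith [abs_add_le (B j) (A (finRotate m j)), hB j, hA (finRotate m j)]
  have c := core h0 hA hB (fun j => by simpa only [s1, abs_neg] using o1 j)
    fun j => s2 j ▸ (o2 _).1
  rw [Fintype.sum_sum_type] at s3
  rw [sum_congr rfl fun j _ => s4 j, Equiv.sum_comp (finRotate m) fun j => -P (.inl j),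
    sum_neg_distrib, neg_eq_of_add_eq_zero_right s3] at c
  exact c.trans (abs_sum_le z3)

theorem Cp.map {W A : Type} [AddCommGroup A] {Q : CG W} {e : W × Fin 3} {P P' : A → Prop} {v : A}
    (h : Cp Q e P v) (g : A →+ A) (hg : ∀ a, P a → P' (g a)) : Cp Q e P' (g v) := by
  obtain ⟨F, a, b, c⟩ := h
  exact ⟨_, a.map g, fun y => hg _ (b y), congrArg g c⟩

/-- The three properties: least circular bound `R`, and a Chebyshev flow with bound `T`. -/
def Good {U : Type} (H : CG U) (R T : ℝ) : Prop :=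
  (∃ f, H.Fl f ∧ ∀ x, P1 R (f x)) ∧ (∀ s f, H.Fl f → (∀ x, P1 s (f x)) → R ≤ s) ∧
    ∃ f, H.Fl f ∧ ∀ x, P2 T (f x)

theorem exists_nat (hW : ∀ (b : Bool) (t : ℝ), 0 < t → Nonempty (Pole b t)) (hm : 0 < m)
    (hb : m ≤ b) {t : ℝ} (ht : 0 < t) :
    ∃ (U : Type) (_ : Fintype U) (H : CG U), Good H (3 + (m / b : ℝ)) (1 + t) := by
  have m0 : (0 : ℝ) < m := by exact_mod_cast hm
  have b0 : (m : ℝ) ≤ b := by exact_mod_cast hb
  have b1 : (0 : ℝ) < b := by linarith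
  have k0 : 0 < b / m := Nat.div_pos hb hm
  have k1 : ((b / m : ℕ) : ℝ) * m ≤ b := by exact_mod_cast Nat.div_mul_le_self b m
  have k2 : (b : ℝ) ≤ m * ((b / m : ℕ) + (b / m : ℕ)) := by
    have := Nat.lt_mul_div_succ b hm
    have : m * (b / m + 1) ≤ m * (b / m + b / m) := Nat.mul_le_mul_left _ (by omega)
    exact_mod_cast (by omega : b ≤ m * (b / m + b / m))
  have d0 : (0 : ℝ) < m / b := by positivity
  have d1 : (m / b : ℝ) ≤ 1 := (div_le_one b1).2 b0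
  let S := fm m b (b / m) (m / b) hm hb k0 (div_mul_cancel₀ _ b1.ne').ge (by
    rwa [div_mul_eq_mul_div, le_div_iff₀ b1, one_mul])
  obtain ⟨Q⟩ := hW false _ (lt_min ht d0)
  obtain ⟨Q'⟩ := hW true _ (lt_min ht d0)
  have := Q.fin
  have := Q'.fin
  obtain ⟨U, hU, H, h⟩ := exists_ins2 S.K.G Q.G Q.d Q'.G Q'.d S.m1 S.m2 S.hm1 S.hm2
  have u : 3 + min t (m / b : ℝ) ≤ 3 + m / b := by linarith [min_le_right t (m / b : ℝ)]
  have w : ∀ a, P2 (1 + min t (m / b : ℝ)) a → P2 (1 + t) a := fun a k =>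
    ⟨k.1, k.2.trans (by linarith [min_le_left t (m / b : ℝ)])⟩
  have c1 : Cp Q.G Q.d (P1 (3 + m / b)) 1 := by
    simpa only [add_zero, Cp] using Q.up _ 0 u le_rfl (by linarith)
  refine ⟨U, hU, H, (h ℝ _).2 (S.up1 c1 (c1.map (-AddMonoidHom.id ℝ) P1.neg)
    fun θ a b => Q'.up _ θ u a (by linarith)), fun T f hf e => ?_, (h _ _).2 (S.up2 (by linarith)
    (Cp.map Q.ch (AddMonoidHom.id _) w) (Cp.map Q.ch (AddEquiv.prodComm : ℝ × ℝ ≃+ ℝ × ℝ)
      fun a k => ?_) (Cp.map Q'.ch (AddMonoidHom.id _) w))⟩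
  · by_contra c
    obtain ⟨T', t3, t4, t5⟩ : ∃ T' : ℝ, 3 ≤ T' ∧ T' < 3 + m / b ∧ T ≤ T' :=
      ⟨max 3 T, le_max_left _ _, max_lt (by linarith) (by linarith), le_max_right _ _⟩
    have t6 : b * (T' - 3) < m := by
      rw [mul_comm, ← lt_div_iff₀ b1]
      linarith
    refine t6.not_ge (fm_low t3 (by linarith) ?_ ?_ ?_
      ((h ℝ (P1 T')).1 ⟨f, hf, fun x => ⟨(e x).1, (e x).2.trans t5⟩⟩))
    · have k3 : (1 : ℝ) ≤ (b / m : ℕ) := by exact_mod_cast k0
      nlinarith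
    · rintro _ ⟨F, a, b, rfl⟩
      exact Q.low T' F t3 (by linarith) a b
    · rintro _ ⟨F, a, b, rfl⟩
      exact Q'.low T' F t3 (by linarith) a b
  · have := w a k
    rwa [P2, max_comm] at this

theorem exists_rat (hW : ∀ (b : Bool) (t : ℝ), 0 < t → Nonempty (Pole b t)) (r : ℚ) (h1 : 4 < r)
    (h2 : r ≤ 5) {t : ℝ} (ht : 0 < t) :
    ∃ (U : Type) (_ : Fintype U) (H : CG U), Good H (r - 1) (1 + t) := by
  obtain ⟨m, hm⟩ := Int.eq_ofNat_of_zero_le (Rat.num_nonneg.2 (by linarith : 0 ≤ r - 4))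
  have e : ((m : ℚ) / ((r - 4).den : ℕ)) = r - 4 := by
    rw [← Int.cast_natCast, ← hm, Rat.num_div_den]
  have hb : (0 : ℚ) < ((r - 4).den : ℕ) := by exact_mod_cast (r - 4).den_pos
  have e' : ((m : ℝ) / ((r - 4).den : ℕ)) = r - 4 := by
    have := congrArg (Rat.cast : ℚ → ℝ) e
    rwa [Rat.cast_div, Rat.cast_natCast, Rat.cast_natCast, Rat.cast_sub, Rat.cast_ofNat] at this
  have m0 : 0 < m := by
    have := Rat.num_pos.2 (sub_pos.2 h1)
    omega
  have m1 : m ≤ (r - 4).den := by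
    have : (m : ℚ) / ((r - 4).den : ℕ) ≤ 1 := by linarith
    rw [div_le_one hb] at this
    exact_mod_cast this
  obtain ⟨U, hU, H, h⟩ := exists_nat hW m0 m1 ht
  rw [e', show (3 : ℝ) + (r - 4) = r - 1 by ring] at h
  exact ⟨U, hU, H, h⟩

end Pool.Agent.Lib.MP_5c9ca0_co.W
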