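import Pool.Agent.Lib.MP_5c9ca0_co.W.Rat
import Pool.Agent.Lib.MP_5c9ca0_co.W.Tune4

/-! Snarks with every rational ratio between `20 / 9` and `5 / 2`, from the edge gadget. -/

namespace Pool.Agent.Lib.MP_5c9ca0_co.W

section

variable {U : Type} [Fintype U] (H : CG U) (r : ℝ)

theorem mem_S1 : r ∈ S1 H.toM ↔ 2 ≤ r ∧ ∃ f, H.Fl f ∧ ∀ x, P1 (r - 1) (f x) :=
  and_congr_right fun _ => ⟨fun ⟨_, h, k⟩ => H.of_flow h P1.neg k,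
    fun ⟨_, h, k⟩ => ⟨_, (H.flow_iff h.1).2 h, fun _ => k _⟩⟩

theorem mem_S2 : r ∈ S2 H.toM ↔ 2 ≤ r ∧ ∃ f, H.Fl f ∧ ∀ x, P2 (r - 1) (f x) :=
  and_congr_right fun _ => ⟨fun ⟨_, h, k⟩ => H.of_flow h P2.neg k,
    fun ⟨_, h, k⟩ => ⟨_, (H.flow_iff h.1).2 h, fun _ => k _⟩⟩

end

theorem exists_mid (hW : ∀ (b : Bool) (t : ℝ), 0 < t → Nonempty (Pole b t)) (q : ℚ)
    (h1 : 2 < q) (h2 : q < 5 / 2) :
    ∃ (n m : ℕ) (G : MGraph n m), G.IsSnark ∧ G.circ / G.cheb = (q : ℝ) := by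
  have q1 : (2 : ℝ) < q := by exact_mod_cast h1
  have q2 : 2 * (q : ℝ) < 5 := by exact_mod_cast (by linarith : 2 * q < 5)
  have q3 : (2 : ℝ) < 5 / q := by
    rw [lt_div_iff₀ (by linarith)]
    linarith
  obtain ⟨U, _, K, ⟨f, k1, k2⟩, k3, k4⟩ := exists_rat hW (2 * q) (by linarith) (by linarith)
    (sub_pos.2 q3)
  push_cast at k2 k3
  have k5 : (5 / q : ℝ) ∈ S2 K.toM := (mem_S2 K _).2 ⟨q3.le, by
    rwa [show (5 / q - 1 : ℝ) = 1 + (5 / q - 2) by ring]⟩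
  obtain ⟨τ, t1, t2⟩ := least_S2 K.toM ⟨_, k5⟩
  have t3 : (2 : ℝ) < τ := t1.1.lt_of_ne fun e => by
    obtain ⟨-, g, a, b⟩ := (mem_S1 K _).1 (four_of_two _ (e ▸ t1))
    linarith [k3 _ g a b]
  have t4 : (q : ℝ) * τ ≤ 5 := by
    rw [mul_comm, ← le_div_iff₀ (by linarith)]
    exact t2 k5
  have t5 : 2 * (q : ℝ) < q * τ := by nlinarith
  obtain ⟨V, _, G, g1, g2, g3⟩ := exists_rat hW (q * τ)
    (by exact_mod_cast (by linarith : (4 : ℝ) < q * τ)) (by exact_mod_cast t4) (sub_pos.2 t3)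
  push_cast at g1 g2
  rw [show (1 + (τ - 2) : ℝ) = τ - 1 by ring] at g3
  have s1 : IsLeast (S1 (uni G K).toM) (q * τ) := by
    refine ⟨(mem_S1 _ _).2 ⟨by linarith, (uni_iff G K _).2 ⟨g1, f, k1, fun x =>
      ⟨(k2 x).1, (k2 x).2.trans (by linarith)⟩⟩⟩, fun s hs => ?_⟩
    obtain ⟨g, a, b⟩ := ((uni_iff G K _).1 ((mem_S1 _ _).1 hs).2).1
    linarith [g2 _ g a b]
  have s2 : IsLeast (S2 (uni G K).toM) τ :=
    ⟨(mem_S2 _ _).2 ⟨t3.le, (uni_iff G K _).2 ⟨g3, ((mem_S2 K _).1 t1).2⟩⟩, fun s hs =>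
      t2 ((mem_S2 K _).2 ⟨hs.1, ((uni_iff G K _).1 ((mem_S2 _ _).1 hs).2).2⟩)⟩
  refine ⟨_, _, (uni G K).toM, ⟨bridgeless_of_S1 _ s1.1, CG.cubic _, fun c => ?_⟩, ?_⟩
  · linarith [s1.2 (four_of_col _ (CG.cubic _) c)]
  · rw [circ_eq, cheb_eq, s1.csInf_eq, s2.csInf_eq, mul_div_assoc, div_self (by linarith), mul_one]

theorem exists_high (hW : ∀ (b : Bool) (t : ℝ), 0 < t → Nonempty (Pole b t)) (q : ℚ)
    (h1 : 20 / 9 < q) (h2 : q < 5 / 2) :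
    ∃ (n m : ℕ) (G : MGraph n m), G.IsSnark ∧ G.circ / G.cheb = (q : ℝ) :=
  exists_mid hW q (by linarith) h2

end Pool.Agent.Lib.MP_5c9ca0_co.W
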