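import Pool.Agent.Lib.MP_5c9ca0_co.Fam
import Pool.Agent.Lib.MP_5c9ca0_co.W.Low
import Pool.Agent.Lib.MP_5c9ca0_co.W.Rat
import Pool.Agent.Lib.MP_5c9ca0_co.W.Pole
import Pool.Agent.Lib.MP_5c9ca0_co.W.Tune

/-! The ratio sets. -/

namespace Pool.Agent.Lib.MP_5c9ca0_co.W

theorem snark_ratio (q : ℚ) (h1 : 16 / 9 < q) (h2 : q < 5 / 2) :
    ∃ (n m : ℕ) (G : MGraph n m), G.IsSnark ∧ G.circ / G.cheb = (q : ℝ) := by
  rcases le_or_gt q (20 / 9) with h | h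
  · obtain ⟨n, m, G, k1, k2, k3⟩ := exists_snark' (9 / 4 * q) (by linarith) (by linarith)
    refine ⟨n, m, G, k1, ?_⟩
    rw [k2, k3]
    push_cast
    field_simp
  · exact exists_high (fun b _ ht => exists_W b ht) q h h2

theorem graph_ratio (q : ℚ) (h1 : 1 ≤ q) (h2 : q < 5 / 2) :
    ∃ (n m : ℕ) (G : MGraph n m), G.Bridgeless ∧ G.circ / G.cheb = (q : ℝ) := by
  rcases le_or_gt q 2 with h | h
  · obtain ⟨n, m, G, k⟩ := exists_least (2 * q) (by linarith) (by linarith)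
    have hb := bridgeless_of_S1 G k.1
    have e : G.circ = (2 * q : ℚ) := k.csInf_eq
    have h' : (q : ℝ) ≤ 2 := by exact_mod_cast h
    refine ⟨n, m, G, hb, ?_⟩
    rw [G.cheb_two hb (by rw [e]; push_cast; linarith), e]
    push_cast
    ring
  · obtain ⟨n, m, G, k1, k2⟩ := snark_ratio q (by linarith) h2
    exact ⟨n, m, G, k1.1, k2⟩

theorem every_ratio {n m : ℕ} (G : MGraph n m) (h : G.Bridgeless) :
    ∃ q : ℚ, G.circ / G.cheb = (q : ℝ) ∧ 1 ≤ q ∧ (G.circ ≤ 5 → q < 5 / 2) := by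
  obtain ⟨q, h0, h1, h2⟩ := G.ratio h
  refine ⟨q, h0, h1, fun h5 => ?_⟩
  have k : (q : ℝ) < ((5 / 2 : ℚ) : ℝ) := by push_cast; exact h2 5 (by norm_num) h5
  exact_mod_cast k

theorem ratio_set (five : ∀ (n m : ℕ) (G : MGraph n m), G.Bridgeless →
      ∃ φ : Fin m → ℤ, G.IsFlow φ ∧ ∀ e, φ e ≠ 0 ∧ |φ e| < 5) :
    {x : ℝ | ∃ (n m : ℕ) (G : MGraph n m), G.Bridgeless ∧ x = G.circ / G.cheb} =
      {x : ℝ | ∃ q : ℚ, 1 ≤ q ∧ q < 5 / 2 ∧ x = q} := by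
  ext x
  constructor
  · rintro ⟨n, m, G, h, rfl⟩
    obtain ⟨q, h0, h1, h2⟩ := every_ratio G h
    obtain ⟨φ, hφ, b⟩ := five n m G h
    refine ⟨q, h1, h2 ((G.circ_least (G.S1_ne h)).2 ⟨by norm_num, _,
      hφ.map (Int.castAddHom ℝ), fun e => ?_⟩), h0⟩
    have : 1 ≤ |φ e| ∧ |φ e| ≤ 4 := ⟨Int.one_le_abs (b e).1, by have := (b e).2; omega⟩
    show 1 ≤ |(φ e : ℝ)| ∧ |(φ e : ℝ)| ≤ 5 - 1
    rw [show (5 : ℝ) - 1 = 4 by norm_num]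
    exact_mod_cast this
  · rintro ⟨q, h1, h2, rfl⟩
    obtain ⟨n, m, G, k1, k2⟩ := graph_ratio q h1 h2
    exact ⟨n, m, G, k1, k2.symm⟩

end Pool.Agent.Lib.MP_5c9ca0_co.W
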