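import Pool.Agent.Lib.MP_5c9ca0_co.W.MP

/-! The module of the ladder: a Petersen 4-pole, a rung and a handle rail. -/

namespace Pool.Agent.Lib.MP_5c9ca0_co.W

/-- Eight vertices of the Petersen graph and four vertices on the strands. -/
abbrev W0 := Fin 8 ⊕ Fin 4

def ia (v : Fin 8) (j : Fin 3) : W0 × Fin 3 ⊕ Pt := .inl (.inl v, j)

def ib (v : Fin 4) (j : Fin 3) : W0 × Fin 3 ⊕ Pt := .inl (.inr v, j)

def mc (w : Bool) : W0 × Fin 3 → W0 × Fin 3 ⊕ Pt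
  | (.inl v, j) => ![![.inr (false, 2), ia 1 0, ia 4 0], ![ia 0 1, ia 2 0, ia 5 0],
      ![ia 1 1, ia 3 0, ia 6 0], ![ia 2 1, ia 7 0, ib 3 0], ![ia 0 2, ia 7 2, ia 6 1],
      ![ia 1 2, ia 7 1, ib 0 2], ![ia 2 2, ia 4 2, ib 1 2], ![ia 3 1, ia 5 1, ia 4 1]] v j
  | (.inr v, j) => ![![.inr (false, 0), ib 1 0, ia 5 2], ![ib 0 1, .inr (true, 0), ia 6 2],
      ![.inr (false, 1), .inr (true, if w then 2 else 1), ib 3 2],
      ![ia 3 2, .inr (true, if w then 1 else 2), ib 2 2]] v j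

def mo (w : Bool) : Pt → W0 × Fin 3
  | (false, j) => ![(.inr 0, 0), (.inr 2, 0), (.inl 0, 0)] j
  | (true, j) => ![(.inr 1, 1), (.inr (if w then 3 else 2), 1), (.inr (if w then 2 else 3), 1)] j

/-- The module; `w` tells whether the strands 1 and 2 are exchanged on the right. -/
def M0 (w : Bool) : MP W0 Pt where
  c := mc w
  o := mo w
  h1 := by revert w; decide +kernel
  h2 := by revert w; decide +kernel
  h3 := by revert w; decide +kernel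

variable {A B : Type} [InvolutiveNeg A] [InvolutiveNeg B]

/-- The Petersen graph without two adjacent vertices: `s` and `h` enter, `s'` and `k` leave. -/
def Iso (R : A → A → A → Prop) (s s' h k : A) : Prop :=
  ∃ e0 e1 e2 e3 e4 e5 e6 e7 e8 e9, R (-s) e0 e3 ∧ R (-e0) e1 e4 ∧ R (-e1) e2 e5 ∧ R (-e2) e6 s' ∧
    R (-e3) (-e8) e9 ∧ R (-e4) e7 (-h) ∧ R (-e5) (-e9) k ∧ R (-e6) (-e7) e8

/-- The relation between the values on the left and on the right of a module. -/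
def Md (w : Bool) (R : A → A → A → Prop) (l r : Fin 3 → A) : Prop :=
  ∃ s h k m g, Iso (TE R) (l 2) s h k ∧ R (-l 0) m h ∧ R (-m) (r 0) (-k) ∧
    R (-l 1) (r (if w then 2 else 1)) g ∧ R (-s) (r (if w then 1 else 2)) (-g)

theorem mod_ext (w : Bool) (R : A → A → A → Prop) (l r : Fin 3 → A) :
    (M0 w).tr.Ext (fun _ => R) (pv l r) ↔ Md w R l r := by
  rw [MP.tr_ext]
  constructor
  · rintro ⟨f, h1, h2, h3⟩
    have p0 : f (.inr 0, 0) = -l 0 := h3 (false, 0)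
    have p1 : f (.inr 2, 0) = -l 1 := h3 (false, 1)
    have p2 : f (.inl 0, 0) = -l 2 := h3 (false, 2)
    have p3 : f (.inr 1, 1) = r 0 := h3 (true, 0)
    have p4 : f (.inr 2, 1) = r (if w then 2 else 1) := by
      cases w
      exacts [h3 (true, 1), h3 (true, 2)]
    have p5 : f (.inr 3, 1) = r (if w then 1 else 2) := by
      cases w
      exacts [h3 (true, 2), h3 (true, 1)]
    refine ⟨f (.inl 3, 2), f (.inr 0, 2), f (.inl 6, 2), f (.inr 0, 1), f (.inr 2, 2),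
      ⟨f (.inl 0, 1), f (.inl 1, 1), f (.inl 2, 1), f (.inl 0, 2), f (.inl 1, 2), f (.inl 2, 2),
        f (.inl 3, 1), f (.inl 5, 1), f (.inl 7, 2), f (.inl 4, 2), ?_, ?_, ?_, ?_, ?_, ?_, ?_,
        ?_⟩, ?_, ?_, ?_, ?_⟩
    · exact p2 ▸ h2 (.inl 0)
    · exact h1 (.inl 0, 1) (.inl 1, 0) rfl ▸ h2 (.inl 1)
    · exact h1 (.inl 1, 1) (.inl 2, 0) rfl ▸ h2 (.inl 2)
    · exact h1 (.inl 2, 1) (.inl 3, 0) rfl ▸ h2 (.inl 3)
    · exact h1 (.inl 0, 2) (.inl 4, 0) rfl ▸ h1 (.inl 7, 2) (.inl 4, 1) rfl ▸ h2 (.inl 4)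
    · exact h1 (.inl 1, 2) (.inl 5, 0) rfl ▸ h1 (.inr 0, 2) (.inl 5, 2) rfl ▸ h2 (.inl 5)
    · exact h1 (.inl 2, 2) (.inl 6, 0) rfl ▸ h1 (.inl 4, 2) (.inl 6, 1) rfl ▸ h2 (.inl 6)
    · exact h1 (.inl 3, 1) (.inl 7, 0) rfl ▸ h1 (.inl 5, 1) (.inl 7, 1) rfl ▸ h2 (.inl 7)
    · exact p0 ▸ h2 (.inr 0)
    · exact h1 (.inr 0, 1) (.inr 1, 0) rfl ▸ h1 (.inl 6, 2) (.inr 1, 2) rfl ▸ p3 ▸ h2 (.inr 1)
    · exact p1 ▸ p4 ▸ h2 (.inr 2)
    · exact h1 (.inl 3, 2) (.inr 3, 0) rfl ▸ h1 (.inr 2, 2) (.inr 3, 2) rfl ▸ p5 ▸ h2 (.inr 3)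
  · rintro ⟨s, h, k, m, g, ⟨e0, e1, e2, e3, e4, e5, e6, e7, e8, e9, v0, v1, v2, v3, v4, v5, v6,
      v7⟩, u0, u1, u2, u3⟩
    let f : W0 × Fin 3 → A := fun d => match d with
      | (.inl v, j) => ![![-l 2, e0, e3], ![-e0, e1, e4], ![-e1, e2, e5], ![-e2, e6, s],
          ![-e3, -e8, e9], ![-e4, e7, -h], ![-e5, -e9, k], ![-e6, -e7, e8]] v j
      | (.inr v, j) => ![![-l 0, m, h], ![-m, r 0, -k], ![-l 1, r (if w then 2 else 1), g],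
          ![-s, r (if w then 1 else 2), -g]] v j
    refine ⟨f, ?_, ?_, ?_⟩
    · rintro ⟨v | v, j⟩ y e <;> fin_cases v <;> fin_cases j <;> cases e <;>
        first | rfl | exact (neg_neg _).symm
    · rintro (v | v) <;> fin_cases v <;> assumption
    · rintro ⟨_ | _, j⟩ <;> fin_cases j <;> cases w <;> rfl

theorem TE.map {R : A → A → A → Prop} {S : B → B → B → Prop} (φ : A → B)
    (hφ : ∀ a, φ (-a) = -φ a) (H : ∀ a b c, R a b c → S (φ a) (φ b) (φ c)) {a b c : A}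
    (h : TE R a b c) : TE S (φ a) (φ b) (φ c) := by
  obtain ⟨x, y, z, h1, h2, h3⟩ := h
  exact ⟨φ x, φ y, φ z, hφ z ▸ H _ _ _ h1, hφ x ▸ H _ _ _ h2, hφ y ▸ H _ _ _ h3⟩

theorem Iso.map {R : A → A → A → Prop} {S : B → B → B → Prop} (φ : A → B)
    (hφ : ∀ a, φ (-a) = -φ a) (H : ∀ a b c, R a b c → S (φ a) (φ b) (φ c)) {s s' h k : A}
    (e : Iso R s s' h k) : Iso S (φ s) (φ s') (φ h) (φ k) := by
  obtain ⟨e0, e1, e2, e3, e4, e5, e6, e7, e8, e9, v0, v1, v2, v3, v4, v5, v6, v7⟩ := e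
  refine ⟨φ e0, φ e1, φ e2, φ e3, φ e4, φ e5, φ e6, φ e7, φ e8, φ e9, ?_⟩
  simp only [← hφ]
  exact ⟨H _ _ _ v0, H _ _ _ v1, H _ _ _ v2, H _ _ _ v3, H _ _ _ v4, H _ _ _ v5, H _ _ _ v6,
    H _ _ _ v7⟩

/-- The classes of the three values that leave a vertex: two are equal and not `0`, and the third
is not the opposite class. -/
def Ok (a b c : ZMod 3) : Prop :=
  (a = b ∧ a ≠ 0 ∧ c ≠ -a) ∨ (b = c ∧ b ≠ 0 ∧ a ≠ -b) ∨ (c = a ∧ c ≠ 0 ∧ b ≠ -c)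

instance (a b c : ZMod 3) : Decidable (Ok a b c) := by unfold Ok; infer_instance

/-- Exactly one of the three classes is `0`. -/
def Pr (a b c : ZMod 3) : Prop := Ok a b c ∧ (a = 0 ∨ b = 0 ∨ c = 0)

instance (a b c : ZMod 3) : Decidable (Pr a b c) := by unfold Pr; infer_instance

theorem te_ok : ∀ a b c : ZMod 3, Ok a b c → TE Ok a b c → Pr a b c := by
  unfold TE
  decide +kernel

/-- The inner half of the Petersen 4-pole. -/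
def Inn (e3 e4 e5 e6 : ZMod 3) : Prop := ∃ e8 e9, Pr (-e3) (-e8) e9 ∧ ∃ e7, Pr (-e6) (-e7) e8 ∧
  (∃ h, Pr (-e4) e7 (-h)) ∧ ∃ k, Pr (-e5) (-e9) k

instance (a b c d : ZMod 3) : Decidable (Inn a b c d) := by unfold Inn; infer_instance

theorem iso_aux : ∀ s e0 e3 : ZMod 3, Pr (-s) e0 e3 → ∀ e1 e4, Pr (-e0) e1 e4 → ∀ e2 e5,
    Pr (-e1) e2 e5 → ∀ e6 s', Pr (-e2) e6 s' → Inn e3 e4 e5 e6 → s' = s := by
  decide +kernel

theorem iso_pr {s s' h k : ZMod 3} (e : Iso Pr s s' h k) : s' = s := by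
  obtain ⟨e0, e1, e2, e3, e4, e5, e6, e7, e8, e9, v0, v1, v2, v3, v4, v5, v6, v7⟩ := e
  exact iso_aux _ _ _ v0 _ _ v1 _ _ v2 _ _ v3 ⟨_, _, v4, _, v7, ⟨_, v5⟩, _, v6⟩

theorem rung : ∀ c x y g : ZMod 3, c ≠ 0 → Ok (-c) x g → Ok (-c) y (-g) → x = -c ∧ y = -c := by
  decide +kernel

/-- Conservation at a vertex, with admissible values. -/
def RF {A : Type} [AddCommGroup A] (P : A → Prop) (a b c : A) : Prop :=
  a + b + c = 0 ∧ P a ∧ P b ∧ P c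

theorem sat_iff {V A : Type} [AddCommGroup A] {G : CG V} {P : A → Prop} {f : V × Fin 3 → A} :
    Sat G (RF P) f ↔ G.Fl f ∧ ∀ x, P (f x) :=
  ⟨fun h => ⟨⟨h.1, fun v => (h.2 v).1⟩, fun ⟨v, j⟩ => by
    fin_cases j
    exacts [(h.2 v).2.1, (h.2 v).2.2.1, (h.2 v).2.2.2]⟩,
    fun h => ⟨h.1.1, fun v => ⟨h.1.2 v, h.2 _, h.2 _, h.2 _⟩⟩⟩

theorem TE.rf {A : Type} [AddCommGroup A] {P : A → Prop} {a b c : A} (h : TE (RF P) a b c) :
    RF P a b c := by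
  obtain ⟨x, y, z, h1, h2, h3⟩ := h
  refine ⟨?_, h1.2.1, h2.2.1, h3.2.1⟩
  rw [← add_zero (0 : A), ← add_zero (0 : A), add_assoc]
  nth_rw 1 [← h3.1, ← h2.1, ← h1.1]
  abel

/-- The class of a real value: `1` low, `0` middle, `-1` high, read modulo `T + 1`. -/
noncomputable def cls (T x : ℝ) : ZMod 3 :=
  if (0 < x ∧ x < 2) ∨ x < 1 - T then 1 else if (x < 0 ∧ -2 < x) ∨ T - 1 < x then -1 else 0

theorem cls_rep {T x : ℝ} (h3 : 3 ≤ T) (h : P1 T x) : ∃ ρ, (ρ = x ∨ ρ = x + (T + 1)) ∧ 1 ≤ ρ ∧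
    ρ ≤ T ∧ ((ρ < 2 ∧ cls T x = 1) ∨ (2 ≤ ρ ∧ ρ ≤ T - 1 ∧ cls T x = 0) ∨
      (T - 1 < ρ ∧ cls T x = -1)) := by
  obtain ⟨a, b⟩ := h
  rw [abs_le] at b
  unfold cls
  rcases le_abs.1 a with a | a
  · refine ⟨x, .inl rfl, a, b.2, ?_⟩
    split_ifs <;> grind
  · refine ⟨_, .inr rfl, by linarith [b.1], by linarith, ?_⟩
    split_ifs <;> grind

theorem cls_neg {T : ℝ} (h3 : 3 ≤ T) (x : ℝ) : cls T (-x) = -cls T x := by
  unfold cls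
  split_ifs <;> first | rfl | (exfalso; grind)

theorem sum_rep {T a b c x y z : ℝ} (h : a + b + c = 0) (hx : x = a ∨ x = a + (T + 1))
    (hy : y = b ∨ y = b + (T + 1)) (hz : z = c ∨ z = c + (T + 1)) (k1 : 1 ≤ x) (k2 : 1 ≤ y)
    (k3 : 1 ≤ z) (k4 : x ≤ T) (k5 : y ≤ T) (k6 : z ≤ T) :
    x + y + z = T + 1 ∨ x + y + z = 2 * (T + 1) := by
  rcases hx with hx | hx <;> rcases hy with hy | hy <;> rcases hz with hz | hz <;>
    first | (left; linarith) | (right; linarith)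

theorem ok_cls {T a b c : ℝ} (h3 : 3 ≤ T) (h4 : T < 4) (h : RF (P1 T) a b c) :
    Ok (cls T a) (cls T b) (cls T c) := by
  obtain ⟨x, x1, x2, x3, x4⟩ := cls_rep h3 h.2.1
  obtain ⟨y, y1, y2, y3, y4⟩ := cls_rep h3 h.2.2.1
  obtain ⟨z, z1, z2, z3, z4⟩ := cls_rep h3 h.2.2.2
  have s := sum_rep h.1 x1 y1 z1 x2 y2 z2 x3 y3 z3
  rcases x4 with ⟨p, e⟩ | ⟨p, p', e⟩ | ⟨p, e⟩ <;> rcases y4 with ⟨q, e'⟩ | ⟨q, q', e'⟩ | ⟨q, e'⟩ <;>
    rcases z4 with ⟨u, e''⟩ | ⟨u, u', e''⟩ | ⟨u, e''⟩ <;> rw [e, e', e''] <;>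
    first | decide | (exfalso; rcases s with s | s <;> linarith)

theorem split_cls {T a b c : ℝ} (h3 : 3 ≤ T) (h : RF (P1 T) a b c)
    (k1 : T - 2 < |a|) (k2 : |a| < 3) :
    cls T c = cls T b ∧ cls T b ≠ 0 ∧ cls T a ≠ -cls T b := by
  obtain ⟨x, x1, x2, x3, x4⟩ := cls_rep h3 h.2.1
  obtain ⟨y, y1, y2, y3, y4⟩ := cls_rep h3 h.2.2.1
  obtain ⟨z, z1, z2, z3, z4⟩ := cls_rep h3 h.2.2.2
  have s := sum_rep h.1 x1 y1 z1 x2 y2 z2 x3 y3 z3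
  have t : T - 2 < x ∧ x < 3 := by
    rw [abs_lt] at k2
    rcases lt_abs.1 k1 with k | k <;> rcases x1 with x1 | x1 <;> constructor <;>
      linarith [k2.1, k2.2]
  rcases x4 with ⟨p, e⟩ | ⟨p, p', e⟩ | ⟨p, e⟩ <;> rcases y4 with ⟨q, e'⟩ | ⟨q, q', e'⟩ | ⟨q, e'⟩ <;>
    rcases z4 with ⟨u, e''⟩ | ⟨u, u', e''⟩ | ⟨u, e''⟩ <;> rw [e, e', e''] <;>
    first | decide | (exfalso; rcases s with s | s <;> linarith [t.1, t.2])

theorem Md.low {T : ℝ} (h3 : 3 ≤ T) (h4 : T < 4) {w : Bool} {l r : Fin 3 → ℝ}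
    (e : Md w (RF (P1 T)) l r) {c : ZMod 3} (hc : c ≠ 0) (e1 : cls T (l 1) = c)
    (e2 : cls T (l 2) = c) : cls T (r 1) = -c ∧ cls T (r 2) = -c := by
  obtain ⟨s, h, k, m, g, v, -, -, u2, u3⟩ := e
  have a := iso_pr (v.map (cls T) (cls_neg h3) fun _ _ _ t => te_ok _ _ _ (ok_cls h3 h4 t.rf)
    (t.map (cls T) (cls_neg h3) fun _ _ _ => ok_cls h3 h4))
  have b := ok_cls h3 h4 u2
  have d := ok_cls h3 h4 u3
  rw [cls_neg h3, e1] at b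
  rw [cls_neg h3, cls_neg h3, a, e2] at d
  have := rung _ _ _ _ hc b d
  cases w
  exacts [this, this.symm]

end Pool.Agent.Lib.MP_5c9ca0_co.W
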