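import Pool.Agent.Lib.MP_5c9ca0_co.W.RoundA

/-! Rounding of real edge functions with integral boundary, and Tutte type lifting. -/

namespace Pool.Agent.Lib.MP_5c9ca0_co.W

variable {n m : ℕ}

theorem round (G : MGraph n m) (φ : Fin m → ℝ) (h : ∀ v, ∃ k : ℤ, bd G φ v = k) :
    ∃ ψ : Fin m → ℤ, (∀ v, bd G (fun e => (ψ e : ℝ)) v = bd G φ v) ∧
      ∀ e, |(ψ e : ℝ) - φ e| < 1 :=
  round' G φ h

theorem lift (G : MGraph n m) {r : ℝ} (hr : 0 < r) (g : Fin m → ℝ)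
    (h : ∀ v, ∃ k : ℤ, bd G g v = k * r) :
    ∃ φ : Fin m → ℝ, G.IsFlow φ ∧ ∀ e, |φ e| < r ∧ ∃ k : ℤ, φ e = g e + k * r :=
  lift' G hr g h

/-- A modular flow with values in `[1, r - 1]` gives a circular flow. -/
theorem mem_S1_of_mod (G : MGraph n m) {r : ℝ} (hr : 2 ≤ r) (g : Fin m → ℝ)
    (h : ∀ v, ∃ k : ℤ, bd G g v = k * r) (hb : ∀ e, 1 ≤ g e ∧ g e ≤ r - 1) : r ∈ S1 G :=
  mem_S1_of_mod' G hr g h hb

theorem four_of_two (G : MGraph n m) (h : (2 : ℝ) ∈ S2 G) : (4 : ℝ) ∈ S1 G :=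
  G.four_of_two h

theorem two_of_four (G : MGraph n m) (h : (4 : ℝ) ∈ S1 G) : (2 : ℝ) ∈ S2 G :=
  G.two_of_four h

theorem four_of_col (G : MGraph n m) (hc : G.Cubic) (h : G.ThreeEdgeColourable) :
    (4 : ℝ) ∈ S1 G :=
  four_of_col' G hc h

theorem bridgeless_of_S1 (G : MGraph n m) {r : ℝ} (h : r ∈ S1 G) : G.Bridgeless := by
  obtain ⟨-, φ, hφ, b⟩ := h
  exact G.bridgeless_of_nz hφ fun e k => by have := (b e).1; norm_num [k] at this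

end Pool.Agent.Lib.MP_5c9ca0_co.W
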