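import Pool.Agent.Lib.MP_5c9ca0_co.W.Base
import Pool.Agent.Lib.MP_5c9ca0_co.Q.Gen

/-! Rounding between integer bounds with the boundary kept. -/

namespace Pool.Agent.Lib.MP_5c9ca0_co.W

open Finset

variable {n m : ℕ}

theorem bd_eq (G : MGraph n m) (φ : Fin m → ℝ) (v : Fin n) : bd G φ v = G.dv φ v := by
  unfold bd MGraph.dv
  rw [sum_sub_distrib, sum_filter, sum_filter]

theorem flow_iff_bd (G : MGraph n m) (φ : Fin m → ℝ) : G.IsFlow φ ↔ ∀ v, bd G φ v = 0 :=
  forall_congr' fun _ => sub_eq_zero.symm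

theorem bd_lin (G : MGraph n m) (a b : ℝ) (φ ψ : Fin m → ℝ) (v : Fin n) :
    bd G (fun e => a * φ e + b * ψ e) v = a * bd G φ v + b * bd G ψ v := by
  simp only [bd, sum_add_distrib, ← mul_sum]
  ring

theorem roundA (G : MGraph n m) (lo hi : Fin m → ℤ) (k : ℕ) : ∀ x : Fin m → ℝ,
    (∀ v, ∃ j : ℤ, bd G x v = j) → (∀ e, (lo e : ℝ) ≤ x e ∧ x e ≤ hi e) →
    {e | ¬ ∃ j : ℤ, x e = j}.ncard ≤ k → ∃ z : Fin m → ℝ, (∀ v, bd G z v = bd G x v) ∧
      (∀ e, (lo e : ℝ) ≤ z e ∧ z e ≤ hi e) ∧ ∀ e, ∃ j : ℤ, z e = j := by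
  induction k with
  | zero =>
    intro x _ hb hc
    have := (Set.ncard_eq_zero (Set.toFinite _)).1 (Nat.le_zero.1 hc)
    exact ⟨x, fun _ => rfl, hb, fun e => not_not.1 fun he => (Set.ext_iff.1 this e).1 he⟩
  | succ k ih =>
    intro x hx hb hc
    by_cases hall : ∀ e, ∃ j : ℤ, x e = j
    · exact ⟨x, fun _ => rfl, hb, hall⟩
    obtain ⟨e0, h0⟩ := not_forall.1 hall
    have hq : ∀ a : ℝ, QuotientAddGroup.mk' (AddSubgroup.zmultiples (1 : ℝ)) a = 0 ↔
        ∃ j : ℤ, a = j := fun a => by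
      rw [QuotientAddGroup.mk'_apply, QuotientAddGroup.eq_zero_iff, AddSubgroup.mem_zmultiples_iff]
      simp [eq_comm]
    have hf : G.IsFlow fun e => QuotientAddGroup.mk' (AddSubgroup.zmultiples (1 : ℝ)) (x e) :=
      fun v => by
        rw [← map_sum, ← map_sum, ← sub_eq_zero, ← map_sub]
        exact (hq _).2 (hx v)
    obtain ⟨y, hy, ⟨e1, h1⟩, hs⟩ := G.exists_supp hf (e0 := e0) fun h => h0 ((hq _).1 h)
    simp only [hq] at hs
    let τ : Fin m → ℝ := fun e => if 0 < y e then (hi e - x e) / y e else (lo e - x e) / y e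
    obtain ⟨e, he, hm⟩ := exists_min_image (univ.filter fun e => y e ≠ 0) τ ⟨e1, by simpa⟩
    simp only [mem_filter, mem_univ, true_and] at he hm
    have t0 : 0 ≤ τ e := by
      have := hb e
      simp only [τ]
      split_ifs with c
      · exact div_nonneg (by linarith) c.le
      · exact div_nonneg_of_nonpos (by linarith) (not_lt.1 c)
    have same : ∀ f, (∃ j : ℤ, x f = j) → 1 * x f + τ e * y f = x f := fun f hf => by
      rw [hs f hf, mul_zero, add_zero, one_mul]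
    have int : ∃ j : ℤ, 1 * x e + τ e * y e = j := by
      simp only [τ]
      split_ifs with c
      · exact ⟨hi e, by field_simp; simp⟩
      · exact ⟨lo e, by field_simp; simp⟩
    have eb : ∀ v, bd G (fun f => 1 * x f + τ e * y f) v = bd G x v := fun v => by
      rw [bd_lin, (flow_iff_bd G y).1 hy v]
      ring
    obtain ⟨z, z1, z2, z3⟩ := ih (fun f => 1 * x f + τ e * y f) (fun v => eb v ▸ hx v) (fun f => by
      have b := hb f
      rcases lt_trichotomy (y f) 0 with c | c | c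
      · have := hm f c.ne
        simp only [τ, if_neg c.not_gt] at this
        change τ e ≤ _ at this
        rw [le_div_iff_of_neg c] at this
        exact ⟨by linarith, by nlinarith⟩
      · simpa [c] using hb f
      · have := hm f c.ne'
        simp only [τ, if_pos c] at this
        change τ e ≤ _ at this
        rw [le_div_iff₀ c] at this
        exact ⟨by nlinarith, by linarith⟩) (by
      refine Nat.le_of_lt_succ (lt_of_lt_of_le (Set.ncard_lt_ncard ?_ (Set.toFinite _)) hc)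
      refine ⟨fun f hf k => hf ?_, fun k => ?_⟩
      · rwa [same f k]
      · exact k (fun k' => he (hs e k')) int)
    exact ⟨z, fun v => (z1 v).trans (eb v), z2, z3⟩

theorem round' (G : MGraph n m) (φ : Fin m → ℝ) (h : ∀ v, ∃ k : ℤ, bd G φ v = k) :
    ∃ ψ : Fin m → ℤ, (∀ v, bd G (fun e => (ψ e : ℝ)) v = bd G φ v) ∧
      ∀ e, |(ψ e : ℝ) - φ e| < 1 := by
  obtain ⟨z, z1, z2, z3⟩ := roundA G (fun e => ⌊φ e⌋) (fun e => ⌈φ e⌉) _ φ h
    (fun e => ⟨Int.floor_le _, Int.le_ceil _⟩) le_rfl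
  choose ψ hψ using z3
  obtain rfl : z = fun e => (ψ e : ℝ) := funext hψ
  refine ⟨ψ, z1, fun e => ?_⟩
  have a := Int.lt_floor_add_one (φ e)
  have b := Int.ceil_lt_add_one (φ e)
  exact abs_lt.2 ⟨by linarith [(z2 e).1], by linarith [(z2 e).2]⟩

theorem lift' (G : MGraph n m) {r : ℝ} (hr : 0 < r) (g : Fin m → ℝ)
    (h : ∀ v, ∃ k : ℤ, bd G g v = k * r) :
    ∃ φ : Fin m → ℝ, G.IsFlow φ ∧ ∀ e, |φ e| < r ∧ ∃ k : ℤ, φ e = g e + k * r := by
  have e1 : ∀ v, bd G (fun e => r⁻¹ * g e + 0 * g e) v = r⁻¹ * bd G g v := fun v => by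
    rw [bd_lin, zero_mul, add_zero]
  obtain ⟨ψ, h1, h2⟩ := round' G (fun e => r⁻¹ * g e + 0 * g e) fun v => by
    obtain ⟨k, hk⟩ := h v
    exact ⟨k, by rw [e1, hk]; field_simp⟩
  refine ⟨fun e => 1 * g e + -r * ψ e, (flow_iff_bd G _).2 fun v => ?_, fun e => ⟨?_, -ψ e, ?_⟩⟩
  · rw [bd_lin, h1, e1]
    field_simp
    ring
  · have e2 : 1 * g e + -r * ψ e = -r * (ψ e - (r⁻¹ * g e + 0 * g e)) := by
      field_simp
      ring
    beta_reduce
    rw [e2, abs_mul, abs_neg, abs_of_pos hr]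
    exact mul_lt_of_lt_one_right hr (h2 e)
  · push_cast
    ring

theorem mem_S1_of_mod' (G : MGraph n m) {r : ℝ} (hr : 2 ≤ r) (g : Fin m → ℝ)
    (h : ∀ v, ∃ k : ℤ, bd G g v = k * r) (hb : ∀ e, 1 ≤ g e ∧ g e ≤ r - 1) : r ∈ S1 G := by
  obtain ⟨φ, h1, h2⟩ := lift' G (by linarith) g h
  refine ⟨hr, φ, h1, fun e => ?_⟩
  obtain ⟨a, k, hk⟩ := h2 e
  obtain ⟨b1, b2⟩ := hb e
  obtain ⟨a1, a2⟩ := abs_lt.1 a
  have k1 : k < 1 := by
    have : (k : ℝ) < 1 := by nlinarith
    exact_mod_cast this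
  have k2 : -2 < k := by
    have : (-2 : ℝ) < k := by nlinarith
    exact_mod_cast this
  obtain rfl | rfl : k = 0 ∨ k = -1 := by omega
  · rw [hk, abs_of_nonneg (by push_cast; linarith)]
    constructor <;> push_cast <;> linarith
  · rw [hk, abs_of_nonpos (by push_cast; linarith)]
    constructor <;> push_cast <;> linarith

/-- The edges of two colours carry a flow with values of size one. -/
theorem two_col (G : MGraph n m) (hc : G.Cubic) {c : Fin m → Fin 3}
    (h : ∀ e f, e ≠ f → ∀ v, (G.src e = v ∨ G.tgt e = v) → (G.src f = v ∨ G.tgt f = v) → c e ≠ c f)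
    (a : Fin 3) : ∃ φ : Fin m → ℝ, G.IsFlow φ ∧ ∀ e, |φ e| = if c e = a then 0 else 1 := by
  obtain ⟨φ, h1, h2⟩ := lift' G two_pos (fun e => ((if c e = a then 0 else 1 : ℤ) : ℝ)) fun v => by
    have inj : Set.InjOn c (univ.filter fun e => G.src e = v ∨ G.tgt e = v : Finset (Fin m)) :=
      fun e he f hf k => not_not.1 fun k' =>
        h e f k' v (mem_filter.1 (mem_coe.1 he)).2 (mem_filter.1 (mem_coe.1 hf)).2 k
    have im : (univ.filter fun e => G.src e = v ∨ G.tgt e = v).image c = univ :=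
      eq_univ_of_card _ (by rw [card_image_of_injOn inj, hc.2 v, Fintype.card_fin])
    have s : ∑ e ∈ univ.filter (fun e => G.src e = v ∨ G.tgt e = v),
        (if c e = a then 0 else 1 : ℤ) = 2 := by
      rw [← sum_image (f := fun i => (if i = a then 0 else 1 : ℤ)) inj, im]
      revert a
      decide
    rw [filter_or, sum_union (disjoint_filter.2 fun e _ k k' => hc.1 e (k.trans k'.symm))] at s
    refine ⟨1 - ∑ e ∈ univ.filter (fun e => G.src e = v), (if c e = a then 0 else 1 : ℤ), ?_⟩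
    rw [bd, ← Int.cast_sum, ← Int.cast_sum, eq_sub_of_add_eq' s]
    push_cast
    ring
  refine ⟨φ, h1, fun e => ?_⟩
  obtain ⟨b, k, hk⟩ := h2 e
  rw [hk] at b ⊢
  obtain ⟨b1, b2⟩ := abs_lt.1 b
  by_cases k0 : c e = a
  · simp only [if_pos k0] at b1 b2 ⊢
    have : k = 0 := by
      norm_cast at b1 b2
      omega
    simp [this]
  · simp only [if_neg k0] at b1 b2 ⊢
    have : k = 0 ∨ k = -1 := by
      norm_cast at b1 b2
      omega
    rcases this with rfl | rfl <;> norm_num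

theorem four_of_col' (G : MGraph n m) (hc : G.Cubic) (h : G.ThreeEdgeColourable) :
    (4 : ℝ) ∈ S1 G := by
  obtain ⟨c, h⟩ := h
  obtain ⟨φ, h1, h2⟩ := two_col G hc h 0
  obtain ⟨ψ, k1, k2⟩ := two_col G hc h 1
  refine G.four_of_two ⟨le_rfl, fun e => (φ e, ψ e), h1.pair k1, fun e => ?_⟩
  simp only [h2, k2]
  by_cases a : c e = 0
  · norm_num [a]
  · by_cases b : c e = 1 <;> norm_num [a, b]

end Pool.Agent.Lib.MP_5c9ca0_co.W
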