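import Pool.Agent.Lib.MP_5c9ca0_co.W.SixA

/-! The 6-flow theorem: induction on the set of inner vertices. -/

namespace Pool.Agent.Lib.MP_5c9ca0_co.W

open Finset

variable {n m : ℕ} (G : MGraph n m)

/-- Conservation on `W`, no zero, and even values on all edges that are not inside `W`. -/
def Good6 (W : Finset (Fin n)) (φ : Fin m → ZMod 6) : Prop :=
  (∀ v ∈ W, G.dv φ v = 0) ∧ (∀ e, φ e ≠ 0) ∧ ∀ e, ¬(G.src e ∈ W ∧ G.tgt e ∈ W) → 3 * φ e = 0

theorem good_split {W R : Finset (Fin n)} (hR : R ⊆ W) {φ ψ : Fin m → ZMod 6} (h1 : Good6 G R φ)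
    (h2 : Good6 G (W \ R) ψ) (H : ∀ e f, Btw G W R e → Btw G W R f → e = f) : ∃ χ, Good6 G W χ := by
  obtain ⟨s, s1, s2⟩ : ∃ s : ZMod 6, (s = 1 ∨ s = -1) ∧ ∀ e, Btw G W R e → φ e = s * ψ e := by
    by_cases k : ∃ e, Btw G W R e
    · obtain ⟨e, he⟩ := k
      have a : 3 * φ e = 0 := h1.2.2 e (by
        rcases he with ⟨_, b⟩ | ⟨_, b⟩ <;> simp [(mem_sdiff.1 b).2])
      have b : 3 * ψ e = 0 := h2.2.2 e (by rcases he with ⟨b, _⟩ | ⟨b, _⟩ <;> simp [b])
      have c : ∀ u w : ZMod 6, 3 * u = 0 → 3 * w = 0 → u ≠ 0 → w ≠ 0 →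
          u = 1 * w ∨ u = -1 * w := by decide
      rcases c _ _ a b (h1.2.1 e) (h2.2.1 e) with c | c
      · exact ⟨1, .inl rfl, fun f hf => by rw [H f e hf he]; exact c⟩
      · exact ⟨-1, .inr rfl, fun f hf => by rw [H f e hf he]; exact c⟩
    · exact ⟨1, .inl rfl, fun e he => absurd ⟨e, he⟩ k⟩
  refine ⟨fun e => if G.src e ∈ R ∨ G.tgt e ∈ R then φ e else s * ψ e, fun v hv => ?_,
    fun e => ?_, fun e he => ?_⟩
  · by_cases k : v ∈ R
    · rw [← h1.1 v k]
      refine dv_congr G fun e he => if_pos ?_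
      rcases he with rfl | rfl
      · exact .inl k
      · exact .inr k
    · have hv' : v ∈ W \ R := mem_sdiff.2 ⟨hv, k⟩
      have : G.dv (fun e => s * ψ e) v = 0 := by rw [dv_mul', h2.1 v hv', mul_zero]
      rw [← this]
      refine dv_congr G fun e he => ?_
      split_ifs with c
      · apply s2
        rcases he with rfl | rfl
        · exact .inr ⟨c.resolve_left k, hv'⟩
        · exact .inl ⟨c.resolve_right k, hv'⟩
      · rfl
  · dsimp only
    split_ifs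
    · exact h1.2.1 e
    · rcases s1 with rfl | rfl <;> simpa using h2.2.1 e
  · dsimp only
    split_ifs
    · exact h1.2.2 e fun t => he ⟨hR t.1, hR t.2⟩
    · rw [mul_left_comm, h2.2.2 e fun t => he ⟨(mem_sdiff.1 t.1).1, (mem_sdiff.1 t.2).1⟩, mul_zero]

theorem good_closed {W : Finset (Fin n)} {x : Fin n} (hx : x ∈ W) {φ : Fin m → ZMod 6}
    (h : Good6 G (W.erase x) φ) (H : ∀ e, G.src e ∈ W ↔ G.tgt e ∈ W) : Good6 G W φ := by
  refine ⟨fun v hv => ?_, h.2.1, fun e he => h.2.2 e fun t =>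
    he ⟨mem_of_mem_erase t.1, mem_of_mem_erase t.2⟩⟩
  by_cases k : v = x
  · have a : ∑ v ∈ W, G.dv φ v = 0 := by
      rw [sum_dv]
      exact sum_eq_zero fun e _ => by simp [H e]
    rw [← add_sum_erase W _ hx, sum_eq_zero h.1, add_zero] at a
    exact k ▸ a
  · exact h.1 v (mem_erase.2 ⟨k, hv⟩)

/-- The edge `a` joins `x` to a vertex outside `W`; `c` is its sign. -/
def Out (W : Finset (Fin n)) (a : Fin m) (x : Fin n) (c : ZMod 6) : Prop :=
  (G.tgt a = x ∧ G.src a ∉ W ∧ c = 1) ∨ (G.src a = x ∧ G.tgt a ∉ W ∧ c = -1)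

theorem Out.sum {W U : Finset (Fin n)} (hU : U ⊆ W) {a : Fin m} {x : Fin n} {c : ZMod 6}
    (h : Out G W a x c) (hx : x ∈ U) (d : ZMod 6) :
    ∑ v ∈ U, G.dv (fun e => if e = a then d else 0) v = c * d := by
  simp only [dv_one, sum_sub_distrib, sum_ite_eq]
  rcases h with ⟨h1, h2, rfl⟩ | ⟨h1, h2, rfl⟩
  · simp [h1, hx, mt (@hU _) h2]
  · simp [h1, hx, mt (@hU _) h2]

theorem Out.dv {W : Finset (Fin n)} {a : Fin m} {x : Fin n} {c : ZMod 6}
    (h : Out G W a x c) (d : ZMod 6) {v : Fin n} (hv : v ∈ W) (k : x ≠ v) :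
    G.dv (fun e => if e = a then d else 0) v = 0 := by
  rw [dv_one]
  rcases h with ⟨h1, h2, rfl⟩ | ⟨h1, h2, rfl⟩
  · rw [if_neg (h1 ▸ k), if_neg (by rintro rfl; exact h2 hv), sub_zero]
  · rw [if_neg (h1 ▸ k : G.src a ≠ v), if_neg (by rintro rfl; exact h2 hv), sub_zero]

theorem three_dv {φ : Fin m → ZMod 6} {v : Fin n}
    (h : ∀ e, G.src e = v ∨ G.tgt e = v → 3 * φ e = 0) : 3 * G.dv φ v = 0 := by
  rw [← dv_mul', dv_congr G h, dv_zero]

/-- Repair of two boundary edges so that the total boundary on `U` vanishes. -/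
theorem good_fix {W U : Finset (Fin n)} (hU : U ⊆ W) {a a' : Fin m} (aa : a ≠ a') {x x' : Fin n}
    {c c' : ZMod 6} (ha : Out G W a x c) (ha' : Out G W a' x' c') (hx : x ∈ U) (hx' : x' ∈ U)
    {φ : Fin m → ZMod 6} (h : Good6 G (W \ U) φ) :
    ∃ ψ, Good6 G (W \ U) ψ ∧ ∑ v ∈ U, G.dv ψ v = 0 := by
  have out : ∀ {a x c}, Out G W a x c → ¬(G.src a ∈ W \ U ∧ G.tgt a ∈ W \ U) := by
    rintro a x c (⟨_, k, _⟩ | ⟨_, k, _⟩) t
    · exact k (mem_sdiff.1 t.1).1
    · exact k (mem_sdiff.1 t.2).1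
  have sg : ∀ {a x c}, Out G W a x c → c = 1 ∨ c = -1 := by
    rintro a x c (⟨_, _, k⟩ | ⟨_, _, k⟩)
    · exact .inl k
    · exact .inr k
  have hT : 3 * ∑ v ∈ U, G.dv φ v = 0 := by
    rw [mul_sum]
    refine sum_eq_zero fun v hv => three_dv G fun e he => h.2.2 e fun t => ?_
    rcases he with rfl | rfl
    · exact (mem_sdiff.1 t.1).2 hv
    · exact (mem_sdiff.1 t.2).2 hv
  have key : ∀ T u w : ZMod 6, 3 * T = 0 → 3 * u = 0 → 3 * w = 0 → ∀ c c' : ZMod 6,
      (c = 1 ∨ c = -1) → (c' = 1 ∨ c' = -1) → ∃ d d' : ZMod 6, 3 * d = 0 ∧ 3 * d' = 0 ∧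
        u + d ≠ 0 ∧ w + d' ≠ 0 ∧ T + c * d + c' * d' = 0 := by
    intro T u w h1 h2 h3 c c' k k'
    rcases k with rfl | rfl <;> rcases k' with rfl | rfl <;> revert T u w <;> decide +kernel
  obtain ⟨d, d', d1, d2, d3, d4, d5⟩ :=
    key _ _ _ hT (h.2.2 a (out ha)) (h.2.2 a' (out ha')) c c' (sg ha) (sg ha')
  refine ⟨fun e => φ e + (if e = a then d else 0) + if e = a' then d' else 0,
    ⟨fun v hv => ?_, fun e => ?_, fun e he => ?_⟩, ?_⟩
  · obtain ⟨v1, v2⟩ := mem_sdiff.1 hv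
    rw [dv_add', dv_add', h.1 v hv, Out.dv G ha d v1 (by rintro rfl; exact v2 hx),
      Out.dv G ha' d' v1 (by rintro rfl; exact v2 hx')]
    simp
  · by_cases k : e = a
    · subst k
      simpa [aa] using d3
    · by_cases k' : e = a'
      · subst k'
        simpa [k] using d4
      · simpa [k, k'] using h.2.1 e
  · have := h.2.2 e he
    dsimp only
    split_ifs <;> simp only [mul_add, this, d1, d2, add_zero]
  · simp only [dv_add', sum_add_distrib]
    rw [Out.sum G hU ha hx, Out.sum G hU ha' hx', d5]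

/-- The main step: a connected even subgraph through the inner ends of two boundary edges. -/
theorem good_step {W : Finset (Fin n)}
    (H : ∀ R ⊆ W, R.Nonempty → R ≠ W → ∃ e f, e ≠ f ∧ Btw G W R e ∧ Btw G W R f)
    {a a' : Fin m} (aa : a ≠ a') {x x' : Fin n} {c c' : ZMod 6} (ha : Out G W a x c)
    (ha' : Out G W a' x' c') (hx : x ∈ W) (hx' : x' ∈ W)
    (ih : ∀ R ⊂ W, ∃ φ, Good6 G R φ) : ∃ χ, Good6 G W χ := by
  obtain ⟨p, p1, p2, p3⟩ := two_paths G W H hx hx'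
  obtain ⟨U, hU, hxU, hq, o1, o2⟩ := grow G W (fun f => p f ≠ 0) p3 (fun _ => 0) hx
  have cl : ∀ f, p f ≠ 0 → (G.src f ∈ U ↔ G.tgt f ∈ U) := fun f h =>
    ⟨fun a => by by_contra b; have := o1 f h a b; omega,
      fun a => by by_contra b; have := o2 f h a b; omega⟩
  have hxU' : x' ∈ U := by
    by_contra k
    have s : ∑ v ∈ U, G.dv p v = 0 := by
      rw [sum_dv]
      refine sum_eq_zero fun e _ => ?_
      by_cases z : p e = 0
      · simp [z]
      · simp [cl e z]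
    simp [p1, ← mul_sum, hxU, k] at s
  obtain ⟨φ0, h0⟩ := ih (W \ U) (sdiff_ssubset hU ⟨x, hxU⟩)
  obtain ⟨φ, h, hs⟩ := good_fix G hU aa ha ha' hxU hxU' h0
  choose! q q1 _ q3 using hq
  have b3 : ∀ y ∈ U, 3 * G.dv φ y = 0 := fun v hv => three_dv G fun e he => h.2.2 e fun t => by
    rcases he with rfl | rfl
    · exact (mem_sdiff.1 t.1).2 hv
    · exact (mem_sdiff.1 t.2).2 hv
  let r : Fin m → ZMod 6 := fun e => ∑ y ∈ U, -G.dv φ y * (q y e : ZMod 6)
  let s : Fin m → ZMod 6 := fun e => if G.src e ∈ U then 3 * (p e : ZMod 6) else 0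
  have r1 : ∀ v, G.dv r v = if v ∈ U then -G.dv φ v else 0 := by
    intro v
    rw [dv_sum, sum_congr rfl fun y hy => by rw [dv_mul', dv_cast, q1 y hy, dv_zero]]
    push_cast
    simp only [zero_add, mul_sub, sum_sub_distrib, ← sum_mul, sum_neg_distrib, hs]
    simp
  have r2 : ∀ e, 3 * r e = 0 := by
    intro e
    rw [mul_sum]
    exact sum_eq_zero fun y hy => by rw [← mul_assoc, mul_neg, b3 y hy]; simp
  have r3 : ∀ e, ¬(p e ≠ 0 ∧ G.src e ∈ U) → r e = 0 := fun e he =>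
    sum_eq_zero fun y hy => by rw [q3 y hy e fun t => he ⟨t.1, t.2.1⟩]; simp
  have s3 : ∀ e, ¬(p e ≠ 0 ∧ G.src e ∈ U) → s e = 0 := by
    intro e he
    by_cases z : p e = 0
    · simp [s, z]
    · exact if_neg fun t => he ⟨z, t⟩
  have s1 : ∀ v, G.dv s v = 0 := by
    intro v
    by_cases k : v ∈ U
    · have : G.dv (fun e => 3 * (p e : ZMod 6)) v = 0 := by
        rw [dv_mul', dv_cast, p1]
        push_cast
        rw [← mul_assoc, show (3 * 2 : ZMod 6) = 0 by decide, zero_mul]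
      rw [← this]
      refine dv_congr G fun e he => ?_
      by_cases z : p e = 0
      · simp [s, z]
      · refine if_pos ?_
        rcases he with rfl | rfl
        · exact k
        · exact (cl e z).2 k
    · rw [← dv_zero G v]
      refine dv_congr G fun e he => s3 e fun t => k ?_
      rcases he with rfl | rfl
      · exact t.2
      · exact (cl e t.1).1 t.2
  refine ⟨fun e => φ e + r e + s e, fun v hv => ?_, fun e => ?_, fun e he => ?_⟩
  · rw [dv_add', dv_add', r1, s1]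
    split_ifs with k
    · ring
    · rw [h.1 v (mem_sdiff.2 ⟨hv, k⟩)]
      ring
  · by_cases k : p e ≠ 0 ∧ G.src e ∈ U
    · intro z
      have z3 : 3 * (φ e + r e + s e) = 0 := by rw [show φ e + r e + s e = 0 from z, mul_zero]
      rw [mul_add, mul_add, r2, h.2.2 e fun t => (mem_sdiff.1 t.1).2 k.2] at z3
      simp only [s, k.2, if_true] at z3
      have : p e = 1 ∨ p e = -1 := by
        have := abs_le.1 (p2 e)
        have := k.1
        omega
      rcases this with t | t <;> rw [t] at z3 <;> revert z3 <;> decide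
    · simpa [r3 e k, s3 e k] using h.2.1 e
  · have k : ¬(p e ≠ 0 ∧ G.src e ∈ U) := fun t => he (p3 e t.1)
    simpa [r3 e k, s3 e k] using h.2.2 e fun t => he ⟨(mem_sdiff.1 t.1).1, (mem_sdiff.1 t.2).1⟩

theorem exists_good (hG : G.Bridgeless) (W : Finset (Fin n)) : ∃ φ, Good6 G W φ := by
  induction W using Finset.strongInduction with
  | H W ih =>
  rcases W.eq_empty_or_nonempty with rfl | ⟨x0, hx0⟩
  · exact ⟨fun _ => 2, fun v hv => absurd hv (notMem_empty v), fun _ => (by decide : (2 : ZMod 6) ≠ 0),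
      fun _ _ => (by decide : (3 * 2 : ZMod 6) = 0)⟩
  by_cases H : ∀ R ⊆ W, R.Nonempty → R ≠ W → ∃ e f, e ≠ f ∧ Btw G W R e ∧ Btw G W R f
  swap
  · push Not at H
    obtain ⟨R, hR, ne, nW, H⟩ := H
    obtain ⟨φ, h1⟩ := ih R (hR.ssubset_of_ne nW)
    obtain ⟨ψ, h2⟩ := ih (W \ R) (sdiff_ssubset hR ne)
    exact good_split G hR h1 h2 fun e f he hf => by
      by_contra k
      exact H e f k he hf
  by_cases C : ∀ e, G.src e ∈ W ↔ G.tgt e ∈ W
  · obtain ⟨φ, h⟩ := ih (W.erase x0) (erase_ssubset hx0)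
    exact ⟨φ, good_closed G hx0 h C⟩
  have out : ∀ a, ¬(G.src a ∈ W ↔ G.tgt a ∈ W) → ∃ x ∈ W, ∃ c, Out G W a x c := by
    intro a ha
    by_cases k : G.src a ∈ W
    · exact ⟨_, k, -1, .inr ⟨rfl, fun t => ha (by simp [k, t]), rfl⟩⟩
    · exact ⟨_, by simpa [k] using ha, 1, .inl ⟨rfl, k, rfl⟩⟩
  obtain ⟨a, ha⟩ := not_forall.1 C
  obtain ⟨a', aa, ha'⟩ : ∃ a', a ≠ a' ∧ ¬(G.src a' ∈ W ↔ G.tgt a' ∈ W) := by
    by_contra k
    push Not at k
    apply ha
    have := hG a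
    generalize G.tgt a = z at this
    induction this with
    | refl => rfl
    | tail _ t i =>
      obtain ⟨f, hf, ⟨rfl, rfl⟩ | ⟨rfl, rfl⟩⟩ := t
      · exact i.trans (k f hf.symm)
      · exact i.trans (k f hf.symm).symm
  obtain ⟨x, hx, c, hc⟩ := out a ha
  obtain ⟨x', hx', c', hc'⟩ := out a' ha'
  exact good_step G H aa hc hc' hx hx' ih

/-- The 6-flow theorem. -/
theorem six (hG : G.Bridgeless) : (6 : ℝ) ∈ S1 G := by
  obtain ⟨φ, h1, h2, -⟩ := exists_good G hG univ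
  refine mem_S1_of_mod G (by norm_num) (fun e => (((φ e).val : ℤ) : ℝ)) (fun v => ?_) fun e => ?_
  · have : ((G.dv (fun e => ((φ e).val : ℤ)) v : ℤ) : ZMod 6) = 0 := by
      rw [← dv_cast, ← h1 v (mem_univ v)]
      simp
    obtain ⟨k, hk⟩ := (ZMod.intCast_zmod_eq_zero_iff_dvd _ 6).1 this
    refine ⟨k, ?_⟩
    rw [bd_eq, dv_cast, hk]
    push_cast
    ring
  · have a : (φ e).val < 6 := ZMod.val_lt _
    have b : (φ e).val ≠ 0 := (ZMod.val_ne_zero _).2 (h2 e)
    constructor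
    · exact_mod_cast Nat.one_le_iff_ne_zero.2 b
    · have : (φ e).val ≤ 5 := by omega
      have : (((φ e).val : ℤ) : ℝ) ≤ 5 := by exact_mod_cast this
      linarith

/-- Every bridgeless graph has circular flow number at most 6. -/
theorem circ_le_six (hG : G.Bridgeless) : G.circ ≤ 6 :=
  (G.circ_least (G.S1_ne hG)).2 (six G hG)

/-- Unconditionally the ratio is a rational number in `[1, 3)`. -/
theorem ratio_lt_three (hG : G.Bridgeless) : ∃ q : ℚ, G.circ / G.cheb = q ∧ 1 ≤ q ∧ q < 3 := by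
  obtain ⟨q, e, h1, h2⟩ := G.ratio hG
  have := h2 6 (by norm_num) (circ_le_six G hG)
  refine ⟨q, e, h1, ?_⟩
  have : (q : ℝ) < 3 := by linarith
  exact_mod_cast this

end Pool.Agent.Lib.MP_5c9ca0_co.W
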