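import Pool.Agent.Lib.MP_5c9ca0_co.W.Round

/-! Tools for the 6-flow theorem of Seymour (the proof of DeVos and Nurse, with the root replaced
by the complement of a vertex set): boundaries and augmenting paths. -/

namespace Pool.Agent.Lib.MP_5c9ca0_co.W

open Finset

variable {n m : ℕ} (G : MGraph n m)

section generic
variable {A : Type} [CommRing A]

theorem dv_add' (φ ψ : Fin m → A) (v : Fin n) :
    G.dv (fun e => φ e + ψ e) v = G.dv φ v + G.dv ψ v := by
  unfold MGraph.dv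
  rw [← sum_add_distrib]
  refine sum_congr rfl fun e _ => ?_
  split_ifs <;> ring

theorem dv_mul' (c : A) (φ : Fin m → A) (v : Fin n) :
    G.dv (fun e => c * φ e) v = c * G.dv φ v := by
  unfold MGraph.dv
  rw [mul_sum]
  refine sum_congr rfl fun e _ => ?_
  split_ifs <;> ring

theorem dv_one (f : Fin m) (c : A) (v : Fin n) :
    G.dv (fun e => if e = f then c else 0) v =
      (if G.tgt f = v then c else 0) - (if G.src f = v then c else 0) := by
  unfold MGraph.dv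
  rw [sum_eq_single f]
  · simp
  · intro e _ he
    simp [he]
  · simp

theorem dv_congr {φ ψ : Fin m → A} {v : Fin n}
    (h : ∀ e, G.src e = v ∨ G.tgt e = v → φ e = ψ e) : G.dv φ v = G.dv ψ v := by
  unfold MGraph.dv
  refine sum_congr rfl fun e _ => ?_
  by_cases a : G.src e = v <;> by_cases b : G.tgt e = v <;> simp [a, b]
  · exact h e (.inl a)
  · exact h e (.inr b)

theorem dv_zero (v : Fin n) : G.dv (fun _ => (0 : A)) v = 0 := by simp [MGraph.dv]

theorem dv_sum {ι : Type} (s : Finset ι) (φ : ι → Fin m → A) (v : Fin n) :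
    G.dv (fun e => ∑ i ∈ s, φ i e) v = ∑ i ∈ s, G.dv (φ i) v := by
  classical
  induction s using Finset.induction_on with
  | empty => simp [MGraph.dv]
  | insert i s hi ih => simp only [sum_insert hi]; rw [dv_add', ih]

theorem dv_cast (φ : Fin m → ℤ) (v : Fin n) :
    G.dv (fun e => (φ e : A)) v = (G.dv φ v : ℤ) := by
  unfold MGraph.dv
  push_cast
  rfl

theorem sum_dv (φ : Fin m → A) (S : Finset (Fin n)) : ∑ v ∈ S, G.dv φ v =
    ∑ e, ((if G.tgt e ∈ S then φ e else 0) - (if G.src e ∈ S then φ e else 0)) := by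
  unfold MGraph.dv
  rw [sum_comm]
  refine sum_congr rfl fun e _ => ?_
  rw [sum_sub_distrib, sum_ite_eq, sum_ite_eq]

end generic

/-- Augmenting paths from `x` inside the edge set `A`. -/
theorem grow (W : Finset (Fin n)) (A : Fin m → Prop) (hA : ∀ f, A f → G.src f ∈ W ∧ G.tgt f ∈ W)
    (p0 : Fin m → ℤ) {x : Fin n} (hx : x ∈ W) : ∃ R ⊆ W, x ∈ R ∧
      (∀ y ∈ R, ∃ p : Fin m → ℤ,
        (∀ v, G.dv p v = G.dv p0 v + (if y = v then 1 else 0) - (if x = v then 1 else 0)) ∧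
        (∀ f, |p0 f| ≤ 1 → |p f| ≤ 1) ∧ ∀ f, ¬(A f ∧ G.src f ∈ R ∧ G.tgt f ∈ R) → p f = p0 f) ∧
      (∀ f, A f → G.src f ∈ R → G.tgt f ∉ R → 1 ≤ p0 f) ∧
      ∀ f, A f → G.tgt f ∈ R → G.src f ∉ R → p0 f ≤ -1 := by
  classical
  let P : Finset (Fin n) → Prop := fun R => x ∈ R ∧ ∀ y ∈ R, ∃ p : Fin m → ℤ,
    (∀ v, G.dv p v = G.dv p0 v + (if y = v then 1 else 0) - (if x = v then 1 else 0)) ∧
    (∀ f, |p0 f| ≤ 1 → |p f| ≤ 1) ∧ ∀ f, ¬(A f ∧ G.src f ∈ R ∧ G.tgt f ∈ R) → p f = p0 f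
  obtain ⟨R, hR, mx⟩ := exists_max_image (W.powerset.filter P) card ⟨{x}, by
    refine mem_filter.2 ⟨mem_powerset.2 (singleton_subset_iff.2 hx), mem_singleton_self x, ?_⟩
    intro y hy
    rw [mem_singleton.1 hy]
    exact ⟨p0, fun v => by ring, fun _ h => h, fun _ _ => rfl⟩⟩
  obtain ⟨hW, hxR, hp⟩ := mem_filter.1 hR
  rw [mem_powerset] at hW
  have step : ∀ (f : Fin m) (y z : Fin n) (c : ℤ), A f → y ∈ R → z ∉ R →
      ((G.src f = y ∧ G.tgt f = z ∧ c = 1) ∨ (G.tgt f = y ∧ G.src f = z ∧ c = -1)) →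
      1 ≤ c * p0 f := by
    intro f y z c a hy hz hc
    by_contra k
    have hzW : z ∈ W := by
      rcases hc with ⟨_, h, _⟩ | ⟨_, h, _⟩
      · exact h ▸ (hA f a).2
      · exact h ▸ (hA f a).1
    have : insert z R ∈ W.powerset.filter P := by
      refine mem_filter.2 ⟨mem_powerset.2 (insert_subset hzW hW), mem_insert_of_mem hxR, ?_⟩
      intro w hw
      rcases mem_insert.1 hw with rfl | hw
      · obtain ⟨p, p1, p2, p3⟩ := hp y hy
        have pf : p f = p0 f := p3 f (by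
          rcases hc with ⟨_, h, _⟩ | ⟨_, h, _⟩ <;> simp [h, hz])
        refine ⟨fun e => p e + if e = f then c else 0, fun v => ?_, fun g hg => ?_, fun g hg => ?_⟩
        · rw [dv_add', dv_one, p1]
          rcases hc with ⟨h1, h2, rfl⟩ | ⟨h1, h2, rfl⟩ <;> rw [h1, h2] <;> split_ifs <;> ring
        · by_cases e : g = f
          · subst e
            simp only [if_true, pf]
            rw [abs_le] at hg ⊢
            rcases hc with ⟨_, _, rfl⟩ | ⟨_, _, rfl⟩ <;> omega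
          · simpa [e] using p2 g hg
        · have e : g ≠ f := by
            rintro rfl
            apply hg
            rcases hc with ⟨h1, h2, _⟩ | ⟨h1, h2, _⟩ <;> simp [h1, h2, a, hy]
          simp only [e, if_false, add_zero]
          exact p3 g fun t => hg ⟨t.1, mem_insert_of_mem t.2.1, mem_insert_of_mem t.2.2⟩
      · obtain ⟨p, p1, p2, p3⟩ := hp w hw
        exact ⟨p, p1, p2, fun g hg => p3 g fun t =>
          hg ⟨t.1, mem_insert_of_mem t.2.1, mem_insert_of_mem t.2.2⟩⟩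
    have := mx _ this
    rw [card_insert_of_notMem hz] at this
    omega
  refine ⟨R, hW, hxR, hp, fun f a h1 h2 => ?_, fun f a h1 h2 => ?_⟩
  · simpa using step f _ _ 1 a h1 h2 (.inl ⟨rfl, rfl, rfl⟩)
  · have := step f _ _ (-1) a h1 h2 (.inr ⟨rfl, rfl, rfl⟩)
    omega

/-- The edge `e` joins `R` to `W \ R`. -/
def Btw (W R : Finset (Fin n)) (e : Fin m) : Prop :=
  (G.src e ∈ R ∧ G.tgt e ∈ W \ R) ∨ (G.tgt e ∈ R ∧ G.src e ∈ W \ R)

/-- Two edge-disjoint paths, as one function. -/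
theorem two_paths (W : Finset (Fin n))
    (H : ∀ R ⊆ W, R.Nonempty → R ≠ W → ∃ e f, e ≠ f ∧ Btw G W R e ∧ Btw G W R f)
    {x y : Fin n} (hx : x ∈ W) (hy : y ∈ W) : ∃ p : Fin m → ℤ,
      (∀ v, G.dv p v = 2 * ((if y = v then 1 else 0) - (if x = v then 1 else 0))) ∧
      (∀ f, |p f| ≤ 1) ∧ ∀ f, p f ≠ 0 → G.src f ∈ W ∧ G.tgt f ∈ W := by
  obtain ⟨R, hW, hxR, hp, o1, o2⟩ :=
    grow G W (fun f => G.src f ∈ W ∧ G.tgt f ∈ W) (fun _ h => h) (fun _ => 0) hx
  have hyR : y ∈ R := by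
    by_contra k
    obtain ⟨e, -, -, ⟨a, b⟩ | ⟨a, b⟩, -⟩ := H R hW ⟨x, hxR⟩ (by rintro rfl; exact k hy)
    · have := o1 e ⟨hW a, (mem_sdiff.1 b).1⟩ a (mem_sdiff.1 b).2
      omega
    · have := o2 e ⟨(mem_sdiff.1 b).1, hW a⟩ a (mem_sdiff.1 b).2
      omega
  obtain ⟨p, p1, p2, p3⟩ := hp y hyR
  have p4 : ∀ f, ¬(G.src f ∈ W ∧ G.tgt f ∈ W) → p f = 0 := fun f h => p3 f fun t => h t.1
  clear hp o1 o2 hyR p3 hxR hW
  obtain ⟨R, hW, hxR, hp, o1, o2⟩ :=
    grow G W (fun f => G.src f ∈ W ∧ G.tgt f ∈ W) (fun _ h => h) p hx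
  have hyR : y ∈ R := by
    by_contra k
    obtain ⟨e, f, ef, he, hf⟩ := H R hW ⟨x, hxR⟩ (by rintro rfl; exact k hy)
    let t : Fin m → ℤ := fun g =>
      (if G.tgt g ∈ R then p g else 0) - (if G.src g ∈ R then p g else 0)
    have s1 : ∑ g, t g = -1 := by
      rw [← sum_dv]
      simp [p1, dv_zero, hxR, k]
    have s2 : ∀ g, Btw G W R g → t g ≤ -1 := by
      rintro g (⟨a, b⟩ | ⟨a, b⟩)
      · have := o1 g ⟨hW a, (mem_sdiff.1 b).1⟩ a (mem_sdiff.1 b).2
        simp only [t, a, (mem_sdiff.1 b).2, if_true, if_false]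
        omega
      · have := o2 g ⟨(mem_sdiff.1 b).1, hW a⟩ a (mem_sdiff.1 b).2
        simp only [t, a, (mem_sdiff.1 b).2, if_true, if_false]
        omega
    have s3 : ∀ g, t g ≤ 0 := by
      intro g
      by_cases c : G.src g ∈ W ∧ G.tgt g ∈ W
      · by_cases a : G.src g ∈ R <;> by_cases b : G.tgt g ∈ R
        · simp [t, a, b]
        · have := s2 g (.inl ⟨a, mem_sdiff.2 ⟨c.2, b⟩⟩)
          omega
        · have := s2 g (.inr ⟨b, mem_sdiff.2 ⟨c.1, a⟩⟩)
          omega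
        · simp [t, a, b]
      · simp [t, p4 g c]
    have s4 : ∑ g, t g ≤ ∑ g ∈ {e, f}, t g := by
      rw [← sum_sdiff (subset_univ {e, f})]
      have : ∑ g ∈ univ \ {e, f}, t g ≤ 0 := sum_nonpos fun g _ => s3 g
      omega
    rw [sum_pair ef] at s4
    have := s2 e he
    have := s2 f hf
    omega
  obtain ⟨q, q1, q2, q3⟩ := hp y hyR
  refine ⟨q, fun v => ?_, fun f => q2 f (p2 f (by simp)), fun f h => ?_⟩
  · rw [q1, p1, dv_zero]
    ring
  · by_contra c
    exact h ((q3 f fun t => c t.1).trans (p4 f c))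

end Pool.Agent.Lib.MP_5c9ca0_co.W
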