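import Pool.Agent.Lib.MP_5c9ca0_co.W.Six
import Pool.Agent.Lib.MP_5c9ca0_co.W.Conn
import Pool.Agent.Lib.MP_5c9ca0_co.W.Main

/-! The bounds `4 / 3` and `3` for the ratio of a snark. -/

namespace Pool.Agent.Lib.MP_5c9ca0_co.W

variable {n m : ℕ} (G : MGraph n m)

theorem three_of_six (h : (6 : ℝ) ∈ S1 G) : (3 : ℝ) ∈ G.S2 := by
  obtain ⟨-, φ, hφ, b⟩ := h
  obtain ⟨z, z1, z2⟩ := G.round (fun e => if 0 ≤ φ e then 1 else -5)
    (fun e => if 0 ≤ φ e then 5 else -1) _ φ hφ (fun e => by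
      have := b e
      split_ifs with c
      · rw [abs_of_nonneg c] at this
        constructor <;> push_cast <;> linarith [this.1, this.2]
      · rw [abs_of_neg (not_le.1 c)] at this
        constructor <;> push_cast <;> linarith [this.1, this.2]) le_rfl
  obtain ⟨w, w1, w2⟩ := G.halve z1
  obtain ⟨y, y1, y2⟩ := lift G (r := 3) (by norm_num) (fun e => (w e : ℝ)) fun v =>
    ⟨0, by rw [(flow_iff_bd G _).1 w1 v]; simp⟩
  refine ⟨by norm_num, _, (z1.add (w1.mul (-2))).pair y1, fun e => ?_⟩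
  obtain ⟨p, k, hk⟩ := y2 e
  have hk' : y e = (w e + k * 3 : ℤ) := by rw [hk]; push_cast; rfl
  rw [hk'] at p
  have p' : |w e + k * 3| < 3 := by exact_mod_cast p
  have q := w2 e
  have s := z2 e
  have : 1 ≤ max |z e - 2 * w e| |w e + k * 3| ∧ max |z e - 2 * w e| |w e + k * 3| ≤ 2 := by
    simp only [abs_le, abs_lt, le_abs, le_max_iff, max_le_iff] at p' q ⊢
    split_ifs at s <;> omega
  show 1 ≤ max |(z e : ℝ) + -2 * w e| |y e| ∧ max |(z e : ℝ) + -2 * w e| |y e| ≤ 3 - 1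
  simp only [hk', neg_mul, ← sub_eq_add_neg, show (3 : ℝ) - 1 = 2 by norm_num]
  exact_mod_cast this

theorem cheb_le_three (h : G.Bridgeless) : G.cheb ≤ 3 :=
  (G.cheb_least ((G.S1_ne h).mono G.S1_sub)).2 (three_of_six G (six G h))

theorem four_lt_circ (h : G.IsSnark) : 4 < G.circ :=
  not_le.1 fun k => h.2.2 (col_of_four h.2.1 (S1_mono G (G.circ_least (G.S1_ne h.1)).1 k))

theorem circ_le_five (h : G.Bridgeless)
    (k : ∃ φ : Fin m → ℤ, G.IsFlow φ ∧ ∀ e, φ e ≠ 0 ∧ |φ e| < 5) : G.circ ≤ 5 := by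
  obtain ⟨φ, hφ, b⟩ := k
  refine (G.circ_least (G.S1_ne h)).2 ⟨by norm_num, _, hφ.map (Int.castAddHom ℝ), fun e => ?_⟩
  have : 1 ≤ |φ e| ∧ |φ e| ≤ 4 := ⟨Int.one_le_abs (b e).1, by have := (b e).2; omega⟩
  show 1 ≤ |(φ e : ℝ)| ∧ |(φ e : ℝ)| ≤ 5 - 1
  rw [show (5 : ℝ) - 1 = 4 by norm_num]
  exact_mod_cast this

theorem snark_bounds (h : G.IsSnark) : ∃ q : ℚ, G.circ / G.cheb = q ∧ 4 / 3 < q ∧ q < 3 ∧
    (G.circ ≤ 5 → q < 5 / 2) := by
  obtain ⟨q, h0, -, h2⟩ := every_ratio G h.1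
  obtain ⟨p, p0, -, p1⟩ := ratio_lt_three G h.1
  obtain rfl : p = q := by exact_mod_cast p0.symm.trans h0
  refine ⟨p, h0, ?_, p1, h2⟩
  have a := G.two_le_cheb h.1
  have : ((4 / 3 : ℚ) : ℝ) < p := by
    rw [← h0, lt_div_iff₀ (by linarith)]
    push_cast
    linarith [cheb_le_three G h.1, four_lt_circ G h]
  exact_mod_cast this

end Pool.Agent.Lib.MP_5c9ca0_co.W
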