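import Pool.Agent.Lib.MP_5c9ca0_co.Sys

/-! A third link between two cycles: a ladder with four rungs. -/

namespace Pool.Agent.Lib.MP_5c9ca0_co.W

/-- The ladder. -/
def lm : Fin 12 → Fin 3 → Fin 12 × Fin 3 :=
  ![![(8, 2), (2, 0), (1, 2)], ![(9, 2), (3, 0), (0, 2)], ![(0, 1), (4, 0), (3, 2)],
    ![(1, 1), (5, 0), (2, 2)], ![(2, 1), (6, 0), (5, 2)], ![(3, 1), (7, 0), (4, 2)],
    ![(4, 1), (10, 2), (7, 2)], ![(5, 1), (11, 2), (6, 2)], ![(8, 0), (9, 0), (0, 0)],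
    ![(8, 1), (9, 1), (1, 0)], ![(10, 0), (11, 0), (6, 1)], ![(10, 1), (11, 1), (7, 1)]]

/-- The three links: a single edge, the ladder, the Petersen link. -/
def lk (s : Fin 3) (x : Fin 12 × Fin 3) : Fin 12 × Fin 3 :=
  if s = 1 then lm x.1 x.2 else lc (decide (s ≠ 0)) x

theorem lk_inv : ∀ s y, lk s (lk s y) = y := by decide

theorem lk_ne : ∀ s y, lk s y ≠ y → (lk s y).1 ≠ y.1 := by decide

theorem lk_fix : ∀ s y, lk s y = y ↔ y = (8, 0) ∨ y = (9, 1) ∨ y = (10, 0) ∨ y = (11, 1) := by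
  decide

theorem lk_zero : lk 0 = lc false := funext fun x => by simp [lk]

theorem lk_two : lk 2 = lc true := funext fun x => by simp [lk]

/-- The Chebyshev flow on the three links. -/
def tb : Fin 3 → Fin 12 → Fin 3 → ℤ × ℤ :=
  ![![![(1, 1), (-1, 0), (0, -1)], ![(-1, -1), (1, 0), (0, 1)], ![(0, 1), (-1, -1), (1, 0)],
      ![(-1, -1), (1, 0), (0, 1)], ![(1, 0), (0, 1), (-1, -1)], ![(0, -1), (1, 1), (-1, 0)],
      ![(1, 1), (-1, 0), (0, -1)], ![(-1, 0), (0, -1), (1, 1)], ![(1, 0), (0, 1), (-1, -1)],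
      ![(0, -1), (-1, 1), (1, 0)], ![(-1, 0), (0, -1), (1, 1)], ![(0, 1), (1, -1), (-1, 0)]],
    ![![(1, 0), (-1, 1), (0, -1)], ![(-1, -1), (1, 0), (0, 1)], ![(1, -1), (-1, 0), (0, 1)],
      ![(-1, 0), (1, 1), (0, -1)], ![(1, 0), (-1, 1), (0, -1)], ![(-1, -1), (1, 0), (0, 1)],
      ![(1, -1), (-1, 0), (0, 1)], ![(-1, 0), (1, 1), (0, -1)], ![(1, -1), (0, 1), (-1, 0)],
      ![(0, -1), (-1, 0), (1, 1)], ![(-1, 1), (0, -1), (1, 0)], ![(0, 1), (1, 0), (-1, -1)]],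
    ![![(0, -1), (1, 1), (-1, 0)], ![(-1, -1), (1, 0), (0, 1)], ![(-1, 0), (0, -1), (1, 1)],
      ![(1, -1), (0, 1), (-1, 0)], ![(-1, 0), (1, -1), (0, 1)], ![(1, 0), (0, -1), (-1, 1)],
      ![(0, -1), (1, 0), (-1, 1)], ![(-1, -1), (0, 1), (1, 0)], ![(1, 0), (-1, -1), (0, 1)],
      ![(1, 1), (-1, 0), (0, -1)], ![(-1, 0), (1, -1), (0, 1)], ![(-1, 1), (1, 0), (0, -1)]]]

theorem tb_lc : ∀ s, Lc (lk s) fun y => tb s y.1 y.2 := by decide +kernel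

theorem tb_bd : ∀ s v j, max |(tb s v j).1| |(tb s v j).2| = 1 := by decide +kernel

theorem tb_nx : ∀ s u : Fin 3, (s = 0 ↔ u = 1) →
    tb u 8 0 = -tb s 9 1 ∧ tb u 10 0 = -tb s 11 1 := by decide +kernel

/-- The circular flow on the ladder. -/
def mf (θ a b : ℝ) (y : Fin 12 × Fin 3) : ℝ :=
  ![![1, -2, 1], ![-(1 + θ), 2 + θ, -1], ![2, -1, -1], ![-(2 + θ), 1 + θ, 1], ![1, -2, 1],
    ![-(1 + θ), 2 + θ, -1], ![2, -1, -1], ![-(2 + θ), 1 + θ, 1], ![-a, a + 1, -1],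
    ![-(a + 1), a - θ, 1 + θ], ![b, -(b + 1), 1], ![b + 1, -(b - θ), -(1 + θ)]] y.1 y.2

theorem mf_lc (θ a b : ℝ) : Lc (lk 1) (mf θ a b) := by
  refine ⟨fun ⟨i, j⟩ => ?_, fun i => ?_⟩
  · fin_cases i <;> fin_cases j <;> simp [mf, lk, lm]
  · fin_cases i <;> simp [mf] <;> ring

theorem mf_bd {d θ a b : ℝ} (h0 : 0 ≤ θ) (h1 : θ ≤ d) (a1 : 1 + θ ≤ a) (a2 : a ≤ 2 + d)
    (b1 : 1 + θ ≤ b) (b2 : b ≤ 2 + d) (y) : P1 (3 + d) (mf θ a b y) := by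
  obtain ⟨i, j⟩ := y
  fin_cases i <;> fin_cases j <;> simp only [mf] <;> simp <;>
    first | (apply p1_pos <;> linarith) | (apply p1_neg <;> linarith)

theorem lm_eq {A : Type} [CommRing A] {F : Fin 12 × Fin 3 → A} (h : Lc (lk 1) F) :
    F (1, 1) = F (9, 2) - F (1, 2) ∧ F (0, 1) = F (1, 2) - F (0, 0) ∧
    F (9, 1) + F (8, 0) = -(F (9, 2) - F (0, 0)) ∧ F (11, 1) + F (10, 0) = F (9, 2) - F (0, 0) := by
  have a0 := h.2 0
  have a1 := h.2 1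
  have a2 := h.2 2
  have a3 := h.2 3
  have a4 := h.2 4
  have a5 := h.2 5
  have a6 := h.2 6
  have a7 := h.2 7
  have a8 := h.2 8
  have a9 := h.2 9
  have a10 := h.2 10
  have a11 := h.2 11
  rw [h.at (1, 2) (0, 2) (by decide)] at a0
  rw [h.at (9, 2) (1, 0) (by decide)] at a1
  rw [h.at (0, 1) (2, 0) (by decide)] at a2
  rw [h.at (1, 1) (3, 0) (by decide), h.at (2, 2) (3, 2) (by decide)] at a3
  rw [h.at (2, 1) (4, 0) (by decide)] at a4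
  rw [h.at (3, 1) (5, 0) (by decide), h.at (4, 2) (5, 2) (by decide)] at a5
  rw [h.at (4, 1) (6, 0) (by decide)] at a6
  rw [h.at (5, 1) (7, 0) (by decide), h.at (6, 2) (7, 2) (by decide)] at a7
  rw [h.at (0, 0) (8, 2) (by decide)] at a8
  rw [h.at (8, 1) (9, 0) (by decide)] at a9
  rw [h.at (6, 1) (10, 2) (by decide)] at a10
  rw [h.at (10, 1) (11, 0) (by decide), h.at (7, 1) (11, 2) (by decide)] at a11
  exact ⟨by linear_combination a1, by linear_combination a0, by linear_combination a8 + a9,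
    by linear_combination a0 + a1 + a2 + a3 + a4 + a5 + a6 + a7 + a10 + a11⟩

theorem rep2 {T x : ℝ} (h : P1 T x) (k : |x| ≤ T - 2 ∨ 3 ≤ |x|) :
    ∃ y, ∃ j : ℤ, x = y + j * (T + 1) ∧ ((1 ≤ y ∧ y ≤ T - 2) ∨ (3 ≤ y ∧ y ≤ T)) := by
  obtain ⟨a, b⟩ := h
  rcases le_total 0 x with c | c
  · rw [abs_of_nonneg c] at a b k
    exact ⟨x, 0, by simp, k.imp (fun k => ⟨a, k⟩) fun k => ⟨k, b⟩⟩
  · rw [abs_of_nonpos c] at a b k
    exact ⟨x + (T + 1), -1, by push_cast; ring, k.symm.imp (fun k => ⟨by linarith, by linarith⟩)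
      fun k => ⟨by linarith, by linarith⟩⟩

/-- Three values outside the middle range: the outer two lie on the same side. -/
theorem m_cap {T a b c : ℝ} (h4 : T < 4) (ha : P1 T a) (hb : P1 T b) (hc : P1 T c)
    (ka : |a| ≤ T - 2 ∨ 3 ≤ |a|) (kb : |b| ≤ T - 2 ∨ 3 ≤ |b|) (kc : |c| ≤ T - 2 ∨ 3 ≤ |c|)
    (h1 : P1 T (a - c)) (h2 : P1 T (c - b)) : ∃ j : ℤ, |a - b - j * (T + 1)| ≤ T - 3 := by
  obtain ⟨x, i, rfl, hx⟩ := rep2 ha ka
  obtain ⟨y, j, rfl, hy⟩ := rep2 hb kb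
  obtain ⟨z, k, rfl, hz⟩ := rep2 hc kc
  have e1 : x + i * (T + 1) - (z + k * (T + 1)) = x - z + (i - k : ℤ) * (T + 1) := by
    push_cast; ring
  have e2 : z + k * (T + 1) - (y + j * (T + 1)) = z - y + (k - j : ℤ) * (T + 1) := by
    push_cast; ring
  rw [e1] at h1
  rw [e2] at h2
  have c1 := le_abs.1 (one_le_abs h1.1 (h1.2.trans (by linarith)))
  have c2 := le_abs.1 (one_le_abs h2.1 (h2.2.trans (by linarith)))
  refine ⟨i - j, ?_⟩
  rw [show x + i * (T + 1) - (y + j * (T + 1)) - (i - j : ℤ) * (T + 1) = x - y by push_cast; ring,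
    abs_le]
  rcases hx with hx | hx <;> rcases hy with hy | hy <;> rcases hz with hz | hz <;>
    rcases c1 with c1 | c1 <;> rcases c2 with c2 | c2 <;> constructor <;>
    linarith [hx.1, hx.2, hy.1, hy.2, hz.1, hz.2]

end Pool.Agent.Lib.MP_5c9ca0_co.W
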